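import Pool.Agent.Lib_helper72.KXa.C

/-!
# The curve with `b = 24`, `c = 6`: identities
-/

set_option autoImplicit false
set_option linter.unusedSectionVars false
set_option linter.unusedSimpArgs false
set_option linter.unusedVariables false

namespace Pool.Agent.KXa

open Polynomial WeierstrassCurve.Affine WithZero TN KX KC72

section

variable {k : Type*} [Field k] [CharZero k] {F : Type*} [Field F] [Algebra k F] {x y : F}


lemma bp36 (h : Gen (24 : k) 6 x y) :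
    KC72.ev (List.ofFn (G8 x y)) (false, [0, 1, 0, 2, 1, 0, 1, 1, 0, 0, 0]) + KC72.ev (List.ofFn (G8 x y)) (false, [0, 1, 1, 0, 1, 0, 0, 0, 2, 0, 3]) =
      KC72.ev (List.ofFn (G8 x y)) (false, [0, 0, 1, 0, 0, 1, 1, 0, 2, 0, 0]) := by
  have := cz (k := k) (F := F)
  have he := Gen.eq' h
  have v1 : KC72.ev (List.ofFn (G8 x y)) (false, [0, 1, 0, 2, 1, 0, 1, 1, 0, 0, 0]) = (1) * (x - 24) ^ 1 * (x - 12) ^ 2 * (x - 8) ^ 1 * (y - 6 * x) ^ 1 * (y - 3 * x) ^ 1 := by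
    rw [ev_G8 (k := k)]
    simp [M8, Fin.prod_univ_succ, uF, zpow_ofNat, map_ofNat]
    all_goals first
      | done
      | ring1
      | (left; norm_num; done)
      | (norm_num; done)
      | (norm_num; ring1)
  have v2 : KC72.ev (List.ofFn (G8 x y)) (false, [0, 1, 1, 0, 1, 0, 0, 0, 2, 0, 3]) = (27) * (x - 24) ^ 1 * (x - 6) ^ 1 * (x - 8) ^ 1 * (y - 4 * x) ^ 2 := by
    rw [ev_G8 (k := k)]
    simp [M8, Fin.prod_univ_succ, uF, zpow_ofNat, map_ofNat]
    all_goals first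
      | done
      | ring1
      | (left; norm_num; done)
      | (norm_num; done)
      | (norm_num; ring1)
  have v3 : KC72.ev (List.ofFn (G8 x y)) (false, [0, 0, 1, 0, 0, 1, 1, 0, 2, 0, 0]) = (1) * (x - 6) ^ 1 * (y) ^ 1 * (y - 6 * x) ^ 1 * (y - 4 * x) ^ 2 := by
    rw [ev_G8 (k := k)]
    simp [M8, Fin.prod_univ_succ, uF, zpow_ofNat, map_ofNat]
    all_goals first
      | done
      | ring1
      | (left; norm_num; done)
      | (norm_num; done)
      | (norm_num; ring1)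
  rw [v1, v2, v3]
  linear_combination ((144) * x ^ 0 * y ^ 1 + (6) * x ^ 0 * y ^ 2 + (-78) * x ^ 1 * y ^ 1 + (-1) * x ^ 1 * y ^ 2 + (144) * x ^ 2 * y ^ 0 + (9) * x ^ 2 * y ^ 1 + (-18) * x ^ 3 * y ^ 0) * he


lemma bp37 (h : Gen (24 : k) 6 x y) :
    KC72.ev (List.ofFn (G8 x y)) (true, [0, 0, 1, 0, 1, 0, 0, 0, 0, 0, 0]) + KC72.ev (List.ofFn (G8 x y)) (false, [1, 0, 0, 1, 0, 0, 0, 0, 0, 0, 0]) =
      KC72.ev (List.ofFn (G8 x y)) (false, [0, 1, 0, 0, 0, 0, 0, 0, 0, 1, 0]) := by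
  have := cz (k := k) (F := F)
  have he := Gen.eq' h
  have v1 : KC72.ev (List.ofFn (G8 x y)) (true, [0, 0, 1, 0, 1, 0, 0, 0, 0, 0, 0]) = (-1) * (x - 6) ^ 1 * (x - 8) ^ 1 := by
    rw [ev_G8 (k := k)]
    simp [M8, Fin.prod_univ_succ, uF, zpow_ofNat, map_ofNat]
    all_goals first
      | done
      | ring1
      | (left; norm_num; done)
      | (norm_num; done)
      | (norm_num; ring1)
  have v2 : KC72.ev (List.ofFn (G8 x y)) (false, [1, 0, 0, 1, 0, 0, 0, 0, 0, 0, 0]) = (1) * (x) ^ 1 * (x - 12) ^ 1 := by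
    rw [ev_G8 (k := k)]
    simp [M8, Fin.prod_univ_succ, uF, zpow_ofNat, map_ofNat]
    all_goals first
      | done
      | ring1
      | (left; norm_num; done)
      | (norm_num; done)
      | (norm_num; ring1)
  have v3 : KC72.ev (List.ofFn (G8 x y)) (false, [0, 1, 0, 0, 0, 0, 0, 0, 0, 1, 0]) = (2) * (x - 24) ^ 1 := by
    rw [ev_G8 (k := k)]
    simp [M8, Fin.prod_univ_succ, uF, zpow_ofNat, map_ofNat]
    all_goals first
      | done
      | ring1
      | (left; norm_num; done)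
      | (norm_num; done)
      | (norm_num; ring1)
  rw [v1, v2, v3]
  linear_combination (0) * he


lemma bp38 (h : Gen (24 : k) 6 x y) :
    KC72.ev (List.ofFn (G8 x y)) (true, [1, 1, 1, 0, 2, 0, 0, 0, 1, 0, 0]) + KC72.ev (List.ofFn (G8 x y)) (false, [0, 0, 0, 1, 1, 1, 1, 1, 0, 0, 0]) =
      KC72.ev (List.ofFn (G8 x y)) (false, [0, 1, 1, 0, 0, 0, 0, 0, 2, 4, 0]) := by
  have := cz (k := k) (F := F)
  have he := Gen.eq' h
  have v1 : KC72.ev (List.ofFn (G8 x y)) (true, [1, 1, 1, 0, 2, 0, 0, 0, 1, 0, 0]) = (-1) * (x) ^ 1 * (x - 24) ^ 1 * (x - 6) ^ 1 * (x - 8) ^ 2 * (y - 4 * x) ^ 1 := by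
    rw [ev_G8 (k := k)]
    simp [M8, Fin.prod_univ_succ, uF, zpow_ofNat, map_ofNat]
    all_goals first
      | done
      | ring1
      | (left; norm_num; done)
      | (norm_num; done)
      | (norm_num; ring1)
  have v2 : KC72.ev (List.ofFn (G8 x y)) (false, [0, 0, 0, 1, 1, 1, 1, 1, 0, 0, 0]) = (1) * (x - 12) ^ 1 * (x - 8) ^ 1 * (y) ^ 1 * (y - 6 * x) ^ 1 * (y - 3 * x) ^ 1 := by
    rw [ev_G8 (k := k)]
    simp [M8, Fin.prod_univ_succ, uF, zpow_ofNat, map_ofNat]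
    all_goals first
      | done
      | ring1
      | (left; norm_num; done)
      | (norm_num; done)
      | (norm_num; ring1)
  have v3 : KC72.ev (List.ofFn (G8 x y)) (false, [0, 1, 1, 0, 0, 0, 0, 0, 2, 4, 0]) = (16) * (x - 24) ^ 1 * (x - 6) ^ 1 * (y - 4 * x) ^ 2 := by
    rw [ev_G8 (k := k)]
    simp [M8, Fin.prod_univ_succ, uF, zpow_ofNat, map_ofNat]
    all_goals first
      | done
      | ring1
      | (left; norm_num; done)
      | (norm_num; done)
      | (norm_num; ring1)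
  rw [v1, v2, v3]
  linear_combination ((96) * x ^ 0 * y ^ 1 + (-384) * x ^ 1 * y ^ 0 + (-20) * x ^ 1 * y ^ 1 + (88) * x ^ 2 * y ^ 0 + (1) * x ^ 2 * y ^ 1 + (-4) * x ^ 3 * y ^ 0) * he


lemma bp39 (h : Gen (24 : k) 6 x y) :
    KC72.ev (List.ofFn (G8 x y)) (true, [3, 0, 1, 1, 0, 0, 0, 0, 0, 0, 0]) + KC72.ev (List.ofFn (G8 x y)) (false, [0, 0, 1, 0, 1, 1, 0, 1, 0, 0, 0]) =
      KC72.ev (List.ofFn (G8 x y)) (false, [0, 0, 0, 0, 0, 0, 2, 1, 0, 1, 0]) := by
  have := cz (k := k) (F := F)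
  have he := Gen.eq' h
  have v1 : KC72.ev (List.ofFn (G8 x y)) (true, [3, 0, 1, 1, 0, 0, 0, 0, 0, 0, 0]) = (-1) * (x) ^ 3 * (x - 6) ^ 1 * (x - 12) ^ 1 := by
    rw [ev_G8 (k := k)]
    simp [M8, Fin.prod_univ_succ, uF, zpow_ofNat, map_ofNat]
    all_goals first
      | done
      | ring1
      | (left; norm_num; done)
      | (norm_num; done)
      | (norm_num; ring1)
  have v2 : KC72.ev (List.ofFn (G8 x y)) (false, [0, 0, 1, 0, 1, 1, 0, 1, 0, 0, 0]) = (1) * (x - 6) ^ 1 * (x - 8) ^ 1 * (y) ^ 1 * (y - 3 * x) ^ 1 := by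
    rw [ev_G8 (k := k)]
    simp [M8, Fin.prod_univ_succ, uF, zpow_ofNat, map_ofNat]
    all_goals first
      | done
      | ring1
      | (left; norm_num; done)
      | (norm_num; done)
      | (norm_num; ring1)
  have v3 : KC72.ev (List.ofFn (G8 x y)) (false, [0, 0, 0, 0, 0, 0, 2, 1, 0, 1, 0]) = (2) * (y - 6 * x) ^ 2 * (y - 3 * x) ^ 1 := by
    rw [ev_G8 (k := k)]
    simp [M8, Fin.prod_univ_succ, uF, zpow_ofNat, map_ofNat]
    all_goals first
      | done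
      | ring1
      | (left; norm_num; done)
      | (norm_num; done)
      | (norm_num; ring1)
  rw [v1, v2, v3]
  linear_combination ((-2) * x ^ 0 * y ^ 1 + (6) * x ^ 1 * y ^ 0 + (1) * x ^ 2 * y ^ 0) * he


lemma bp40 (h : Gen (24 : k) 6 x y) :
    KC72.ev (List.ofFn (G8 x y)) (false, [0, 0, 0, 0, 1, 0, 0, 1, 1, 2, 2]) + KC72.ev (List.ofFn (G8 x y)) (false, [1, 0, 1, 1, 1, 0, 1, 0, 0, 0, 0]) =
      KC72.ev (List.ofFn (G8 x y)) (false, [0, 0, 0, 1, 0, 0, 0, 1, 2, 0, 0]) := by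
  have := cz (k := k) (F := F)
  have he := Gen.eq' h
  have v1 : KC72.ev (List.ofFn (G8 x y)) (false, [0, 0, 0, 0, 1, 0, 0, 1, 1, 2, 2]) = (36) * (x - 8) ^ 1 * (y - 3 * x) ^ 1 * (y - 4 * x) ^ 1 := by
    rw [ev_G8 (k := k)]
    simp [M8, Fin.prod_univ_succ, uF, zpow_ofNat, map_ofNat]
    all_goals first
      | done
      | ring1
      | (left; norm_num; done)
      | (norm_num; done)
      | (norm_num; ring1)
  have v2 : KC72.ev (List.ofFn (G8 x y)) (false, [1, 0, 1, 1, 1, 0, 1, 0, 0, 0, 0]) = (1) * (x) ^ 1 * (x - 6) ^ 1 * (x - 12) ^ 1 * (x - 8) ^ 1 * (y - 6 * x) ^ 1 := by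
    rw [ev_G8 (k := k)]
    simp [M8, Fin.prod_univ_succ, uF, zpow_ofNat, map_ofNat]
    all_goals first
      | done
      | ring1
      | (left; norm_num; done)
      | (norm_num; done)
      | (norm_num; ring1)
  have v3 : KC72.ev (List.ofFn (G8 x y)) (false, [0, 0, 0, 1, 0, 0, 0, 1, 2, 0, 0]) = (1) * (x - 12) ^ 1 * (y - 3 * x) ^ 1 * (y - 4 * x) ^ 2 := by
    rw [ev_G8 (k := k)]
    simp [M8, Fin.prod_univ_succ, uF, zpow_ofNat, map_ofNat]
    all_goals first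
      | done
      | ring1
      | (left; norm_num; done)
      | (norm_num; done)
      | (norm_num; ring1)
  rw [v1, v2, v3]
  linear_combination ((12) * x ^ 0 * y ^ 1 + (-60) * x ^ 1 * y ^ 0 + (-1) * x ^ 1 * y ^ 1 + (6) * x ^ 2 * y ^ 0) * he


lemma bp41 (h : Gen (24 : k) 6 x y) :
    KC72.ev (List.ofFn (G8 x y)) (false, [0, 0, 0, 0, 1, 0, 0, 0, 0, 1, 2]) + KC72.ev (List.ofFn (G8 x y)) (false, [0, 1, 1, 0, 0, 0, 0, 0, 0, 0, 0]) =
      KC72.ev (List.ofFn (G8 x y)) (false, [1, 0, 0, 1, 0, 0, 0, 0, 0, 0, 0]) := by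
  have := cz (k := k) (F := F)
  have he := Gen.eq' h
  have v1 : KC72.ev (List.ofFn (G8 x y)) (false, [0, 0, 0, 0, 1, 0, 0, 0, 0, 1, 2]) = (18) * (x - 8) ^ 1 := by
    rw [ev_G8 (k := k)]
    simp [M8, Fin.prod_univ_succ, uF, zpow_ofNat, map_ofNat]
    all_goals first
      | done
      | ring1
      | (left; norm_num; done)
      | (norm_num; done)
      | (norm_num; ring1)
  have v2 : KC72.ev (List.ofFn (G8 x y)) (false, [0, 1, 1, 0, 0, 0, 0, 0, 0, 0, 0]) = (1) * (x - 24) ^ 1 * (x - 6) ^ 1 := by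
    rw [ev_G8 (k := k)]
    simp [M8, Fin.prod_univ_succ, uF, zpow_ofNat, map_ofNat]
    all_goals first
      | done
      | ring1
      | (left; norm_num; done)
      | (norm_num; done)
      | (norm_num; ring1)
  have v3 : KC72.ev (List.ofFn (G8 x y)) (false, [1, 0, 0, 1, 0, 0, 0, 0, 0, 0, 0]) = (1) * (x) ^ 1 * (x - 12) ^ 1 := by
    rw [ev_G8 (k := k)]
    simp [M8, Fin.prod_univ_succ, uF, zpow_ofNat, map_ofNat]
    all_goals first
      | done
      | ring1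
      | (left; norm_num; done)
      | (norm_num; done)
      | (norm_num; ring1)
  rw [v1, v2, v3]
  linear_combination (0) * he


lemma bp42 (h : Gen (24 : k) 6 x y) :
    KC72.ev (List.ofFn (G8 x y)) (false, [0, 0, 0, 3, 0, 0, 0, 0, 0, 0, 0]) + KC72.ev (List.ofFn (G8 x y)) (true, [0, 0, 0, 0, 1, 0, 0, 0, 0, 2, 3]) =
      KC72.ev (List.ofFn (G8 x y)) (false, [0, 1, 2, 0, 0, 0, 0, 0, 0, 0, 0]) := by
  have := cz (k := k) (F := F)
  have he := Gen.eq' h
  have v1 : KC72.ev (List.ofFn (G8 x y)) (false, [0, 0, 0, 3, 0, 0, 0, 0, 0, 0, 0]) = (1) * (x - 12) ^ 3 := by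
    rw [ev_G8 (k := k)]
    simp [M8, Fin.prod_univ_succ, uF, zpow_ofNat, map_ofNat]
    all_goals first
      | done
      | ring1
      | (left; norm_num; done)
      | (norm_num; done)
      | (norm_num; ring1)
  have v2 : KC72.ev (List.ofFn (G8 x y)) (true, [0, 0, 0, 0, 1, 0, 0, 0, 0, 2, 3]) = (-108) * (x - 8) ^ 1 := by
    rw [ev_G8 (k := k)]
    simp [M8, Fin.prod_univ_succ, uF, zpow_ofNat, map_ofNat]
    all_goals first
      | done
      | ring1
      | (left; norm_num; done)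
      | (norm_num; done)
      | (norm_num; ring1)
  have v3 : KC72.ev (List.ofFn (G8 x y)) (false, [0, 1, 2, 0, 0, 0, 0, 0, 0, 0, 0]) = (1) * (x - 24) ^ 1 * (x - 6) ^ 2 := by
    rw [ev_G8 (k := k)]
    simp [M8, Fin.prod_univ_succ, uF, zpow_ofNat, map_ofNat]
    all_goals first
      | done
      | ring1
      | (left; norm_num; done)
      | (norm_num; done)
      | (norm_num; ring1)
  rw [v1, v2, v3]
  linear_combination (0) * he


end

end Pool.Agent.KXa
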