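import Pool.Agent.Lib_helper72.KX.Dv

/-!
# The curve with `b = 24`, `c = 6`: the classes of solutions and finite data
-/

set_option autoImplicit false

namespace Pool.Agent.KXa

open KX KC72

/-- classes -/
noncomputable def cls0 : List (Mo × Mo) := [
  ((false, [.ofNat 2, .ofNat 0, .ofNat 0, .ofNat 1, .ofNat 0, .ofNat 0, .ofNat 0, .negSucc 0, .negSucc 0, .ofNat 0, .negSucc 0]), (false, [.ofNat 0, .ofNat 0, .ofNat 0, .ofNat 1, .negSucc 0, .ofNat 0, .ofNat 0, .negSucc 0, .ofNat 1, .ofNat 1, .negSucc 0])),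
  ((true, [.ofNat 2, .ofNat 0, .ofNat 1, .ofNat 0, .ofNat 0, .ofNat 0, .negSucc 0, .negSucc 0, .ofNat 0, .ofNat 0, .negSucc 0]), (false, [.ofNat 0, .ofNat 0, .ofNat 1, .ofNat 0, .negSucc 0, .ofNat 0, .negSucc 0, .negSucc 0, .ofNat 2, .ofNat 2, .negSucc 0])),
  ((false, [.ofNat 2, .ofNat 1, .ofNat 0, .ofNat 0, .ofNat 0, .negSucc 0, .negSucc 0, .ofNat 0, .ofNat 0, .ofNat 1, .negSucc 0]), (false, [.ofNat 0, .ofNat 1, .ofNat 0, .ofNat 0, .negSucc 0, .negSucc 0, .negSucc 0, .ofNat 0, .ofNat 2, .ofNat 0, .negSucc 0])),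
  ((false, [.ofNat 2, .ofNat 0, .ofNat 0, .ofNat 0, .ofNat 0, .negSucc 0, .ofNat 0, .ofNat 0, .ofNat 0, .ofNat 0, .negSucc 0]), (true, [.ofNat 0, .ofNat 0, .ofNat 0, .ofNat 0, .negSucc 0, .negSucc 0, .ofNat 0, .ofNat 0, .ofNat 2, .ofNat 0, .negSucc 0])),
  ((true, [.ofNat 2, .ofNat 0, .ofNat 1, .ofNat 0, .ofNat 0, .ofNat 0, .negSucc 0, .negSucc 0, .ofNat 0, .ofNat 0, .ofNat 0]), (false, [.ofNat 0, .ofNat 0, .ofNat 1, .negSucc 0, .ofNat 0, .ofNat 0, .negSucc 0, .ofNat 0, .ofNat 1, .ofNat 1, .ofNat 0])),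
  ((false, [.ofNat 2, .ofNat 1, .ofNat 0, .ofNat 0, .ofNat 0, .negSucc 0, .negSucc 0, .ofNat 0, .ofNat 0, .negSucc 0, .ofNat 0]), (false, [.ofNat 0, .ofNat 1, .ofNat 0, .negSucc 0, .ofNat 0, .negSucc 0, .negSucc 0, .ofNat 1, .ofNat 1, .negSucc 0, .ofNat 0])),
  ((false, [.ofNat 2, .ofNat 0, .ofNat 0, .ofNat 0, .ofNat 0, .negSucc 0, .ofNat 0, .ofNat 0, .ofNat 0, .negSucc 0, .ofNat 0]), (true, [.ofNat 0, .ofNat 0, .ofNat 0, .negSucc 0, .ofNat 0, .negSucc 0, .ofNat 0, .ofNat 1, .ofNat 1, .negSucc 0, .ofNat 0])),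
  ((false, [.ofNat 2, .ofNat 1, .ofNat 0, .ofNat 0, .ofNat 0, .negSucc 0, .negSucc 0, .ofNat 0, .ofNat 0, .negSucc 1, .ofNat 1]), (false, [.ofNat 0, .ofNat 1, .negSucc 0, .ofNat 0, .ofNat 0, .negSucc 0, .ofNat 0, .ofNat 1, .ofNat 0, .negSucc 1, .ofNat 0])),
  ((false, [.ofNat 2, .ofNat 0, .ofNat 0, .ofNat 0, .ofNat 0, .negSucc 0, .ofNat 0, .ofNat 0, .ofNat 0, .negSucc 1, .ofNat 0]), (true, [.ofNat 0, .ofNat 0, .negSucc 0, .ofNat 0, .ofNat 0, .negSucc 0, .ofNat 1, .ofNat 1, .ofNat 0, .negSucc 1, .ofNat 0])),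
  ((false, [.ofNat 2, .ofNat 0, .ofNat 0, .ofNat 0, .ofNat 0, .negSucc 0, .ofNat 0, .ofNat 0, .ofNat 0, .ofNat 0, .ofNat 0]), (true, [.ofNat 0, .negSucc 0, .ofNat 0, .ofNat 0, .ofNat 0, .ofNat 0, .ofNat 1, .ofNat 0, .ofNat 0, .ofNat 0, .ofNat 0])),
  ((true, [.ofNat 1, .ofNat 0, .ofNat 1, .ofNat 1, .ofNat 0, .ofNat 1, .negSucc 0, .negSucc 0, .negSucc 0, .ofNat 0, .negSucc 0]), (false, [.ofNat 0, .ofNat 0, .ofNat 1, .ofNat 0, .negSucc 0, .ofNat 0, .negSucc 0, .ofNat 0, .ofNat 1, .ofNat 2, .negSucc 0])),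
  ((false, [.ofNat 1, .ofNat 1, .ofNat 1, .ofNat 0, .ofNat 0, .ofNat 0, .negSucc 0, .negSucc 0, .ofNat 0, .ofNat 0, .negSucc 0]), (false, [.ofNat 0, .ofNat 1, .ofNat 1, .negSucc 0, .negSucc 0, .negSucc 0, .negSucc 0, .ofNat 0, .ofNat 2, .ofNat 1, .negSucc 0])),
  ((false, [.ofNat 1, .ofNat 1, .ofNat 0, .ofNat 0, .ofNat 0, .ofNat 0, .negSucc 0, .ofNat 0, .ofNat 0, .negSucc 0, .negSucc 0]), (true, [.ofNat 0, .ofNat 1, .ofNat 0, .negSucc 0, .negSucc 0, .negSucc 0, .negSucc 0, .ofNat 1, .ofNat 2, .negSucc 0, .negSucc 0])),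
  ((false, [.ofNat 1, .ofNat 1, .ofNat 1, .ofNat 0, .ofNat 0, .ofNat 0, .negSucc 0, .negSucc 0, .ofNat 0, .negSucc 0, .ofNat 0]), (false, [.ofNat 0, .ofNat 1, .ofNat 0, .negSucc 0, .ofNat 0, .negSucc 0, .ofNat 0, .ofNat 0, .ofNat 1, .negSucc 0, .ofNat 0])),
  ((false, [.ofNat 1, .ofNat 1, .ofNat 0, .ofNat 0, .ofNat 0, .ofNat 0, .negSucc 0, .ofNat 0, .ofNat 0, .negSucc 2, .ofNat 0]), (true, [.ofNat 0, .ofNat 1, .negSucc 0, .negSucc 0, .ofNat 0, .negSucc 0, .ofNat 0, .ofNat 1, .ofNat 1, .negSucc 2, .ofNat 0])),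
  ((false, [.ofNat 1, .ofNat 1, .ofNat 0, .ofNat 0, .ofNat 0, .ofNat 0, .negSucc 0, .ofNat 0, .ofNat 0, .negSucc 1, .ofNat 0]), (true, [.ofNat 0, .ofNat 0, .negSucc 0, .ofNat 0, .ofNat 0, .ofNat 0, .ofNat 0, .ofNat 1, .ofNat 0, .negSucc 1, .ofNat 0])),
  ((true, [.ofNat 0, .ofNat 0, .ofNat 0, .ofNat 2, .ofNat 1, .ofNat 2, .ofNat 0, .negSucc 1, .negSucc 1, .negSucc 0, .ofNat 0]), (false, [.ofNat 1, .negSucc 0, .ofNat 0, .ofNat 2, .ofNat 1, .ofNat 1, .ofNat 1, .negSucc 1, .negSucc 1, .negSucc 0, .ofNat 1])),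
  ((true, [.ofNat 0, .ofNat 0, .ofNat 1, .ofNat 1, .ofNat 1, .ofNat 2, .negSucc 0, .negSucc 0, .negSucc 1, .ofNat 0, .ofNat 0]), (false, [.ofNat 1, .negSucc 0, .ofNat 1, .ofNat 1, .ofNat 1, .ofNat 1, .ofNat 0, .negSucc 0, .negSucc 1, .ofNat 1, .ofNat 0])),
  ((true, [.ofNat 0, .ofNat 1, .ofNat 1, .ofNat 1, .ofNat 0, .ofNat 1, .negSucc 0, .negSucc 0, .negSucc 0, .ofNat 0, .negSucc 0]), (false, [.ofNat 1, .ofNat 0, .ofNat 1, .ofNat 1, .ofNat 0, .ofNat 0, .ofNat 0, .negSucc 0, .negSucc 0, .ofNat 2, .negSucc 0])),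
  ((false, [.ofNat 0, .ofNat 1, .ofNat 1, .ofNat 0, .ofNat 0, .ofNat 1, .negSucc 0, .negSucc 0, .ofNat 0, .negSucc 0, .negSucc 0]), (true, [.ofNat 1, .ofNat 0, .ofNat 1, .ofNat 0, .ofNat 0, .ofNat 0, .ofNat 0, .negSucc 0, .ofNat 0, .negSucc 0, .negSucc 0])),
  ((true, [.ofNat 0, .ofNat 0, .ofNat 1, .ofNat 1, .ofNat 1, .ofNat 2, .negSucc 0, .negSucc 0, .negSucc 1, .ofNat 0, .negSucc 0]), (false, [.ofNat 0, .ofNat 0, .ofNat 1, .negSucc 0, .ofNat 0, .ofNat 0, .negSucc 0, .ofNat 1, .ofNat 0, .ofNat 2, .negSucc 0])),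
  ((false, [.ofNat 0, .ofNat 1, .ofNat 1, .ofNat 1, .ofNat 0, .ofNat 1, .negSucc 0, .negSucc 0, .negSucc 0, .ofNat 0, .negSucc 1]), (false, [.ofNat 0, .ofNat 1, .ofNat 1, .negSucc 0, .negSucc 0, .negSucc 0, .negSucc 0, .ofNat 1, .ofNat 1, .ofNat 3, .negSucc 1])),
  ((false, [.ofNat 0, .ofNat 1, .ofNat 1, .ofNat 0, .ofNat 0, .ofNat 1, .negSucc 0, .negSucc 0, .ofNat 0, .ofNat 0, .negSucc 1]), (true, [.ofNat 0, .ofNat 1, .ofNat 1, .negSucc 1, .negSucc 0, .negSucc 0, .negSucc 0, .ofNat 1, .ofNat 2, .ofNat 0, .negSucc 1])),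
  ((false, [.ofNat 0, .ofNat 1, .ofNat 1, .ofNat 1, .ofNat 0, .ofNat 1, .negSucc 0, .negSucc 0, .negSucc 0, .ofNat 0, .negSucc 0]), (false, [.ofNat 0, .ofNat 1, .ofNat 0, .ofNat 0, .negSucc 0, .negSucc 0, .ofNat 0, .ofNat 0, .ofNat 1, .ofNat 1, .negSucc 0])),
  ((false, [.ofNat 0, .ofNat 1, .ofNat 1, .ofNat 0, .ofNat 0, .ofNat 1, .negSucc 0, .negSucc 0, .ofNat 0, .negSucc 1, .negSucc 0]), (true, [.ofNat 0, .ofNat 1, .ofNat 0, .negSucc 0, .negSucc 0, .negSucc 0, .ofNat 0, .ofNat 0, .ofNat 2, .negSucc 1, .negSucc 0])),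
  ((false, [.ofNat 0, .ofNat 1, .ofNat 1, .ofNat 0, .ofNat 0, .ofNat 1, .negSucc 0, .negSucc 0, .ofNat 0, .negSucc 2, .ofNat 0]), (true, [.ofNat 0, .ofNat 0, .ofNat 0, .negSucc 0, .ofNat 0, .ofNat 0, .ofNat 0, .ofNat 0, .ofNat 1, .negSucc 2, .ofNat 0])),
  ((true, [.ofNat 1, .negSucc 0, .ofNat 1, .ofNat 1, .ofNat 1, .ofNat 1, .ofNat 0, .negSucc 0, .negSucc 1, .ofNat 0, .ofNat 0]), (false, [.ofNat 0, .ofNat 0, .ofNat 1, .negSucc 0, .ofNat 0, .ofNat 0, .negSucc 0, .ofNat 1, .ofNat 0, .ofNat 1, .ofNat 0])),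
  ((false, [.ofNat 1, .ofNat 0, .ofNat 1, .ofNat 1, .ofNat 0, .ofNat 0, .ofNat 0, .negSucc 0, .negSucc 0, .ofNat 0, .negSucc 0]), (false, [.ofNat 0, .ofNat 1, .ofNat 1, .negSucc 0, .negSucc 0, .negSucc 0, .negSucc 0, .ofNat 1, .ofNat 1, .ofNat 1, .negSucc 0])),
  ((false, [.ofNat 1, .ofNat 0, .ofNat 1, .ofNat 0, .ofNat 0, .ofNat 0, .ofNat 0, .negSucc 0, .ofNat 0, .ofNat 0, .negSucc 0]), (true, [.ofNat 0, .ofNat 1, .ofNat 1, .negSucc 1, .negSucc 0, .negSucc 0, .negSucc 0, .ofNat 1, .ofNat 2, .ofNat 0, .negSucc 0])),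
  ((false, [.ofNat 1, .ofNat 0, .ofNat 1, .ofNat 1, .ofNat 0, .ofNat 0, .ofNat 0, .negSucc 0, .negSucc 0, .ofNat 1, .negSucc 0]), (false, [.ofNat 0, .ofNat 1, .ofNat 0, .ofNat 0, .negSucc 0, .negSucc 0, .ofNat 0, .ofNat 0, .ofNat 1, .ofNat 0, .negSucc 0])),
  ((false, [.ofNat 1, .ofNat 0, .ofNat 1, .ofNat 0, .ofNat 0, .ofNat 0, .ofNat 0, .negSucc 0, .ofNat 0, .negSucc 0, .negSucc 0]), (true, [.ofNat 0, .ofNat 1, .ofNat 0, .negSucc 0, .negSucc 0, .negSucc 0, .ofNat 0, .ofNat 0, .ofNat 2, .negSucc 0, .negSucc 0])),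
  ((false, [.ofNat 1, .ofNat 0, .ofNat 1, .ofNat 0, .ofNat 0, .ofNat 0, .ofNat 0, .negSucc 0, .ofNat 0, .negSucc 0, .ofNat 0]), (true, [.ofNat 0, .ofNat 0, .ofNat 0, .negSucc 0, .ofNat 0, .ofNat 0, .ofNat 0, .ofNat 0, .ofNat 1, .negSucc 0, .ofNat 0])),
  ((true, [.ofNat 0, .negSucc 0, .ofNat 1, .ofNat 2, .ofNat 1, .ofNat 2, .ofNat 0, .negSucc 1, .negSucc 1, .ofNat 1, .ofNat 0]), (false, [.ofNat 1, .negSucc 0, .ofNat 0, .ofNat 2, .ofNat 1, .ofNat 1, .ofNat 0, .negSucc 0, .negSucc 1, .ofNat 0, .ofNat 1])),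
  ((true, [.ofNat 0, .ofNat 0, .ofNat 1, .ofNat 1, .ofNat 1, .ofNat 1, .ofNat 0, .negSucc 0, .negSucc 1, .ofNat 0, .ofNat 0]), (false, [.ofNat 1, .ofNat 0, .ofNat 0, .ofNat 1, .ofNat 1, .ofNat 0, .ofNat 0, .ofNat 0, .negSucc 1, .ofNat 1, .ofNat 0])),
  ((false, [.ofNat 0, .ofNat 0, .ofNat 1, .ofNat 1, .ofNat 0, .ofNat 1, .ofNat 0, .negSucc 0, .negSucc 0, .ofNat 0, .negSucc 0]), (true, [.ofNat 1, .ofNat 0, .ofNat 0, .ofNat 1, .ofNat 0, .ofNat 0, .ofNat 0, .ofNat 0, .negSucc 0, .ofNat 0, .negSucc 0])),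
  ((false, [.ofNat 0, .ofNat 0, .ofNat 1, .ofNat 1, .ofNat 1, .ofNat 1, .ofNat 0, .negSucc 0, .negSucc 1, .ofNat 0, .negSucc 0]), (false, [.ofNat 0, .ofNat 1, .ofNat 0, .negSucc 0, .ofNat 0, .negSucc 0, .ofNat 0, .ofNat 1, .ofNat 0, .ofNat 1, .negSucc 0])),
  ((false, [.ofNat 0, .ofNat 0, .ofNat 1, .ofNat 1, .ofNat 0, .ofNat 1, .ofNat 0, .negSucc 0, .negSucc 0, .ofNat 0, .negSucc 1]), (true, [.ofNat 0, .ofNat 1, .ofNat 0, .negSucc 0, .negSucc 0, .negSucc 0, .ofNat 0, .ofNat 1, .ofNat 1, .ofNat 0, .negSucc 1])),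
  ((false, [.ofNat 0, .ofNat 0, .ofNat 1, .ofNat 1, .ofNat 0, .ofNat 1, .ofNat 0, .negSucc 0, .negSucc 0, .negSucc 0, .negSucc 0]), (true, [.ofNat 0, .ofNat 0, .ofNat 0, .ofNat 0, .negSucc 0, .ofNat 0, .ofNat 0, .ofNat 0, .ofNat 1, .negSucc 0, .negSucc 0])),
  ((false, [.negSucc 0, .negSucc 0, .ofNat 1, .ofNat 1, .ofNat 0, .ofNat 1, .ofNat 1, .negSucc 0, .negSucc 0, .ofNat 2, .negSucc 0]), (true, [.negSucc 0, .ofNat 0, .ofNat 0, .ofNat 1, .ofNat 0, .ofNat 1, .ofNat 0, .ofNat 0, .negSucc 0, .ofNat 0, .negSucc 0])),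
  ((false, [.ofNat 0, .negSucc 1, .ofNat 2, .ofNat 2, .ofNat 1, .ofNat 2, .ofNat 0, .negSucc 1, .negSucc 1, .ofNat 2, .ofNat 0]), (true, [.ofNat 0, .negSucc 0, .ofNat 1, .ofNat 2, .ofNat 1, .ofNat 2, .negSucc 0, .negSucc 0, .negSucc 1, .ofNat 0, .ofNat 1])),
  ((false, [.ofNat 0, .negSucc 0, .ofNat 1, .ofNat 2, .ofNat 1, .ofNat 1, .ofNat 1, .negSucc 1, .negSucc 1, .ofNat 1, .ofNat 0]), (true, [.ofNat 0, .ofNat 0, .ofNat 0, .ofNat 2, .ofNat 1, .ofNat 1, .ofNat 0, .negSucc 0, .negSucc 1, .ofNat 0, .ofNat 0])),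
  ((true, [.ofNat 0, .negSucc 0, .ofNat 1, .ofNat 1, .ofNat 1, .ofNat 1, .ofNat 1, .negSucc 0, .negSucc 1, .ofNat 0, .negSucc 0]), (false, [.ofNat 0, .ofNat 0, .ofNat 0, .ofNat 1, .ofNat 1, .ofNat 1, .ofNat 0, .ofNat 0, .negSucc 1, .ofNat 0, .negSucc 0])),
  ((true, [.ofNat 0, .negSucc 1, .ofNat 2, .ofNat 2, .ofNat 1, .ofNat 2, .ofNat 0, .negSucc 1, .negSucc 1, .ofNat 3, .ofNat 0]), (false, [.ofNat 1, .negSucc 0, .ofNat 1, .ofNat 1, .ofNat 1, .ofNat 1, .negSucc 0, .negSucc 0, .negSucc 0, .ofNat 0, .ofNat 2])),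
  ((true, [.ofNat 0, .negSucc 0, .ofNat 1, .ofNat 2, .ofNat 1, .ofNat 1, .ofNat 1, .negSucc 1, .negSucc 1, .ofNat 1, .ofNat 0]), (false, [.ofNat 1, .ofNat 0, .ofNat 0, .ofNat 1, .ofNat 1, .ofNat 0, .ofNat 0, .negSucc 0, .negSucc 0, .ofNat 0, .ofNat 1])),
  ((false, [.ofNat 0, .negSucc 0, .ofNat 1, .ofNat 1, .ofNat 1, .ofNat 1, .ofNat 1, .negSucc 0, .negSucc 1, .ofNat 0, .ofNat 0]), (true, [.ofNat 1, .ofNat 0, .ofNat 0, .ofNat 0, .ofNat 1, .ofNat 0, .ofNat 0, .ofNat 0, .negSucc 0, .ofNat 0, .ofNat 0])),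
  ((false, [.ofNat 0, .negSucc 0, .ofNat 1, .ofNat 2, .ofNat 1, .ofNat 1, .ofNat 1, .negSucc 1, .negSucc 1, .ofNat 1, .negSucc 0]), (false, [.ofNat 0, .ofNat 1, .negSucc 0, .ofNat 0, .ofNat 0, .negSucc 0, .ofNat 1, .ofNat 0, .ofNat 0, .ofNat 0, .negSucc 0])),
  ((false, [.ofNat 0, .negSucc 0, .ofNat 1, .ofNat 1, .ofNat 1, .ofNat 1, .ofNat 1, .negSucc 0, .negSucc 1, .ofNat 0, .negSucc 1]), (true, [.ofNat 0, .ofNat 1, .negSucc 0, .negSucc 0, .ofNat 0, .negSucc 0, .ofNat 1, .ofNat 1, .ofNat 0, .ofNat 0, .negSucc 1])),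
  ((false, [.ofNat 0, .negSucc 0, .ofNat 1, .ofNat 1, .ofNat 1, .ofNat 1, .ofNat 1, .negSucc 0, .negSucc 1, .ofNat 0, .negSucc 0]), (true, [.ofNat 0, .ofNat 0, .ofNat 0, .negSucc 0, .ofNat 0, .ofNat 0, .ofNat 0, .ofNat 1, .ofNat 0, .ofNat 0, .negSucc 0])),
  ((false, [.ofNat 1, .ofNat 0, .ofNat 0, .ofNat 1, .ofNat 1, .ofNat 0, .ofNat 0, .ofNat 0, .negSucc 1, .negSucc 0, .ofNat 0]), (false, [.ofNat 0, .ofNat 1, .ofNat 0, .negSucc 0, .ofNat 0, .negSucc 0, .ofNat 0, .ofNat 1, .ofNat 0, .negSucc 0, .ofNat 0])),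
  ((false, [.ofNat 1, .ofNat 0, .ofNat 0, .ofNat 1, .ofNat 0, .ofNat 0, .ofNat 0, .ofNat 0, .negSucc 0, .negSucc 0, .negSucc 0]), (true, [.ofNat 0, .ofNat 1, .ofNat 0, .negSucc 0, .negSucc 0, .negSucc 0, .ofNat 0, .ofNat 1, .ofNat 1, .negSucc 0, .negSucc 0]))]

/-- classes -/
noncomputable def cls1 : List (Mo × Mo) := [
  ((false, [.ofNat 1, .ofNat 0, .ofNat 0, .ofNat 1, .ofNat 0, .ofNat 0, .ofNat 0, .ofNat 0, .negSucc 0, .ofNat 0, .negSucc 0]), (true, [.ofNat 0, .ofNat 0, .ofNat 0, .ofNat 0, .negSucc 0, .ofNat 0, .ofNat 0, .ofNat 0, .ofNat 1, .ofNat 0, .negSucc 0])),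
  ((true, [.ofNat 0, .negSucc 0, .ofNat 1, .ofNat 2, .ofNat 1, .ofNat 2, .negSucc 0, .negSucc 0, .negSucc 1, .ofNat 1, .ofNat 0]), (false, [.ofNat 1, .negSucc 0, .ofNat 1, .ofNat 1, .ofNat 1, .ofNat 1, .negSucc 0, .negSucc 0, .negSucc 0, .ofNat 0, .ofNat 1])),
  ((true, [.ofNat 0, .ofNat 0, .ofNat 0, .ofNat 2, .ofNat 1, .ofNat 1, .ofNat 0, .negSucc 0, .negSucc 1, .negSucc 0, .ofNat 0]), (false, [.ofNat 1, .ofNat 0, .ofNat 0, .ofNat 1, .ofNat 1, .ofNat 0, .ofNat 0, .negSucc 0, .negSucc 0, .negSucc 0, .ofNat 1])),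
  ((false, [.ofNat 0, .ofNat 0, .ofNat 0, .ofNat 1, .ofNat 1, .ofNat 1, .ofNat 0, .ofNat 0, .negSucc 1, .negSucc 1, .ofNat 0]), (true, [.ofNat 1, .ofNat 0, .ofNat 0, .ofNat 0, .ofNat 1, .ofNat 0, .ofNat 0, .ofNat 0, .negSucc 0, .negSucc 1, .ofNat 0])),
  ((false, [.ofNat 0, .ofNat 0, .ofNat 0, .ofNat 2, .ofNat 1, .ofNat 1, .ofNat 0, .negSucc 0, .negSucc 1, .negSucc 0, .ofNat 0]), (false, [.ofNat 0, .ofNat 1, .negSucc 0, .ofNat 0, .ofNat 0, .negSucc 0, .ofNat 1, .ofNat 0, .ofNat 0, .negSucc 0, .ofNat 0])),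
  ((false, [.ofNat 0, .ofNat 0, .ofNat 0, .ofNat 1, .ofNat 1, .ofNat 1, .ofNat 0, .ofNat 0, .negSucc 1, .negSucc 1, .negSucc 0]), (true, [.ofNat 0, .ofNat 1, .negSucc 0, .negSucc 0, .ofNat 0, .negSucc 0, .ofNat 1, .ofNat 1, .ofNat 0, .negSucc 1, .negSucc 0])),
  ((false, [.ofNat 0, .ofNat 0, .ofNat 0, .ofNat 1, .ofNat 1, .ofNat 1, .ofNat 0, .ofNat 0, .negSucc 1, .negSucc 0, .negSucc 0]), (true, [.ofNat 0, .ofNat 0, .ofNat 0, .negSucc 0, .ofNat 0, .ofNat 0, .ofNat 0, .ofNat 1, .ofNat 0, .negSucc 0, .negSucc 0])),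
  ((false, [.negSucc 0, .negSucc 0, .ofNat 0, .ofNat 1, .ofNat 1, .ofNat 1, .ofNat 1, .ofNat 0, .negSucc 1, .ofNat 1, .ofNat 0]), (true, [.negSucc 0, .ofNat 0, .ofNat 0, .ofNat 0, .ofNat 1, .ofNat 1, .ofNat 0, .ofNat 0, .negSucc 0, .ofNat 0, .ofNat 0])),
  ((false, [.ofNat 0, .negSucc 0, .ofNat 1, .ofNat 2, .ofNat 1, .ofNat 1, .ofNat 0, .negSucc 0, .negSucc 1, .ofNat 2, .ofNat 0]), (true, [.ofNat 0, .ofNat 0, .ofNat 1, .ofNat 1, .ofNat 1, .ofNat 1, .negSucc 0, .negSucc 0, .negSucc 0, .ofNat 0, .ofNat 1])),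
  ((true, [.ofNat 0, .negSucc 0, .ofNat 0, .ofNat 2, .ofNat 1, .ofNat 1, .ofNat 1, .negSucc 0, .negSucc 1, .negSucc 0, .ofNat 0]), (false, [.ofNat 0, .ofNat 0, .ofNat 0, .ofNat 1, .ofNat 1, .ofNat 1, .ofNat 0, .negSucc 0, .negSucc 0, .negSucc 0, .ofNat 0])),
  ((true, [.ofNat 0, .negSucc 0, .ofNat 1, .ofNat 2, .ofNat 1, .ofNat 1, .ofNat 0, .negSucc 0, .negSucc 1, .ofNat 1, .ofNat 0]), (false, [.ofNat 1, .ofNat 0, .ofNat 1, .ofNat 1, .ofNat 0, .ofNat 0, .negSucc 0, .negSucc 0, .ofNat 0, .ofNat 0, .ofNat 1])),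
  ((false, [.ofNat 0, .negSucc 0, .ofNat 0, .ofNat 2, .ofNat 1, .ofNat 1, .ofNat 1, .negSucc 0, .negSucc 1, .negSucc 0, .ofNat 0]), (true, [.ofNat 1, .ofNat 0, .ofNat 0, .ofNat 1, .ofNat 0, .ofNat 0, .ofNat 0, .negSucc 0, .ofNat 0, .negSucc 0, .ofNat 0])),
  ((false, [.ofNat 0, .negSucc 0, .ofNat 0, .ofNat 2, .ofNat 1, .ofNat 1, .ofNat 1, .negSucc 0, .negSucc 1, .negSucc 0, .negSucc 0]), (true, [.ofNat 0, .ofNat 0, .negSucc 0, .ofNat 0, .ofNat 0, .ofNat 0, .ofNat 1, .ofNat 0, .ofNat 0, .negSucc 0, .negSucc 0])),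
  ((false, [.ofNat 0, .negSucc 0, .negSucc 0, .ofNat 1, .ofNat 1, .ofNat 0, .ofNat 1, .ofNat 1, .negSucc 1, .ofNat 1, .ofNat 0]), (true, [.ofNat 0, .negSucc 0, .ofNat 0, .ofNat 0, .ofNat 1, .ofNat 0, .ofNat 1, .ofNat 0, .negSucc 0, .ofNat 0, .ofNat 0])),
  ((true, [.negSucc 0, .negSucc 0, .negSucc 0, .ofNat 2, .ofNat 1, .ofNat 1, .ofNat 1, .ofNat 0, .negSucc 1, .ofNat 0, .ofNat 0]), (false, [.negSucc 0, .negSucc 0, .ofNat 0, .ofNat 1, .ofNat 1, .ofNat 1, .ofNat 1, .negSucc 0, .negSucc 0, .ofNat 1, .ofNat 0])),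
  ((true, [.ofNat 0, .ofNat 0, .ofNat 0, .ofNat 2, .ofNat 1, .ofNat 0, .ofNat 0, .ofNat 0, .negSucc 1, .ofNat 1, .ofNat 0]), (false, [.ofNat 0, .ofNat 0, .ofNat 1, .ofNat 1, .ofNat 1, .ofNat 0, .ofNat 0, .negSucc 0, .negSucc 0, .ofNat 0, .ofNat 1])),
  ((false, [.ofNat 0, .negSucc 0, .ofNat 0, .ofNat 2, .ofNat 1, .ofNat 1, .ofNat 0, .ofNat 0, .negSucc 1, .ofNat 0, .ofNat 0]), (true, [.ofNat 0, .negSucc 0, .ofNat 1, .ofNat 1, .ofNat 1, .ofNat 1, .ofNat 0, .negSucc 0, .negSucc 0, .ofNat 0, .ofNat 0])),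
  ((false, [.negSucc 0, .negSucc 0, .negSucc 0, .ofNat 2, .ofNat 1, .ofNat 1, .ofNat 1, .ofNat 0, .negSucc 1, .ofNat 0, .ofNat 1]), (true, [.negSucc 0, .ofNat 0, .ofNat 0, .ofNat 1, .ofNat 0, .ofNat 1, .ofNat 0, .negSucc 0, .ofNat 0, .ofNat 1, .ofNat 0])),
  ((false, [.ofNat 0, .ofNat 0, .ofNat 0, .ofNat 2, .ofNat 1, .ofNat 0, .ofNat 0, .ofNat 0, .negSucc 1, .ofNat 2, .ofNat 0]), (true, [.ofNat 0, .ofNat 1, .ofNat 1, .ofNat 1, .ofNat 0, .ofNat 0, .negSucc 0, .negSucc 0, .ofNat 0, .ofNat 0, .ofNat 1])),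
  ((true, [.ofNat 0, .negSucc 0, .ofNat 0, .ofNat 2, .ofNat 1, .ofNat 1, .ofNat 0, .ofNat 0, .negSucc 1, .ofNat 0, .ofNat 0]), (false, [.ofNat 0, .ofNat 0, .ofNat 1, .ofNat 1, .ofNat 0, .ofNat 1, .negSucc 0, .negSucc 0, .ofNat 0, .ofNat 0, .ofNat 0])),
  ((true, [.ofNat 0, .ofNat 0, .ofNat 0, .ofNat 2, .ofNat 1, .ofNat 0, .ofNat 0, .ofNat 0, .negSucc 1, .negSucc 0, .ofNat 0]), (false, [.ofNat 1, .ofNat 1, .ofNat 1, .ofNat 0, .ofNat 0, .negSucc 0, .negSucc 0, .ofNat 0, .ofNat 0, .negSucc 0, .ofNat 1])),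
  ((false, [.ofNat 0, .negSucc 0, .ofNat 0, .ofNat 2, .ofNat 1, .ofNat 1, .ofNat 0, .ofNat 0, .negSucc 1, .negSucc 0, .ofNat 0]), (true, [.ofNat 1, .ofNat 0, .ofNat 1, .ofNat 0, .ofNat 0, .ofNat 0, .negSucc 0, .ofNat 0, .ofNat 0, .negSucc 0, .ofNat 0])),
  ((false, [.ofNat 0, .negSucc 0, .ofNat 0, .ofNat 2, .ofNat 1, .ofNat 1, .ofNat 0, .ofNat 0, .negSucc 1, .ofNat 0, .negSucc 0]), (true, [.ofNat 0, .negSucc 0, .ofNat 0, .ofNat 0, .ofNat 0, .ofNat 1, .ofNat 0, .ofNat 0, .ofNat 0, .ofNat 0, .negSucc 0])),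
  ((false, [.ofNat 1, .ofNat 0, .ofNat 0, .ofNat 1, .ofNat 1, .ofNat 0, .ofNat 0, .negSucc 0, .negSucc 0, .negSucc 1, .ofNat 1]), (false, [.ofNat 0, .ofNat 1, .negSucc 0, .ofNat 0, .ofNat 0, .negSucc 0, .ofNat 1, .ofNat 0, .ofNat 0, .negSucc 1, .ofNat 0])),
  ((false, [.ofNat 1, .ofNat 0, .ofNat 0, .ofNat 0, .ofNat 1, .ofNat 0, .ofNat 0, .ofNat 0, .negSucc 0, .negSucc 2, .ofNat 0]), (true, [.ofNat 0, .ofNat 1, .negSucc 0, .negSucc 0, .ofNat 0, .negSucc 0, .ofNat 1, .ofNat 1, .ofNat 0, .negSucc 2, .ofNat 0])),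
  ((false, [.ofNat 1, .ofNat 0, .ofNat 0, .ofNat 0, .ofNat 1, .ofNat 0, .ofNat 0, .ofNat 0, .negSucc 0, .negSucc 0, .ofNat 0]), (true, [.ofNat 0, .ofNat 0, .ofNat 0, .negSucc 0, .ofNat 0, .ofNat 0, .ofNat 0, .ofNat 1, .ofNat 0, .negSucc 0, .ofNat 0])),
  ((true, [.ofNat 0, .ofNat 0, .ofNat 1, .ofNat 1, .ofNat 1, .ofNat 1, .negSucc 0, .negSucc 0, .negSucc 0, .ofNat 0, .ofNat 0]), (false, [.ofNat 1, .ofNat 0, .ofNat 1, .ofNat 1, .ofNat 0, .ofNat 0, .negSucc 0, .negSucc 0, .ofNat 0, .ofNat 1, .ofNat 0])),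
  ((false, [.ofNat 0, .ofNat 0, .ofNat 0, .ofNat 1, .ofNat 1, .ofNat 1, .ofNat 0, .negSucc 0, .negSucc 0, .negSucc 1, .ofNat 0]), (true, [.ofNat 1, .ofNat 0, .ofNat 0, .ofNat 1, .ofNat 0, .ofNat 0, .ofNat 0, .negSucc 0, .ofNat 0, .negSucc 1, .ofNat 0])),
  ((false, [.ofNat 0, .ofNat 0, .ofNat 0, .ofNat 1, .ofNat 1, .ofNat 1, .ofNat 0, .negSucc 0, .negSucc 0, .negSucc 2, .ofNat 0]), (true, [.ofNat 0, .ofNat 0, .negSucc 0, .ofNat 0, .ofNat 0, .ofNat 0, .ofNat 1, .ofNat 0, .ofNat 0, .negSucc 2, .ofNat 0])),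
  ((false, [.negSucc 0, .negSucc 0, .ofNat 0, .ofNat 1, .ofNat 1, .ofNat 1, .ofNat 1, .negSucc 0, .negSucc 0, .negSucc 0, .ofNat 1]), (true, [.negSucc 0, .ofNat 0, .ofNat 0, .ofNat 1, .ofNat 0, .ofNat 1, .ofNat 0, .negSucc 0, .ofNat 0, .negSucc 0, .ofNat 0])),
  ((false, [.ofNat 0, .ofNat 0, .ofNat 1, .ofNat 1, .ofNat 1, .ofNat 0, .ofNat 0, .negSucc 0, .negSucc 0, .ofNat 1, .ofNat 0]), (true, [.ofNat 0, .ofNat 1, .ofNat 1, .ofNat 1, .ofNat 0, .ofNat 0, .negSucc 0, .negSucc 0, .ofNat 0, .ofNat 0, .ofNat 0])),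
  ((true, [.ofNat 0, .negSucc 0, .ofNat 1, .ofNat 1, .ofNat 1, .ofNat 1, .ofNat 0, .negSucc 0, .negSucc 0, .negSucc 0, .ofNat 0]), (false, [.ofNat 0, .ofNat 0, .ofNat 1, .ofNat 1, .ofNat 0, .ofNat 1, .negSucc 0, .negSucc 0, .ofNat 0, .negSucc 0, .ofNat 0])),
  ((true, [.ofNat 0, .ofNat 0, .ofNat 1, .ofNat 1, .ofNat 1, .ofNat 0, .ofNat 0, .negSucc 0, .negSucc 0, .ofNat 0, .ofNat 0]), (false, [.ofNat 1, .ofNat 1, .ofNat 1, .ofNat 0, .ofNat 0, .negSucc 0, .negSucc 0, .ofNat 0, .ofNat 0, .ofNat 1, .ofNat 0])),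
  ((false, [.ofNat 0, .negSucc 0, .ofNat 1, .ofNat 1, .ofNat 1, .ofNat 1, .ofNat 0, .negSucc 0, .negSucc 0, .ofNat 0, .ofNat 0]), (true, [.ofNat 1, .ofNat 0, .ofNat 1, .ofNat 0, .ofNat 0, .ofNat 0, .negSucc 0, .ofNat 0, .ofNat 0, .ofNat 0, .ofNat 0])),
  ((false, [.ofNat 0, .negSucc 0, .ofNat 1, .ofNat 1, .ofNat 1, .ofNat 1, .ofNat 0, .negSucc 0, .negSucc 0, .negSucc 0, .ofNat 0]), (true, [.ofNat 0, .negSucc 0, .ofNat 0, .ofNat 0, .ofNat 0, .ofNat 1, .ofNat 0, .ofNat 0, .ofNat 0, .negSucc 0, .ofNat 0])),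
  ((false, [.ofNat 0, .negSucc 0, .negSucc 0, .ofNat 1, .ofNat 1, .ofNat 0, .ofNat 1, .ofNat 0, .negSucc 0, .ofNat 0, .ofNat 1]), (true, [.ofNat 0, .negSucc 0, .ofNat 0, .ofNat 1, .ofNat 0, .ofNat 0, .ofNat 1, .negSucc 0, .ofNat 0, .ofNat 1, .ofNat 0])),
  ((true, [.negSucc 0, .negSucc 0, .ofNat 0, .ofNat 1, .ofNat 1, .ofNat 1, .ofNat 0, .ofNat 0, .negSucc 0, .ofNat 0, .ofNat 1]), (false, [.negSucc 0, .negSucc 0, .ofNat 1, .ofNat 1, .ofNat 0, .ofNat 1, .ofNat 0, .negSucc 0, .ofNat 0, .ofNat 2, .ofNat 0])),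
  ((false, [.ofNat 0, .ofNat 0, .ofNat 0, .ofNat 1, .ofNat 1, .ofNat 0, .ofNat 0, .ofNat 0, .negSucc 0, .ofNat 0, .ofNat 0]), (true, [.ofNat 0, .ofNat 0, .ofNat 1, .ofNat 1, .ofNat 0, .ofNat 0, .ofNat 0, .negSucc 0, .ofNat 0, .ofNat 0, .ofNat 0])),
  ((false, [.negSucc 0, .negSucc 0, .ofNat 0, .ofNat 1, .ofNat 1, .ofNat 1, .ofNat 0, .ofNat 0, .negSucc 0, .ofNat 0, .ofNat 1]), (true, [.negSucc 0, .ofNat 0, .ofNat 1, .ofNat 0, .ofNat 0, .ofNat 1, .negSucc 0, .ofNat 0, .ofNat 0, .ofNat 1, .ofNat 0])),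
  ((true, [.ofNat 0, .ofNat 0, .ofNat 0, .ofNat 1, .ofNat 1, .ofNat 0, .ofNat 0, .ofNat 0, .negSucc 0, .negSucc 0, .ofNat 0]), (false, [.ofNat 0, .ofNat 1, .ofNat 1, .ofNat 0, .ofNat 0, .ofNat 0, .negSucc 0, .ofNat 0, .ofNat 0, .negSucc 0, .ofNat 0])),
  ((false, [.ofNat 0, .ofNat 0, .ofNat 0, .ofNat 1, .ofNat 1, .ofNat 0, .ofNat 0, .ofNat 0, .negSucc 0, .negSucc 1, .ofNat 0]), (true, [.ofNat 1, .ofNat 1, .ofNat 0, .ofNat 0, .ofNat 0, .negSucc 0, .ofNat 0, .ofNat 0, .ofNat 0, .negSucc 1, .ofNat 0])),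
  ((false, [.ofNat 0, .ofNat 0, .negSucc 0, .ofNat 0, .ofNat 1, .ofNat 0, .ofNat 0, .ofNat 0, .ofNat 0, .negSucc 0, .ofNat 1]), (true, [.ofNat 0, .ofNat 0, .negSucc 0, .ofNat 1, .ofNat 0, .ofNat 0, .ofNat 0, .ofNat 0, .ofNat 0, .negSucc 0, .ofNat 0])),
  ((true, [.ofNat 0, .negSucc 0, .ofNat 0, .ofNat 0, .ofNat 1, .ofNat 0, .ofNat 0, .ofNat 0, .ofNat 0, .ofNat 0, .ofNat 1]), (false, [.ofNat 0, .negSucc 0, .ofNat 0, .ofNat 1, .ofNat 0, .ofNat 0, .ofNat 0, .ofNat 0, .ofNat 0, .ofNat 2, .ofNat 0])),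
  ((false, [.negSucc 0, .ofNat 0, .ofNat 0, .ofNat 0, .ofNat 1, .ofNat 0, .ofNat 0, .ofNat 0, .ofNat 0, .ofNat 0, .ofNat 1]), (true, [.negSucc 0, .ofNat 0, .ofNat 0, .ofNat 1, .ofNat 0, .ofNat 0, .ofNat 0, .ofNat 0, .ofNat 0, .ofNat 1, .ofNat 0])),
  ((false, [.ofNat 0, .ofNat 0, .ofNat 0, .ofNat 0, .ofNat 1, .ofNat 0, .ofNat 0, .ofNat 0, .ofNat 0, .negSucc 1, .ofNat 0]), (true, [.ofNat 0, .ofNat 0, .ofNat 0, .ofNat 1, .ofNat 0, .ofNat 0, .ofNat 0, .ofNat 0, .ofNat 0, .negSucc 1, .ofNat 0])),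
  ((false, [.ofNat 0, .negSucc 0, .ofNat 0, .ofNat 0, .ofNat 1, .ofNat 0, .ofNat 0, .ofNat 0, .ofNat 0, .ofNat 0, .ofNat 2]), (true, [.ofNat 0, .negSucc 0, .ofNat 1, .ofNat 0, .ofNat 0, .ofNat 0, .ofNat 0, .ofNat 0, .ofNat 0, .ofNat 3, .ofNat 0])),
  ((true, [.negSucc 0, .ofNat 0, .ofNat 0, .ofNat 0, .ofNat 1, .ofNat 0, .ofNat 0, .ofNat 0, .ofNat 0, .ofNat 0, .ofNat 1]), (false, [.negSucc 0, .ofNat 0, .ofNat 1, .ofNat 0, .ofNat 0, .ofNat 0, .ofNat 0, .ofNat 0, .ofNat 0, .ofNat 2, .ofNat 0])),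
  ((true, [.ofNat 0, .ofNat 0, .ofNat 0, .ofNat 0, .ofNat 1, .ofNat 0, .ofNat 0, .ofNat 0, .ofNat 0, .negSucc 0, .ofNat 0]), (false, [.ofNat 0, .ofNat 0, .ofNat 1, .ofNat 0, .ofNat 0, .ofNat 0, .ofNat 0, .ofNat 0, .ofNat 0, .negSucc 0, .ofNat 0])),
  ((false, [.negSucc 0, .ofNat 0, .ofNat 0, .ofNat 0, .ofNat 1, .ofNat 0, .ofNat 0, .ofNat 0, .ofNat 0, .negSucc 0, .ofNat 1]), (true, [.negSucc 0, .ofNat 1, .ofNat 0, .ofNat 0, .ofNat 0, .ofNat 0, .ofNat 0, .ofNat 0, .ofNat 0, .negSucc 0, .ofNat 0])),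
  ((false, [.ofNat 0, .ofNat 0, .ofNat 0, .ofNat 0, .ofNat 1, .ofNat 0, .ofNat 0, .ofNat 0, .ofNat 0, .negSucc 3, .ofNat 0]), (true, [.ofNat 0, .ofNat 1, .ofNat 0, .ofNat 0, .ofNat 0, .ofNat 0, .ofNat 0, .ofNat 0, .ofNat 0, .negSucc 3, .ofNat 0]))]

/-- classes -/
noncomputable def cls2 : List (Mo × Mo) := [
  ((true, [.ofNat 0, .ofNat 0, .ofNat 0, .ofNat 0, .ofNat 1, .ofNat 0, .ofNat 0, .ofNat 0, .ofNat 0, .negSucc 2, .ofNat 0]), (false, [.ofNat 1, .ofNat 0, .ofNat 0, .ofNat 0, .ofNat 0, .ofNat 0, .ofNat 0, .ofNat 0, .ofNat 0, .negSucc 2, .ofNat 0])),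
  ((false, [.ofNat 1, .ofNat 0, .ofNat 0, .ofNat 1, .ofNat 0, .ofNat 0, .ofNat 0, .negSucc 0, .ofNat 0, .negSucc 1, .ofNat 0]), (true, [.ofNat 0, .ofNat 0, .negSucc 0, .ofNat 0, .ofNat 0, .ofNat 0, .ofNat 1, .ofNat 0, .ofNat 0, .negSucc 1, .ofNat 0])),
  ((true, [.ofNat 0, .ofNat 1, .ofNat 1, .ofNat 1, .ofNat 0, .ofNat 0, .negSucc 0, .negSucc 0, .ofNat 0, .ofNat 0, .negSucc 0]), (false, [.ofNat 1, .ofNat 1, .ofNat 1, .ofNat 0, .ofNat 0, .negSucc 0, .negSucc 0, .ofNat 0, .ofNat 0, .ofNat 2, .negSucc 0])),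
  ((false, [.ofNat 0, .ofNat 0, .ofNat 1, .ofNat 1, .ofNat 0, .ofNat 1, .negSucc 0, .negSucc 0, .ofNat 0, .ofNat 0, .negSucc 0]), (true, [.ofNat 1, .ofNat 0, .ofNat 1, .ofNat 0, .ofNat 0, .ofNat 0, .negSucc 0, .ofNat 0, .ofNat 0, .ofNat 0, .negSucc 0])),
  ((false, [.ofNat 0, .ofNat 0, .ofNat 1, .ofNat 1, .ofNat 0, .ofNat 1, .negSucc 0, .negSucc 0, .ofNat 0, .negSucc 1, .ofNat 0]), (true, [.ofNat 0, .negSucc 0, .ofNat 0, .ofNat 0, .ofNat 0, .ofNat 1, .ofNat 0, .ofNat 0, .ofNat 0, .negSucc 1, .ofNat 0])),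
  ((false, [.negSucc 0, .negSucc 0, .ofNat 1, .ofNat 1, .ofNat 0, .ofNat 1, .ofNat 0, .negSucc 0, .ofNat 0, .ofNat 1, .ofNat 0]), (true, [.negSucc 0, .ofNat 0, .ofNat 1, .ofNat 0, .ofNat 0, .ofNat 1, .negSucc 0, .ofNat 0, .ofNat 0, .ofNat 0, .ofNat 0])),
  ((true, [.ofNat 0, .ofNat 0, .ofNat 1, .ofNat 1, .ofNat 0, .ofNat 0, .ofNat 0, .negSucc 0, .ofNat 0, .ofNat 0, .negSucc 0]), (false, [.ofNat 0, .ofNat 1, .ofNat 1, .ofNat 0, .ofNat 0, .ofNat 0, .negSucc 0, .ofNat 0, .ofNat 0, .ofNat 0, .negSucc 0])),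
  ((false, [.ofNat 0, .ofNat 0, .ofNat 1, .ofNat 1, .ofNat 0, .ofNat 0, .ofNat 0, .negSucc 0, .ofNat 0, .ofNat 0, .negSucc 0]), (true, [.ofNat 1, .ofNat 1, .ofNat 0, .ofNat 0, .ofNat 0, .negSucc 0, .ofNat 0, .ofNat 0, .ofNat 0, .ofNat 0, .negSucc 0])),
  ((false, [.ofNat 0, .negSucc 0, .ofNat 0, .ofNat 1, .ofNat 0, .ofNat 0, .ofNat 0, .ofNat 0, .ofNat 0, .ofNat 0, .ofNat 1]), (true, [.ofNat 0, .negSucc 0, .ofNat 1, .ofNat 0, .ofNat 0, .ofNat 0, .ofNat 0, .ofNat 0, .ofNat 0, .ofNat 1, .ofNat 0])),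
  ((true, [.negSucc 0, .ofNat 0, .ofNat 0, .ofNat 1, .ofNat 0, .ofNat 0, .ofNat 0, .ofNat 0, .ofNat 0, .ofNat 0, .ofNat 0]), (false, [.negSucc 0, .ofNat 0, .ofNat 1, .ofNat 0, .ofNat 0, .ofNat 0, .ofNat 0, .ofNat 0, .ofNat 0, .ofNat 1, .ofNat 0])),
  ((true, [.ofNat 0, .ofNat 0, .ofNat 0, .ofNat 1, .ofNat 0, .ofNat 0, .ofNat 0, .ofNat 0, .ofNat 0, .negSucc 0, .negSucc 0]), (false, [.ofNat 0, .ofNat 0, .ofNat 1, .ofNat 0, .ofNat 0, .ofNat 0, .ofNat 0, .ofNat 0, .ofNat 0, .negSucc 0, .negSucc 0])),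
  ((false, [.negSucc 0, .ofNat 0, .ofNat 0, .ofNat 1, .ofNat 0, .ofNat 0, .ofNat 0, .ofNat 0, .ofNat 0, .ofNat 1, .ofNat 0]), (true, [.negSucc 0, .ofNat 1, .ofNat 0, .ofNat 0, .ofNat 0, .ofNat 0, .ofNat 0, .ofNat 0, .ofNat 0, .ofNat 0, .ofNat 0])),
  ((false, [.ofNat 0, .ofNat 0, .ofNat 0, .ofNat 1, .ofNat 0, .ofNat 0, .ofNat 0, .ofNat 0, .ofNat 0, .negSucc 1, .negSucc 0]), (true, [.ofNat 0, .ofNat 1, .ofNat 0, .ofNat 0, .ofNat 0, .ofNat 0, .ofNat 0, .ofNat 0, .ofNat 0, .negSucc 1, .negSucc 0])),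
  ((true, [.ofNat 0, .ofNat 0, .ofNat 0, .ofNat 1, .ofNat 0, .ofNat 0, .ofNat 0, .ofNat 0, .ofNat 0, .negSucc 1, .negSucc 0]), (false, [.ofNat 1, .ofNat 0, .ofNat 0, .ofNat 0, .ofNat 0, .ofNat 0, .ofNat 0, .ofNat 0, .ofNat 0, .negSucc 1, .negSucc 0])),
  ((false, [.ofNat 0, .ofNat 0, .ofNat 0, .ofNat 0, .ofNat 0, .ofNat 0, .negSucc 0, .ofNat 0, .ofNat 1, .ofNat 0, .ofNat 1]), (true, [.ofNat 0, .ofNat 0, .ofNat 0, .ofNat 0, .ofNat 0, .ofNat 0, .negSucc 0, .ofNat 1, .ofNat 0, .ofNat 1, .ofNat 0])),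
  ((true, [.ofNat 0, .ofNat 0, .ofNat 0, .ofNat 0, .ofNat 0, .negSucc 0, .ofNat 0, .ofNat 0, .ofNat 1, .ofNat 0, .ofNat 1]), (false, [.ofNat 0, .ofNat 0, .ofNat 0, .ofNat 0, .ofNat 0, .negSucc 0, .ofNat 0, .ofNat 1, .ofNat 0, .ofNat 2, .ofNat 0])),
  ((true, [.negSucc 0, .ofNat 0, .ofNat 0, .ofNat 0, .ofNat 0, .ofNat 0, .ofNat 0, .ofNat 0, .ofNat 1, .ofNat 0, .ofNat 0]), (false, [.negSucc 0, .ofNat 0, .ofNat 0, .ofNat 0, .ofNat 0, .ofNat 0, .ofNat 0, .ofNat 1, .ofNat 0, .ofNat 0, .ofNat 0])),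
  ((false, [.ofNat 0, .ofNat 0, .ofNat 0, .ofNat 0, .ofNat 0, .negSucc 0, .ofNat 0, .ofNat 0, .ofNat 1, .ofNat 0, .ofNat 1]), (true, [.ofNat 0, .ofNat 0, .ofNat 0, .ofNat 0, .ofNat 0, .negSucc 0, .ofNat 1, .ofNat 0, .ofNat 0, .ofNat 1, .ofNat 0])),
  ((false, [.negSucc 0, .ofNat 0, .ofNat 0, .ofNat 0, .ofNat 0, .ofNat 0, .ofNat 0, .ofNat 0, .ofNat 1, .negSucc 0, .ofNat 0]), (true, [.negSucc 0, .ofNat 0, .ofNat 0, .ofNat 0, .ofNat 0, .ofNat 0, .ofNat 1, .ofNat 0, .ofNat 0, .negSucc 0, .ofNat 0])),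
  ((true, [.negSucc 0, .ofNat 0, .ofNat 0, .ofNat 0, .ofNat 0, .ofNat 0, .ofNat 0, .ofNat 0, .ofNat 1, .negSucc 1, .ofNat 0]), (false, [.negSucc 0, .ofNat 0, .ofNat 0, .ofNat 0, .ofNat 0, .ofNat 1, .ofNat 0, .ofNat 0, .ofNat 0, .negSucc 1, .ofNat 0])),
  ((false, [.ofNat 0, .ofNat 0, .ofNat 1, .ofNat 0, .negSucc 0, .ofNat 0, .negSucc 0, .negSucc 0, .ofNat 2, .ofNat 1, .ofNat 0]), (true, [.ofNat 0, .ofNat 0, .ofNat 1, .negSucc 0, .ofNat 0, .ofNat 0, .negSucc 0, .ofNat 0, .ofNat 1, .ofNat 0, .ofNat 0])),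
  ((true, [.ofNat 0, .ofNat 1, .ofNat 0, .ofNat 0, .negSucc 0, .negSucc 0, .negSucc 0, .ofNat 0, .ofNat 2, .ofNat 0, .ofNat 0]), (false, [.ofNat 0, .ofNat 1, .ofNat 0, .negSucc 0, .ofNat 0, .negSucc 0, .negSucc 0, .ofNat 1, .ofNat 1, .ofNat 1, .ofNat 0])),
  ((true, [.ofNat 0, .ofNat 0, .ofNat 0, .ofNat 0, .negSucc 0, .negSucc 0, .ofNat 0, .ofNat 0, .ofNat 2, .ofNat 0, .ofNat 0]), (false, [.ofNat 0, .ofNat 0, .ofNat 0, .negSucc 0, .ofNat 0, .negSucc 0, .ofNat 0, .ofNat 1, .ofNat 1, .ofNat 0, .ofNat 0])),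
  ((false, [.ofNat 0, .ofNat 1, .ofNat 0, .ofNat 0, .negSucc 0, .negSucc 0, .negSucc 0, .ofNat 0, .ofNat 2, .ofNat 0, .ofNat 1]), (true, [.ofNat 0, .ofNat 1, .negSucc 0, .ofNat 0, .ofNat 0, .negSucc 0, .ofNat 0, .ofNat 1, .ofNat 0, .ofNat 1, .ofNat 0])),
  ((false, [.ofNat 0, .ofNat 0, .ofNat 0, .ofNat 0, .negSucc 0, .negSucc 0, .ofNat 0, .ofNat 0, .ofNat 2, .ofNat 0, .ofNat 0]), (true, [.ofNat 0, .ofNat 0, .negSucc 0, .ofNat 0, .ofNat 0, .negSucc 0, .ofNat 1, .ofNat 1, .ofNat 0, .ofNat 0, .ofNat 0])),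
  ((true, [.ofNat 0, .ofNat 0, .ofNat 0, .ofNat 0, .negSucc 0, .negSucc 0, .ofNat 0, .ofNat 0, .ofNat 2, .negSucc 0, .ofNat 0]), (false, [.ofNat 0, .negSucc 0, .ofNat 0, .ofNat 0, .ofNat 0, .ofNat 0, .ofNat 1, .ofNat 0, .ofNat 0, .negSucc 0, .ofNat 0])),
  ((false, [.ofNat 1, .ofNat 0, .ofNat 1, .ofNat 0, .ofNat 0, .ofNat 0, .negSucc 0, .ofNat 0, .ofNat 0, .ofNat 0, .ofNat 0]), (true, [.ofNat 0, .negSucc 0, .ofNat 0, .ofNat 0, .ofNat 0, .ofNat 1, .ofNat 0, .ofNat 0, .ofNat 0, .ofNat 0, .ofNat 0])),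
  ((false, [.ofNat 0, .ofNat 1, .ofNat 1, .ofNat 0, .ofNat 0, .ofNat 0, .negSucc 0, .ofNat 0, .ofNat 0, .negSucc 0, .negSucc 0]), (true, [.ofNat 1, .ofNat 1, .ofNat 0, .ofNat 0, .ofNat 0, .negSucc 0, .ofNat 0, .ofNat 0, .ofNat 0, .negSucc 0, .negSucc 0])),
  ((false, [.negSucc 0, .ofNat 0, .ofNat 1, .ofNat 0, .ofNat 0, .ofNat 0, .ofNat 0, .ofNat 0, .ofNat 0, .ofNat 2, .negSucc 0]), (true, [.negSucc 0, .ofNat 1, .ofNat 0, .ofNat 0, .ofNat 0, .ofNat 0, .ofNat 0, .ofNat 0, .ofNat 0, .ofNat 0, .negSucc 0])),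
  ((false, [.ofNat 0, .ofNat 0, .ofNat 1, .ofNat 0, .ofNat 0, .ofNat 0, .ofNat 0, .ofNat 0, .ofNat 0, .negSucc 0, .negSucc 1]), (true, [.ofNat 0, .ofNat 1, .ofNat 0, .ofNat 0, .ofNat 0, .ofNat 0, .ofNat 0, .ofNat 0, .ofNat 0, .negSucc 0, .negSucc 1])),
  ((true, [.ofNat 0, .ofNat 0, .ofNat 1, .ofNat 0, .ofNat 0, .ofNat 0, .ofNat 0, .ofNat 0, .ofNat 0, .negSucc 0, .negSucc 0]), (false, [.ofNat 1, .ofNat 0, .ofNat 0, .ofNat 0, .ofNat 0, .ofNat 0, .ofNat 0, .ofNat 0, .ofNat 0, .negSucc 0, .negSucc 0])),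
  ((false, [.ofNat 0, .ofNat 0, .ofNat 0, .ofNat 0, .ofNat 0, .negSucc 0, .ofNat 0, .ofNat 1, .ofNat 0, .ofNat 1, .ofNat 0]), (true, [.ofNat 0, .ofNat 0, .ofNat 0, .ofNat 0, .ofNat 0, .negSucc 0, .ofNat 1, .ofNat 0, .ofNat 0, .ofNat 0, .ofNat 0])),
  ((false, [.negSucc 0, .ofNat 0, .ofNat 0, .ofNat 0, .ofNat 0, .ofNat 0, .ofNat 0, .ofNat 1, .ofNat 0, .ofNat 0, .negSucc 0]), (true, [.negSucc 0, .ofNat 0, .ofNat 0, .ofNat 0, .ofNat 0, .ofNat 0, .ofNat 1, .ofNat 0, .ofNat 0, .ofNat 0, .negSucc 0])),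
  ((true, [.negSucc 0, .ofNat 0, .ofNat 0, .ofNat 0, .ofNat 0, .ofNat 0, .ofNat 0, .ofNat 1, .ofNat 0, .ofNat 0, .negSucc 0]), (false, [.negSucc 0, .ofNat 0, .ofNat 0, .ofNat 0, .ofNat 0, .ofNat 1, .ofNat 0, .ofNat 0, .ofNat 0, .ofNat 0, .negSucc 0])),
  ((false, [.ofNat 0, .ofNat 1, .ofNat 0, .negSucc 0, .ofNat 0, .negSucc 0, .negSucc 0, .ofNat 1, .ofNat 1, .negSucc 0, .ofNat 1]), (true, [.ofNat 0, .ofNat 1, .negSucc 0, .ofNat 0, .ofNat 0, .negSucc 0, .ofNat 0, .ofNat 1, .ofNat 0, .negSucc 0, .ofNat 0])),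
  ((false, [.ofNat 0, .ofNat 0, .ofNat 0, .negSucc 0, .ofNat 0, .negSucc 0, .ofNat 0, .ofNat 1, .ofNat 1, .negSucc 0, .ofNat 0]), (true, [.ofNat 0, .ofNat 0, .negSucc 0, .ofNat 0, .ofNat 0, .negSucc 0, .ofNat 1, .ofNat 1, .ofNat 0, .negSucc 0, .ofNat 0])),
  ((true, [.ofNat 0, .ofNat 0, .ofNat 0, .negSucc 0, .ofNat 0, .negSucc 0, .ofNat 0, .ofNat 1, .ofNat 1, .ofNat 0, .ofNat 0]), (false, [.ofNat 0, .negSucc 0, .ofNat 0, .ofNat 0, .ofNat 0, .ofNat 0, .ofNat 1, .ofNat 0, .ofNat 0, .ofNat 0, .ofNat 0])),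
  ((false, [.ofNat 0, .ofNat 1, .ofNat 1, .negSucc 0, .negSucc 0, .negSucc 0, .negSucc 0, .ofNat 0, .ofNat 2, .ofNat 1, .ofNat 0]), (true, [.ofNat 0, .ofNat 1, .ofNat 0, .negSucc 0, .ofNat 0, .negSucc 0, .ofNat 0, .ofNat 0, .ofNat 1, .ofNat 0, .ofNat 0])),
  ((false, [.ofNat 0, .ofNat 1, .ofNat 0, .negSucc 0, .negSucc 0, .negSucc 0, .negSucc 0, .ofNat 1, .ofNat 2, .negSucc 0, .ofNat 0]), (true, [.ofNat 0, .ofNat 1, .negSucc 0, .negSucc 0, .ofNat 0, .negSucc 0, .ofNat 0, .ofNat 1, .ofNat 1, .negSucc 0, .ofNat 0])),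
  ((true, [.ofNat 0, .ofNat 1, .ofNat 0, .negSucc 0, .negSucc 0, .negSucc 0, .negSucc 0, .ofNat 1, .ofNat 2, .negSucc 0, .ofNat 0]), (false, [.ofNat 0, .ofNat 0, .negSucc 0, .ofNat 0, .ofNat 0, .ofNat 0, .ofNat 0, .ofNat 1, .ofNat 0, .negSucc 0, .ofNat 0])),
  ((false, [.ofNat 0, .ofNat 1, .ofNat 1, .negSucc 0, .negSucc 0, .negSucc 0, .negSucc 0, .ofNat 1, .ofNat 1, .ofNat 2, .negSucc 0]), (true, [.ofNat 0, .ofNat 1, .ofNat 0, .ofNat 0, .negSucc 0, .negSucc 0, .ofNat 0, .ofNat 0, .ofNat 1, .ofNat 0, .negSucc 0])),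
  ((false, [.ofNat 0, .ofNat 1, .ofNat 1, .negSucc 1, .negSucc 0, .negSucc 0, .negSucc 0, .ofNat 1, .ofNat 2, .ofNat 0, .negSucc 0]), (true, [.ofNat 0, .ofNat 1, .ofNat 0, .negSucc 0, .negSucc 0, .negSucc 0, .ofNat 0, .ofNat 0, .ofNat 2, .ofNat 0, .negSucc 0])),
  ((true, [.ofNat 0, .ofNat 1, .ofNat 1, .negSucc 1, .negSucc 0, .negSucc 0, .negSucc 0, .ofNat 1, .ofNat 2, .ofNat 0, .ofNat 0]), (false, [.ofNat 0, .ofNat 0, .ofNat 0, .negSucc 0, .ofNat 0, .ofNat 0, .ofNat 0, .ofNat 0, .ofNat 1, .ofNat 0, .ofNat 0])),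
  ((true, [.ofNat 0, .ofNat 1, .ofNat 0, .ofNat 0, .ofNat 0, .ofNat 0, .ofNat 0, .ofNat 0, .ofNat 0, .negSucc 2, .negSucc 0]), (false, [.ofNat 1, .ofNat 0, .ofNat 0, .ofNat 0, .ofNat 0, .ofNat 0, .ofNat 0, .ofNat 0, .ofNat 0, .negSucc 2, .negSucc 0])),
  ((true, [.negSucc 0, .ofNat 0, .ofNat 0, .ofNat 0, .ofNat 0, .ofNat 0, .ofNat 1, .ofNat 0, .ofNat 0, .negSucc 0, .negSucc 0]), (false, [.negSucc 0, .ofNat 0, .ofNat 0, .ofNat 0, .ofNat 0, .ofNat 1, .ofNat 0, .ofNat 0, .ofNat 0, .negSucc 0, .negSucc 0])),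
  ((true, [.ofNat 0, .ofNat 0, .negSucc 0, .ofNat 0, .ofNat 0, .negSucc 0, .ofNat 1, .ofNat 1, .ofNat 0, .ofNat 0, .negSucc 0]), (false, [.ofNat 0, .negSucc 0, .ofNat 0, .ofNat 0, .ofNat 0, .ofNat 0, .ofNat 1, .ofNat 0, .ofNat 0, .ofNat 0, .negSucc 0])),
  ((true, [.ofNat 0, .ofNat 1, .negSucc 0, .negSucc 0, .ofNat 0, .negSucc 0, .ofNat 0, .ofNat 1, .ofNat 1, .negSucc 1, .ofNat 0]), (false, [.ofNat 0, .ofNat 0, .negSucc 0, .ofNat 0, .ofNat 0, .ofNat 0, .ofNat 0, .ofNat 1, .ofNat 0, .negSucc 1, .ofNat 0])),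
  ((true, [.ofNat 0, .ofNat 1, .ofNat 0, .negSucc 0, .negSucc 0, .negSucc 0, .ofNat 0, .ofNat 0, .ofNat 2, .negSucc 1, .ofNat 0]), (false, [.ofNat 0, .ofNat 0, .ofNat 0, .negSucc 0, .ofNat 0, .ofNat 0, .ofNat 0, .ofNat 0, .ofNat 1, .negSucc 1, .ofNat 0])),
  ((true, [.ofNat 0, .ofNat 1, .ofNat 0, .negSucc 0, .negSucc 0, .negSucc 0, .ofNat 0, .ofNat 1, .ofNat 1, .ofNat 0, .negSucc 0]), (false, [.ofNat 0, .ofNat 0, .ofNat 0, .ofNat 0, .negSucc 0, .ofNat 0, .ofNat 0, .ofNat 0, .ofNat 1, .ofNat 0, .negSucc 0])),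
  ((true, [.ofNat 0, .ofNat 1, .negSucc 0, .negSucc 0, .ofNat 0, .negSucc 0, .ofNat 1, .ofNat 1, .ofNat 0, .negSucc 0, .negSucc 0]), (false, [.ofNat 0, .ofNat 0, .ofNat 0, .negSucc 0, .ofNat 0, .ofNat 0, .ofNat 0, .ofNat 1, .ofNat 0, .negSucc 0, .negSucc 0]))]

/-- classes -/
noncomputable def cls3 : List (Mo × Mo) := [
  ((false, [.ofNat 3, .ofNat 1, .ofNat 0, .ofNat 0, .ofNat 0, .negSucc 0, .negSucc 0, .ofNat 0, .ofNat 0, .negSucc 3, .ofNat 0]), (true, [.ofNat 0, .ofNat 0, .negSucc 0, .ofNat 1, .ofNat 1, .ofNat 0, .ofNat 0, .ofNat 1, .negSucc 0, .negSucc 3, .ofNat 0])),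
  ((false, [.ofNat 3, .ofNat 0, .ofNat 0, .ofNat 0, .ofNat 0, .negSucc 1, .ofNat 0, .ofNat 0, .ofNat 0, .negSucc 0, .ofNat 1]), (true, [.ofNat 0, .ofNat 1, .negSucc 0, .negSucc 1, .negSucc 0, .negSucc 2, .ofNat 1, .ofNat 2, .ofNat 2, .negSucc 0, .ofNat 0])),
  ((false, [.ofNat 2, .ofNat 0, .ofNat 0, .ofNat 2, .ofNat 1, .ofNat 1, .ofNat 0, .negSucc 1, .negSucc 1, .negSucc 3, .ofNat 0]), (true, [.ofNat 0, .ofNat 1, .negSucc 1, .ofNat 0, .ofNat 0, .negSucc 0, .ofNat 2, .ofNat 0, .ofNat 0, .negSucc 3, .ofNat 0])),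
  ((true, [.ofNat 1, .ofNat 1, .ofNat 0, .ofNat 0, .ofNat 1, .ofNat 1, .negSucc 0, .ofNat 0, .negSucc 1, .negSucc 2, .ofNat 0]), (false, [.ofNat 0, .ofNat 0, .negSucc 0, .negSucc 0, .ofNat 2, .ofNat 0, .ofNat 0, .ofNat 1, .negSucc 0, .negSucc 2, .ofNat 2])),
  ((true, [.ofNat 0, .ofNat 1, .ofNat 1, .ofNat 1, .ofNat 0, .ofNat 2, .negSucc 0, .negSucc 0, .negSucc 1, .ofNat 0, .negSucc 0]), (false, [.ofNat 2, .ofNat 0, .ofNat 0, .ofNat 1, .ofNat 0, .ofNat 0, .ofNat 0, .ofNat 0, .negSucc 1, .ofNat 2, .negSucc 0])),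
  ((false, [.ofNat 0, .ofNat 2, .ofNat 0, .ofNat 0, .ofNat 0, .ofNat 1, .negSucc 1, .ofNat 0, .ofNat 0, .negSucc 3, .ofNat 0]), (true, [.ofNat 0, .ofNat 1, .negSucc 1, .negSucc 1, .negSucc 0, .negSucc 0, .ofNat 0, .ofNat 2, .ofNat 2, .negSucc 3, .ofNat 0])),
  ((true, [.ofNat 2, .negSucc 0, .ofNat 1, .ofNat 1, .ofNat 0, .ofNat 0, .ofNat 0, .negSucc 0, .negSucc 0, .ofNat 0, .ofNat 0]), (false, [.ofNat 0, .negSucc 0, .ofNat 0, .ofNat 1, .ofNat 0, .ofNat 0, .ofNat 0, .ofNat 1, .negSucc 0, .ofNat 1, .ofNat 0])),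
  ((false, [.ofNat 2, .ofNat 0, .ofNat 1, .ofNat 1, .ofNat 0, .ofNat 0, .ofNat 0, .negSucc 0, .negSucc 0, .negSucc 0, .negSucc 1]), (true, [.ofNat 0, .ofNat 1, .ofNat 1, .ofNat 0, .negSucc 0, .ofNat 0, .negSucc 0, .ofNat 0, .ofNat 1, .negSucc 0, .negSucc 1])),
  ((true, [.ofNat 2, .negSucc 0, .ofNat 1, .ofNat 2, .ofNat 1, .ofNat 1, .ofNat 0, .negSucc 1, .negSucc 1, .negSucc 0, .ofNat 0]), (false, [.ofNat 0, .negSucc 0, .ofNat 0, .ofNat 2, .ofNat 1, .ofNat 2, .ofNat 0, .negSucc 0, .negSucc 1, .negSucc 0, .ofNat 0])),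
  ((false, [.ofNat 0, .ofNat 1, .ofNat 2, .ofNat 2, .ofNat 1, .ofNat 1, .negSucc 0, .negSucc 1, .negSucc 1, .ofNat 0, .negSucc 0]), (false, [.ofNat 1, .ofNat 2, .ofNat 0, .ofNat 0, .ofNat 0, .negSucc 1, .ofNat 0, .ofNat 0, .ofNat 0, .ofNat 1, .negSucc 0])),
  ((false, [.ofNat 1, .negSucc 0, .ofNat 1, .ofNat 1, .ofNat 0, .ofNat 0, .ofNat 1, .negSucc 0, .negSucc 0, .ofNat 0, .negSucc 0]), (true, [.ofNat 0, .ofNat 0, .ofNat 0, .ofNat 0, .negSucc 0, .negSucc 0, .ofNat 0, .ofNat 1, .ofNat 1, .ofNat 0, .negSucc 0])),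
  ((false, [.ofNat 1, .ofNat 0, .ofNat 2, .ofNat 0, .ofNat 0, .ofNat 0, .ofNat 0, .negSucc 1, .ofNat 0, .ofNat 1, .negSucc 0]), (false, [.ofNat 0, .ofNat 2, .ofNat 1, .negSucc 1, .negSucc 0, .negSucc 0, .negSucc 0, .ofNat 0, .ofNat 2, .ofNat 0, .negSucc 0])),
  ((false, [.ofNat 1, .negSucc 0, .ofNat 1, .ofNat 2, .ofNat 1, .ofNat 1, .ofNat 1, .negSucc 1, .negSucc 1, .negSucc 1, .negSucc 0]), (true, [.ofNat 0, .ofNat 0, .ofNat 0, .ofNat 1, .ofNat 0, .ofNat 1, .ofNat 0, .negSucc 0, .ofNat 0, .negSucc 1, .negSucc 0])),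
  ((false, [.ofNat 0, .negSucc 0, .ofNat 1, .ofNat 2, .ofNat 1, .ofNat 2, .ofNat 1, .negSucc 2, .negSucc 1, .negSucc 1, .ofNat 0]), (false, [.ofNat 0, .ofNat 0, .ofNat 0, .ofNat 1, .negSucc 0, .ofNat 0, .ofNat 0, .negSucc 1, .ofNat 2, .negSucc 1, .ofNat 1])),
  ((false, [.ofNat 0, .negSucc 0, .ofNat 2, .ofNat 2, .ofNat 1, .ofNat 1, .ofNat 1, .negSucc 1, .negSucc 1, .ofNat 0, .negSucc 0]), (true, [.ofNat 1, .ofNat 0, .ofNat 0, .ofNat 2, .ofNat 1, .ofNat 0, .ofNat 0, .ofNat 0, .negSucc 1, .ofNat 0, .negSucc 0])),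
  ((false, [.ofNat 0, .negSucc 1, .ofNat 1, .ofNat 2, .ofNat 2, .ofNat 2, .ofNat 2, .negSucc 1, .negSucc 3, .ofNat 1, .ofNat 0]), (true, [.ofNat 0, .ofNat 0, .ofNat 0, .ofNat 1, .ofNat 2, .ofNat 2, .ofNat 0, .negSucc 0, .negSucc 2, .ofNat 0, .ofNat 0])),
  ((false, [.ofNat 2, .ofNat 0, .ofNat 0, .ofNat 1, .ofNat 1, .ofNat 0, .ofNat 0, .ofNat 0, .negSucc 1, .negSucc 1, .negSucc 0]), (true, [.ofNat 0, .ofNat 1, .ofNat 1, .negSucc 0, .ofNat 0, .ofNat 0, .negSucc 0, .ofNat 1, .ofNat 0, .negSucc 1, .negSucc 0])),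
  ((true, [.ofNat 2, .negSucc 0, .ofNat 1, .ofNat 2, .ofNat 1, .ofNat 1, .negSucc 0, .negSucc 0, .negSucc 1, .ofNat 0, .ofNat 0]), (false, [.ofNat 0, .negSucc 0, .ofNat 1, .ofNat 1, .ofNat 1, .ofNat 2, .negSucc 0, .negSucc 0, .negSucc 0, .ofNat 0, .ofNat 0])),
  ((true, [.ofNat 1, .ofNat 0, .ofNat 0, .ofNat 1, .ofNat 1, .ofNat 1, .negSucc 0, .ofNat 0, .negSucc 1, .negSucc 0, .ofNat 0]), (false, [.ofNat 0, .ofNat 0, .ofNat 0, .negSucc 0, .ofNat 1, .ofNat 0, .negSucc 0, .ofNat 1, .ofNat 0, .negSucc 0, .ofNat 1])),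
  ((true, [.ofNat 0, .ofNat 0, .ofNat 0, .ofNat 2, .ofNat 1, .ofNat 2, .negSucc 0, .negSucc 0, .negSucc 1, .negSucc 0, .ofNat 0]), (false, [.ofNat 2, .ofNat 0, .ofNat 0, .ofNat 1, .ofNat 0, .ofNat 0, .negSucc 0, .negSucc 0, .ofNat 0, .negSucc 0, .ofNat 1])),
  ((false, [.ofNat 0, .ofNat 1, .ofNat 0, .ofNat 1, .ofNat 1, .ofNat 1, .negSucc 0, .ofNat 0, .negSucc 1, .negSucc 1, .ofNat 0]), (false, [.ofNat 0, .ofNat 1, .negSucc 0, .negSucc 0, .ofNat 1, .negSucc 0, .ofNat 0, .ofNat 1, .ofNat 0, .negSucc 1, .ofNat 1])),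
  ((false, [.ofNat 0, .ofNat 1, .ofNat 0, .ofNat 1, .ofNat 0, .ofNat 1, .negSucc 0, .ofNat 0, .negSucc 0, .negSucc 1, .negSucc 0]), (true, [.ofNat 1, .ofNat 1, .negSucc 0, .negSucc 0, .negSucc 0, .negSucc 0, .ofNat 0, .ofNat 1, .ofNat 1, .negSucc 1, .negSucc 0])),
  ((false, [.ofNat 1, .negSucc 0, .ofNat 1, .ofNat 2, .ofNat 1, .ofNat 1, .ofNat 0, .negSucc 0, .negSucc 1, .negSucc 0, .negSucc 0]), (true, [.ofNat 0, .ofNat 0, .ofNat 1, .ofNat 0, .ofNat 0, .ofNat 1, .negSucc 0, .ofNat 0, .ofNat 0, .negSucc 0, .negSucc 0])),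
  ((true, [.ofNat 0, .negSucc 0, .ofNat 1, .ofNat 2, .ofNat 1, .ofNat 1, .ofNat 1, .negSucc 0, .negSucc 1, .negSucc 1, .negSucc 1]), (false, [.ofNat 0, .ofNat 0, .ofNat 0, .ofNat 0, .ofNat 0, .ofNat 1, .ofNat 0, .ofNat 0, .ofNat 0, .negSucc 1, .negSucc 1])),
  ((false, [.ofNat 1, .ofNat 0, .negSucc 0, .ofNat 1, .ofNat 1, .ofNat 0, .ofNat 0, .ofNat 1, .negSucc 1, .negSucc 1, .ofNat 0]), (true, [.ofNat 0, .ofNat 1, .ofNat 0, .negSucc 1, .ofNat 0, .negSucc 0, .negSucc 0, .ofNat 2, .ofNat 1, .negSucc 1, .ofNat 0])),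
  ((false, [.ofNat 1, .ofNat 0, .ofNat 0, .ofNat 2, .ofNat 0, .ofNat 0, .ofNat 0, .ofNat 0, .negSucc 1, .ofNat 1, .negSucc 0]), (false, [.ofNat 0, .ofNat 1, .ofNat 0, .ofNat 0, .negSucc 0, .negSucc 0, .ofNat 1, .ofNat 0, .ofNat 0, .ofNat 0, .negSucc 0])),
  ((true, [.ofNat 0, .negSucc 0, .ofNat 0, .ofNat 3, .ofNat 1, .ofNat 2, .ofNat 0, .negSucc 0, .negSucc 2, .ofNat 0, .ofNat 0]), (false, [.ofNat 1, .negSucc 0, .ofNat 1, .ofNat 2, .ofNat 0, .ofNat 1, .ofNat 0, .negSucc 1, .negSucc 0, .ofNat 1, .ofNat 0])),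
  ((false, [.ofNat 0, .ofNat 0, .negSucc 0, .ofNat 2, .ofNat 1, .ofNat 1, .ofNat 0, .ofNat 0, .negSucc 1, .negSucc 2, .ofNat 0]), (true, [.ofNat 2, .ofNat 1, .negSucc 0, .ofNat 0, .ofNat 0, .negSucc 0, .ofNat 0, .ofNat 0, .ofNat 0, .negSucc 2, .ofNat 0])),
  ((false, [.ofNat 0, .ofNat 0, .ofNat 0, .ofNat 2, .ofNat 0, .ofNat 1, .ofNat 0, .ofNat 0, .negSucc 1, .ofNat 0, .negSucc 1]), (true, [.ofNat 0, .ofNat 0, .ofNat 0, .ofNat 0, .negSucc 0, .ofNat 0, .ofNat 1, .ofNat 0, .ofNat 0, .ofNat 0, .negSucc 1])),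
  ((true, [.ofNat 0, .negSucc 1, .ofNat 1, .ofNat 3, .ofNat 1, .ofNat 2, .ofNat 0, .negSucc 0, .negSucc 2, .ofNat 0, .ofNat 0]), (false, [.ofNat 0, .ofNat 0, .ofNat 2, .negSucc 0, .negSucc 0, .ofNat 0, .negSucc 1, .ofNat 1, .ofNat 1, .ofNat 1, .ofNat 0])),
  ((true, [.negSucc 1, .negSucc 0, .negSucc 0, .ofNat 2, .ofNat 1, .ofNat 1, .ofNat 1, .ofNat 1, .negSucc 1, .ofNat 0, .ofNat 0]), (false, [.negSucc 1, .ofNat 0, .ofNat 0, .ofNat 0, .ofNat 1, .ofNat 1, .ofNat 0, .ofNat 0, .ofNat 0, .ofNat 0, .ofNat 0])),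
  ((true, [.ofNat 0, .negSucc 1, .negSucc 0, .ofNat 4, .ofNat 2, .ofNat 2, .ofNat 1, .negSucc 0, .negSucc 3, .ofNat 0, .ofNat 1]), (false, [.ofNat 0, .negSucc 1, .ofNat 1, .ofNat 3, .ofNat 1, .ofNat 2, .ofNat 1, .negSucc 2, .negSucc 1, .ofNat 2, .ofNat 0])),
  ((false, [.ofNat 2, .ofNat 0, .ofNat 0, .ofNat 1, .ofNat 1, .ofNat 0, .ofNat 0, .negSucc 0, .negSucc 0, .negSucc 2, .ofNat 0]), (true, [.ofNat 0, .negSucc 0, .negSucc 0, .ofNat 2, .ofNat 1, .ofNat 1, .ofNat 1, .ofNat 0, .negSucc 1, .negSucc 2, .ofNat 0])),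
  ((true, [.ofNat 0, .ofNat 0, .ofNat 1, .ofNat 1, .ofNat 1, .ofNat 2, .negSucc 1, .negSucc 0, .negSucc 0, .ofNat 0, .ofNat 0]), (false, [.ofNat 2, .ofNat 0, .ofNat 1, .ofNat 0, .ofNat 0, .ofNat 0, .negSucc 1, .ofNat 0, .ofNat 0, .ofNat 1, .ofNat 0])),
  ((false, [.ofNat 0, .ofNat 1, .ofNat 0, .ofNat 0, .ofNat 1, .ofNat 1, .negSucc 0, .ofNat 0, .negSucc 0, .negSucc 2, .ofNat 0]), (true, [.ofNat 1, .ofNat 0, .negSucc 0, .negSucc 0, .ofNat 0, .ofNat 0, .ofNat 0, .ofNat 1, .ofNat 0, .negSucc 2, .ofNat 0])),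
  ((false, [.ofNat 1, .negSucc 0, .ofNat 0, .ofNat 1, .ofNat 1, .ofNat 0, .ofNat 1, .negSucc 0, .negSucc 0, .negSucc 0, .ofNat 0]), (true, [.ofNat 0, .negSucc 0, .negSucc 0, .ofNat 1, .ofNat 0, .ofNat 0, .ofNat 1, .ofNat 0, .ofNat 0, .negSucc 0, .ofNat 0])),
  ((false, [.ofNat 0, .ofNat 0, .ofNat 1, .ofNat 1, .ofNat 1, .ofNat 1, .ofNat 0, .negSucc 1, .negSucc 0, .negSucc 0, .ofNat 0]), (false, [.ofNat 0, .ofNat 1, .ofNat 0, .ofNat 0, .negSucc 0, .negSucc 0, .ofNat 0, .negSucc 0, .ofNat 2, .negSucc 0, .ofNat 0])),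
  ((false, [.ofNat 0, .negSucc 0, .ofNat 1, .ofNat 1, .ofNat 1, .ofNat 0, .ofNat 1, .negSucc 0, .negSucc 0, .ofNat 0, .ofNat 0]), (true, [.ofNat 1, .ofNat 0, .ofNat 0, .ofNat 1, .ofNat 0, .negSucc 0, .ofNat 0, .ofNat 0, .ofNat 0, .ofNat 0, .ofNat 0])),
  ((false, [.ofNat 0, .negSucc 0, .ofNat 2, .ofNat 1, .ofNat 1, .ofNat 1, .ofNat 0, .negSucc 1, .negSucc 0, .ofNat 1, .ofNat 0]), (true, [.ofNat 0, .ofNat 1, .ofNat 2, .ofNat 0, .ofNat 0, .ofNat 1, .negSucc 1, .negSucc 0, .ofNat 0, .ofNat 0, .ofNat 0])),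
  ((false, [.ofNat 0, .negSucc 0, .ofNat 1, .ofNat 1, .ofNat 1, .ofNat 1, .ofNat 1, .negSucc 1, .negSucc 0, .negSucc 1, .ofNat 0]), (true, [.ofNat 0, .ofNat 0, .ofNat 0, .ofNat 0, .negSucc 0, .ofNat 0, .ofNat 0, .negSucc 0, .ofNat 2, .negSucc 1, .ofNat 0])),
  ((false, [.ofNat 0, .ofNat 0, .ofNat 0, .ofNat 1, .ofNat 1, .ofNat 1, .negSucc 0, .ofNat 0, .negSucc 0, .negSucc 1, .ofNat 0]), (true, [.ofNat 2, .ofNat 0, .ofNat 0, .ofNat 0, .ofNat 0, .ofNat 0, .negSucc 0, .ofNat 0, .ofNat 0, .negSucc 1, .ofNat 0])),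
  ((false, [.ofNat 1, .ofNat 0, .ofNat 0, .ofNat 0, .ofNat 2, .ofNat 0, .ofNat 0, .ofNat 0, .negSucc 1, .negSucc 0, .ofNat 1]), (true, [.ofNat 0, .ofNat 1, .ofNat 1, .ofNat 0, .ofNat 1, .ofNat 1, .negSucc 0, .ofNat 0, .negSucc 1, .negSucc 0, .ofNat 0])),
  ((true, [.ofNat 0, .negSucc 0, .ofNat 1, .ofNat 1, .ofNat 2, .ofNat 2, .negSucc 0, .negSucc 0, .negSucc 1, .ofNat 0, .ofNat 1]), (false, [.ofNat 1, .negSucc 0, .ofNat 1, .ofNat 1, .ofNat 1, .ofNat 1, .negSucc 0, .ofNat 0, .negSucc 1, .ofNat 2, .ofNat 0])),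
  ((false, [.ofNat 0, .ofNat 0, .ofNat 0, .ofNat 0, .ofNat 2, .ofNat 1, .ofNat 0, .ofNat 0, .negSucc 1, .negSucc 1, .ofNat 0]), (true, [.ofNat 0, .negSucc 0, .negSucc 0, .ofNat 0, .ofNat 1, .ofNat 1, .ofNat 1, .ofNat 1, .negSucc 1, .negSucc 1, .ofNat 0])),
  ((false, [.ofNat 0, .ofNat 0, .ofNat 1, .ofNat 0, .ofNat 1, .ofNat 0, .ofNat 0, .negSucc 0, .ofNat 0, .negSucc 0, .ofNat 0]), (true, [.ofNat 1, .ofNat 1, .ofNat 1, .ofNat 0, .negSucc 0, .negSucc 0, .negSucc 0, .negSucc 0, .ofNat 2, .negSucc 0, .ofNat 0])),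
  ((false, [.ofNat 0, .negSucc 0, .ofNat 1, .ofNat 1, .ofNat 2, .ofNat 1, .ofNat 0, .negSucc 0, .negSucc 1, .ofNat 0, .ofNat 1]), (true, [.ofNat 0, .ofNat 0, .ofNat 1, .ofNat 1, .ofNat 1, .ofNat 1, .negSucc 0, .ofNat 0, .negSucc 1, .ofNat 1, .ofNat 0])),
  ((false, [.ofNat 0, .negSucc 0, .ofNat 0, .ofNat 0, .ofNat 1, .negSucc 0, .ofNat 1, .ofNat 0, .ofNat 0, .ofNat 0, .ofNat 1]), (true, [.ofNat 1, .ofNat 0, .negSucc 0, .ofNat 0, .ofNat 0, .negSucc 1, .ofNat 1, .ofNat 1, .ofNat 0, .ofNat 1, .ofNat 0])),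
  ((false, [.ofNat 0, .ofNat 0, .ofNat 0, .ofNat 1, .ofNat 2, .ofNat 0, .ofNat 0, .ofNat 0, .negSucc 1, .negSucc 1, .ofNat 1]), (false, [.ofNat 0, .ofNat 2, .negSucc 0, .negSucc 0, .ofNat 0, .negSucc 1, .ofNat 1, .ofNat 1, .ofNat 0, .negSucc 1, .ofNat 0])),
  ((false, [.ofNat 0, .negSucc 0, .ofNat 1, .ofNat 1, .ofNat 2, .ofNat 1, .negSucc 0, .negSucc 0, .negSucc 0, .ofNat 0, .ofNat 2]), (true, [.ofNat 0, .negSucc 0, .ofNat 1, .ofNat 2, .ofNat 1, .ofNat 1, .negSucc 0, .ofNat 0, .negSucc 1, .ofNat 3, .ofNat 0])),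
  ((true, [.ofNat 2, .negSucc 0, .ofNat 1, .ofNat 1, .ofNat 0, .ofNat 0, .negSucc 0, .negSucc 0, .ofNat 0, .ofNat 0, .ofNat 1]), (false, [.ofNat 0, .negSucc 0, .ofNat 1, .ofNat 0, .ofNat 0, .ofNat 0, .negSucc 0, .ofNat 1, .ofNat 0, .ofNat 2, .ofNat 0]))]

/-- classes -/
noncomputable def cls4 : List (Mo × Mo) := [
  ((false, [.ofNat 2, .ofNat 1, .ofNat 1, .negSucc 0, .negSucc 0, .negSucc 0, .negSucc 0, .negSucc 0, .ofNat 2, .negSucc 1, .ofNat 0]), (true, [.ofNat 0, .ofNat 1, .ofNat 0, .negSucc 1, .ofNat 0, .negSucc 0, .ofNat 0, .ofNat 0, .ofNat 2, .negSucc 1, .ofNat 0])),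
  ((false, [.ofNat 2, .ofNat 0, .ofNat 1, .ofNat 1, .ofNat 0, .ofNat 0, .negSucc 0, .negSucc 0, .ofNat 0, .negSucc 1, .ofNat 0]), (true, [.ofNat 0, .negSucc 0, .ofNat 0, .ofNat 1, .ofNat 1, .ofNat 1, .ofNat 0, .ofNat 0, .negSucc 0, .negSucc 1, .ofNat 0])),
  ((true, [.ofNat 1, .ofNat 0, .ofNat 1, .ofNat 1, .ofNat 0, .ofNat 1, .negSucc 1, .negSucc 0, .ofNat 0, .ofNat 0, .ofNat 0]), (false, [.ofNat 0, .ofNat 0, .ofNat 1, .negSucc 0, .ofNat 0, .ofNat 0, .negSucc 1, .ofNat 1, .ofNat 1, .ofNat 1, .ofNat 0])),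
  ((false, [.ofNat 0, .ofNat 1, .ofNat 1, .ofNat 1, .negSucc 0, .ofNat 1, .negSucc 0, .negSucc 0, .ofNat 0, .ofNat 0, .negSucc 1]), (true, [.ofNat 2, .ofNat 1, .ofNat 0, .ofNat 0, .negSucc 0, .negSucc 0, .ofNat 0, .ofNat 0, .ofNat 0, .ofNat 0, .negSucc 1])),
  ((false, [.ofNat 1, .negSucc 0, .ofNat 1, .ofNat 1, .ofNat 0, .ofNat 0, .ofNat 0, .negSucc 0, .ofNat 0, .ofNat 0, .ofNat 0]), (true, [.ofNat 0, .negSucc 0, .ofNat 0, .ofNat 0, .ofNat 0, .ofNat 0, .ofNat 0, .ofNat 1, .ofNat 0, .ofNat 0, .ofNat 0])),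
  ((true, [.ofNat 0, .negSucc 0, .ofNat 1, .ofNat 1, .ofNat 0, .ofNat 0, .ofNat 1, .negSucc 0, .ofNat 0, .ofNat 0, .negSucc 0]), (false, [.ofNat 1, .ofNat 0, .ofNat 0, .ofNat 0, .ofNat 0, .negSucc 0, .ofNat 0, .ofNat 1, .ofNat 0, .ofNat 0, .negSucc 0])),
  ((false, [.ofNat 0, .ofNat 0, .ofNat 2, .ofNat 1, .ofNat 0, .ofNat 0, .ofNat 0, .negSucc 1, .ofNat 0, .ofNat 2, .negSucc 0]), (true, [.ofNat 0, .ofNat 2, .ofNat 1, .ofNat 0, .ofNat 0, .ofNat 0, .negSucc 0, .negSucc 0, .ofNat 0, .ofNat 0, .negSucc 0])),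
  ((false, [.ofNat 1, .ofNat 0, .ofNat 0, .ofNat 1, .ofNat 0, .ofNat 0, .negSucc 0, .ofNat 0, .ofNat 0, .negSucc 0, .ofNat 0]), (true, [.ofNat 0, .ofNat 0, .ofNat 0, .negSucc 0, .ofNat 0, .ofNat 0, .negSucc 0, .ofNat 1, .ofNat 1, .negSucc 0, .ofNat 0])),
  ((false, [.ofNat 0, .ofNat 0, .ofNat 0, .ofNat 2, .ofNat 0, .ofNat 1, .ofNat 0, .negSucc 0, .negSucc 0, .negSucc 0, .negSucc 0]), (true, [.ofNat 1, .ofNat 0, .ofNat 0, .ofNat 1, .ofNat 0, .ofNat 0, .ofNat 1, .negSucc 0, .negSucc 0, .negSucc 0, .negSucc 0])),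
  ((false, [.ofNat 0, .negSucc 0, .ofNat 1, .ofNat 2, .ofNat 0, .ofNat 1, .ofNat 0, .negSucc 0, .negSucc 0, .ofNat 0, .negSucc 0]), (true, [.ofNat 0, .ofNat 0, .ofNat 1, .negSucc 0, .negSucc 0, .ofNat 0, .negSucc 0, .ofNat 1, .ofNat 1, .ofNat 0, .negSucc 0])),
  ((true, [.negSucc 0, .ofNat 0, .negSucc 0, .ofNat 1, .ofNat 0, .ofNat 0, .ofNat 0, .ofNat 1, .ofNat 0, .negSucc 0, .ofNat 0]), (false, [.negSucc 0, .ofNat 1, .ofNat 0, .negSucc 0, .ofNat 0, .ofNat 0, .negSucc 0, .ofNat 1, .ofNat 1, .negSucc 0, .ofNat 0])),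
  ((false, [.ofNat 0, .ofNat 0, .ofNat 0, .ofNat 2, .ofNat 0, .ofNat 0, .ofNat 0, .ofNat 0, .negSucc 0, .ofNat 0, .negSucc 0]), (true, [.ofNat 0, .ofNat 0, .ofNat 1, .ofNat 1, .ofNat 0, .ofNat 0, .ofNat 1, .negSucc 0, .negSucc 0, .ofNat 0, .negSucc 0])),
  ((false, [.ofNat 0, .negSucc 0, .negSucc 0, .ofNat 3, .ofNat 1, .ofNat 1, .ofNat 1, .negSucc 0, .negSucc 1, .negSucc 1, .ofNat 0]), (true, [.ofNat 1, .ofNat 0, .negSucc 0, .ofNat 1, .ofNat 1, .ofNat 0, .ofNat 1, .negSucc 0, .negSucc 0, .negSucc 1, .ofNat 0])),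
  ((true, [.ofNat 1, .ofNat 0, .ofNat 0, .ofNat 0, .ofNat 0, .negSucc 0, .ofNat 0, .ofNat 0, .ofNat 1, .negSucc 1, .ofNat 0]), (false, [.ofNat 0, .negSucc 0, .negSucc 0, .ofNat 0, .ofNat 0, .ofNat 0, .ofNat 1, .ofNat 1, .ofNat 0, .negSucc 1, .ofNat 0])),
  ((true, [.ofNat 0, .negSucc 0, .ofNat 0, .ofNat 0, .ofNat 0, .negSucc 0, .ofNat 1, .ofNat 0, .ofNat 1, .ofNat 0, .ofNat 0]), (false, [.ofNat 1, .negSucc 0, .negSucc 0, .ofNat 0, .ofNat 0, .negSucc 0, .ofNat 1, .ofNat 1, .ofNat 0, .ofNat 0, .ofNat 0])),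
  ((true, [.ofNat 1, .ofNat 0, .ofNat 0, .ofNat 0, .negSucc 0, .negSucc 1, .ofNat 0, .ofNat 0, .ofNat 2, .ofNat 0, .ofNat 1]), (false, [.ofNat 0, .negSucc 0, .ofNat 1, .ofNat 0, .ofNat 0, .negSucc 0, .ofNat 1, .ofNat 0, .ofNat 0, .ofNat 2, .ofNat 0])),
  ((false, [.ofNat 1, .ofNat 0, .ofNat 0, .ofNat 2, .ofNat 0, .ofNat 0, .ofNat 0, .negSucc 1, .ofNat 0, .negSucc 0, .ofNat 1]), (true, [.ofNat 0, .ofNat 0, .ofNat 0, .ofNat 2, .ofNat 1, .ofNat 1, .ofNat 1, .negSucc 1, .negSucc 1, .negSucc 0, .ofNat 0])),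
  ((true, [.ofNat 1, .ofNat 1, .ofNat 0, .ofNat 0, .negSucc 0, .negSucc 0, .negSucc 0, .ofNat 0, .ofNat 2, .negSucc 2, .ofNat 0]), (false, [.ofNat 0, .ofNat 0, .negSucc 0, .negSucc 0, .ofNat 0, .ofNat 0, .ofNat 0, .ofNat 1, .ofNat 1, .negSucc 2, .ofNat 0])),
  ((false, [.ofNat 0, .ofNat 0, .ofNat 0, .ofNat 2, .ofNat 0, .ofNat 1, .ofNat 0, .negSucc 1, .ofNat 0, .negSucc 1, .ofNat 0]), (true, [.ofNat 0, .negSucc 0, .ofNat 0, .ofNat 2, .ofNat 1, .ofNat 1, .ofNat 2, .negSucc 1, .negSucc 1, .negSucc 1, .ofNat 0])),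
  ((true, [.ofNat 0, .ofNat 0, .ofNat 1, .ofNat 1, .negSucc 0, .ofNat 0, .ofNat 0, .negSucc 0, .ofNat 1, .ofNat 0, .negSucc 1]), (false, [.ofNat 1, .ofNat 1, .ofNat 1, .negSucc 0, .negSucc 0, .negSucc 0, .negSucc 0, .ofNat 1, .ofNat 1, .ofNat 0, .negSucc 1])),
  ((false, [.ofNat 0, .ofNat 0, .ofNat 1, .ofNat 2, .ofNat 0, .ofNat 0, .ofNat 0, .negSucc 1, .ofNat 0, .ofNat 1, .ofNat 0]), (true, [.ofNat 0, .ofNat 1, .ofNat 0, .ofNat 1, .ofNat 1, .ofNat 0, .ofNat 0, .negSucc 0, .negSucc 0, .ofNat 0, .ofNat 0])),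
  ((true, [.negSucc 0, .ofNat 0, .ofNat 0, .ofNat 1, .negSucc 0, .ofNat 0, .ofNat 0, .ofNat 0, .ofNat 1, .ofNat 0, .negSucc 0]), (false, [.negSucc 0, .ofNat 1, .ofNat 1, .negSucc 0, .negSucc 0, .ofNat 0, .negSucc 0, .ofNat 1, .ofNat 1, .ofNat 0, .negSucc 0])),
  ((false, [.ofNat 0, .ofNat 0, .ofNat 0, .ofNat 2, .ofNat 0, .ofNat 0, .ofNat 0, .negSucc 0, .ofNat 0, .negSucc 0, .ofNat 0]), (true, [.ofNat 0, .ofNat 0, .ofNat 0, .ofNat 1, .ofNat 1, .ofNat 0, .ofNat 1, .negSucc 0, .negSucc 0, .negSucc 0, .ofNat 0])),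
  ((true, [.ofNat 0, .ofNat 1, .negSucc 0, .ofNat 0, .negSucc 0, .negSucc 0, .negSucc 0, .ofNat 1, .ofNat 2, .negSucc 1, .ofNat 0]), (false, [.ofNat 0, .ofNat 1, .negSucc 0, .negSucc 0, .ofNat 0, .ofNat 0, .negSucc 0, .ofNat 1, .ofNat 1, .negSucc 1, .ofNat 0])),
  ((true, [.ofNat 0, .ofNat 0, .ofNat 0, .ofNat 1, .ofNat 0, .ofNat 0, .ofNat 0, .negSucc 0, .ofNat 1, .negSucc 3, .ofNat 0]), (false, [.ofNat 0, .negSucc 0, .negSucc 0, .ofNat 0, .ofNat 0, .ofNat 1, .ofNat 1, .ofNat 0, .ofNat 0, .negSucc 3, .ofNat 0])),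
  ((false, [.ofNat 0, .ofNat 1, .ofNat 1, .ofNat 1, .negSucc 0, .negSucc 0, .negSucc 0, .negSucc 0, .ofNat 2, .ofNat 0, .ofNat 0]), (true, [.ofNat 0, .ofNat 1, .ofNat 0, .ofNat 0, .ofNat 1, .negSucc 0, .ofNat 0, .ofNat 0, .ofNat 0, .ofNat 0, .ofNat 0])),
  ((false, [.ofNat 1, .ofNat 1, .ofNat 1, .ofNat 0, .negSucc 0, .ofNat 0, .negSucc 0, .ofNat 0, .ofNat 0, .ofNat 0, .negSucc 1]), (true, [.ofNat 0, .ofNat 1, .ofNat 0, .ofNat 0, .negSucc 1, .negSucc 0, .ofNat 0, .ofNat 0, .ofNat 2, .ofNat 0, .negSucc 1])),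
  ((false, [.ofNat 0, .ofNat 2, .ofNat 1, .ofNat 0, .ofNat 0, .ofNat 0, .negSucc 1, .ofNat 0, .ofNat 0, .negSucc 0, .ofNat 0]), (false, [.ofNat 0, .ofNat 2, .negSucc 0, .negSucc 0, .ofNat 0, .negSucc 1, .ofNat 0, .ofNat 1, .ofNat 1, .negSucc 0, .ofNat 0])),
  ((false, [.ofNat 0, .ofNat 1, .ofNat 1, .ofNat 0, .ofNat 0, .ofNat 1, .negSucc 0, .ofNat 0, .negSucc 0, .negSucc 0, .negSucc 0]), (true, [.ofNat 2, .ofNat 0, .ofNat 0, .ofNat 0, .ofNat 0, .ofNat 0, .ofNat 0, .ofNat 0, .negSucc 0, .negSucc 0, .negSucc 0])),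
  ((false, [.ofNat 0, .ofNat 1, .ofNat 2, .ofNat 0, .ofNat 0, .ofNat 0, .negSucc 0, .negSucc 0, .ofNat 0, .ofNat 1, .negSucc 0]), (false, [.ofNat 0, .ofNat 2, .ofNat 0, .negSucc 0, .negSucc 0, .negSucc 1, .ofNat 0, .ofNat 0, .ofNat 2, .ofNat 0, .negSucc 0])),
  ((false, [.ofNat 0, .ofNat 0, .ofNat 1, .ofNat 1, .ofNat 0, .ofNat 1, .negSucc 0, .ofNat 0, .negSucc 0, .ofNat 0, .negSucc 0]), (true, [.ofNat 1, .negSucc 0, .ofNat 1, .ofNat 1, .ofNat 0, .ofNat 1, .ofNat 0, .negSucc 0, .negSucc 0, .ofNat 0, .negSucc 0])),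
  ((true, [.ofNat 0, .ofNat 0, .ofNat 0, .ofNat 1, .ofNat 0, .ofNat 0, .ofNat 0, .ofNat 1, .negSucc 0, .ofNat 0, .negSucc 1]), (false, [.ofNat 0, .negSucc 0, .ofNat 1, .ofNat 1, .ofNat 0, .ofNat 1, .ofNat 1, .negSucc 0, .negSucc 0, .ofNat 0, .negSucc 1])),
  ((false, [.ofNat 0, .ofNat 0, .ofNat 1, .ofNat 0, .ofNat 1, .ofNat 1, .negSucc 0, .ofNat 0, .negSucc 0, .negSucc 0, .ofNat 0]), (true, [.ofNat 1, .negSucc 0, .ofNat 0, .ofNat 1, .ofNat 1, .ofNat 1, .ofNat 0, .ofNat 0, .negSucc 1, .negSucc 0, .ofNat 0])),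
  ((false, [.ofNat 0, .ofNat 0, .ofNat 1, .negSucc 0, .ofNat 0, .negSucc 0, .ofNat 0, .ofNat 0, .ofNat 1, .ofNat 1, .ofNat 0]), (true, [.ofNat 1, .ofNat 1, .ofNat 0, .negSucc 0, .negSucc 0, .negSucc 1, .ofNat 0, .ofNat 0, .ofNat 2, .ofNat 0, .ofNat 0])),
  ((false, [.ofNat 0, .negSucc 0, .ofNat 1, .ofNat 1, .ofNat 1, .ofNat 1, .negSucc 0, .ofNat 0, .negSucc 0, .ofNat 0, .ofNat 0]), (true, [.ofNat 1, .negSucc 0, .ofNat 1, .ofNat 1, .ofNat 0, .ofNat 1, .negSucc 0, .negSucc 0, .ofNat 0, .ofNat 0, .ofNat 0])),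
  ((false, [.ofNat 0, .ofNat 0, .ofNat 0, .negSucc 0, .ofNat 1, .negSucc 0, .ofNat 0, .ofNat 1, .ofNat 0, .negSucc 0, .ofNat 1]), (true, [.ofNat 1, .ofNat 1, .negSucc 0, .negSucc 0, .ofNat 0, .negSucc 1, .ofNat 1, .ofNat 1, .ofNat 0, .negSucc 0, .ofNat 0])),
  ((true, [.negSucc 0, .ofNat 0, .ofNat 0, .negSucc 0, .ofNat 1, .ofNat 0, .ofNat 0, .ofNat 1, .ofNat 0, .negSucc 0, .ofNat 0]), (false, [.negSucc 0, .negSucc 0, .negSucc 0, .ofNat 1, .ofNat 1, .ofNat 1, .ofNat 1, .ofNat 1, .negSucc 1, .negSucc 0, .ofNat 0])),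
  ((false, [.ofNat 1, .ofNat 0, .ofNat 0, .negSucc 0, .negSucc 0, .negSucc 1, .ofNat 0, .ofNat 1, .ofNat 2, .ofNat 0, .ofNat 0]), (true, [.ofNat 0, .negSucc 0, .ofNat 0, .ofNat 0, .ofNat 0, .negSucc 0, .ofNat 2, .ofNat 0, .ofNat 0, .ofNat 0, .ofNat 0])),
  ((false, [.ofNat 0, .ofNat 2, .ofNat 0, .negSucc 1, .negSucc 0, .negSucc 0, .negSucc 1, .ofNat 2, .ofNat 2, .negSucc 1, .ofNat 0]), (true, [.ofNat 0, .ofNat 1, .negSucc 1, .ofNat 0, .ofNat 0, .negSucc 0, .ofNat 0, .ofNat 2, .ofNat 0, .negSucc 1, .ofNat 0])),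
  ((false, [.ofNat 0, .ofNat 0, .ofNat 2, .ofNat 0, .ofNat 0, .ofNat 1, .negSucc 1, .ofNat 0, .ofNat 0, .ofNat 0, .ofNat 0]), (true, [.ofNat 0, .negSucc 1, .ofNat 1, .ofNat 2, .ofNat 1, .ofNat 2, .ofNat 0, .negSucc 0, .negSucc 1, .ofNat 0, .ofNat 0])),
  ((false, [.ofNat 0, .ofNat 1, .ofNat 2, .negSucc 1, .negSucc 0, .negSucc 0, .negSucc 0, .ofNat 0, .ofNat 2, .ofNat 2, .negSucc 0]), (true, [.ofNat 1, .ofNat 2, .ofNat 0, .negSucc 1, .negSucc 0, .negSucc 1, .ofNat 0, .ofNat 0, .ofNat 2, .ofNat 0, .negSucc 0])),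
  ((true, [.ofNat 0, .ofNat 0, .ofNat 1, .ofNat 0, .ofNat 0, .ofNat 0, .negSucc 0, .ofNat 1, .ofNat 0, .ofNat 0, .negSucc 0]), (false, [.ofNat 0, .negSucc 0, .ofNat 1, .ofNat 1, .ofNat 0, .ofNat 1, .ofNat 0, .negSucc 0, .ofNat 0, .ofNat 0, .negSucc 0])),
  ((true, [.negSucc 0, .ofNat 0, .ofNat 1, .negSucc 0, .ofNat 0, .ofNat 0, .negSucc 0, .ofNat 1, .ofNat 1, .ofNat 0, .ofNat 0]), (false, [.negSucc 0, .negSucc 0, .ofNat 0, .ofNat 1, .ofNat 0, .ofNat 1, .ofNat 0, .ofNat 0, .ofNat 0, .ofNat 0, .ofNat 0])),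
  ((false, [.ofNat 0, .ofNat 1, .ofNat 1, .negSucc 0, .negSucc 0, .negSucc 0, .negSucc 0, .ofNat 1, .ofNat 2, .negSucc 1, .negSucc 1]), (true, [.ofNat 2, .ofNat 1, .ofNat 0, .ofNat 0, .ofNat 0, .negSucc 0, .ofNat 0, .ofNat 0, .ofNat 0, .negSucc 1, .negSucc 1])),
  ((false, [.negSucc 0, .ofNat 1, .ofNat 1, .negSucc 1, .negSucc 0, .negSucc 0, .negSucc 0, .ofNat 2, .ofNat 2, .ofNat 0, .negSucc 0]), (true, [.negSucc 0, .ofNat 0, .ofNat 0, .ofNat 0, .negSucc 0, .ofNat 0, .ofNat 0, .ofNat 0, .ofNat 2, .ofNat 0, .negSucc 0])),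
  ((true, [.ofNat 1, .ofNat 0, .ofNat 0, .ofNat 0, .ofNat 0, .negSucc 0, .ofNat 1, .ofNat 0, .ofNat 0, .negSucc 0, .negSucc 0]), (false, [.ofNat 0, .ofNat 0, .ofNat 0, .negSucc 0, .negSucc 0, .negSucc 0, .ofNat 0, .ofNat 1, .ofNat 2, .negSucc 0, .negSucc 0])),
  ((true, [.ofNat 0, .ofNat 0, .ofNat 1, .ofNat 0, .ofNat 0, .ofNat 0, .ofNat 1, .negSucc 0, .ofNat 0, .negSucc 1, .negSucc 0]), (false, [.ofNat 0, .ofNat 0, .ofNat 0, .negSucc 0, .negSucc 0, .ofNat 0, .ofNat 0, .ofNat 0, .ofNat 2, .negSucc 1, .negSucc 0])),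
  ((true, [.ofNat 1, .ofNat 1, .negSucc 0, .ofNat 0, .ofNat 0, .negSucc 0, .ofNat 0, .ofNat 1, .ofNat 0, .negSucc 1, .negSucc 0]), (false, [.ofNat 0, .ofNat 1, .ofNat 0, .negSucc 1, .negSucc 0, .negSucc 0, .negSucc 0, .ofNat 2, .ofNat 2, .negSucc 1, .negSucc 0])),
  ((true, [.ofNat 0, .ofNat 0, .ofNat 0, .ofNat 1, .ofNat 0, .ofNat 0, .ofNat 1, .ofNat 0, .negSucc 0, .negSucc 0, .negSucc 1]), (false, [.ofNat 0, .ofNat 0, .ofNat 0, .negSucc 0, .negSucc 0, .ofNat 0, .ofNat 0, .ofNat 1, .ofNat 1, .negSucc 0, .negSucc 1])),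
  ((true, [.ofNat 1, .ofNat 0, .negSucc 0, .negSucc 0, .ofNat 0, .negSucc 1, .ofNat 1, .ofNat 1, .ofNat 1, .ofNat 0, .ofNat 0]), (false, [.ofNat 0, .negSucc 0, .negSucc 0, .negSucc 0, .negSucc 0, .negSucc 0, .ofNat 1, .ofNat 1, .ofNat 2, .ofNat 0, .ofNat 0]))]

/-- classes -/
noncomputable def cls5 : List (Mo × Mo) := [
  ((true, [.ofNat 0, .ofNat 0, .ofNat 0, .negSucc 0, .ofNat 0, .negSucc 0, .ofNat 1, .ofNat 0, .ofNat 1, .negSucc 0, .ofNat 0]), (false, [.ofNat 1, .ofNat 0, .ofNat 0, .negSucc 0, .negSucc 0, .negSucc 0, .ofNat 0, .ofNat 0, .ofNat 2, .negSucc 0, .ofNat 0])),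
  ((true, [.ofNat 1, .ofNat 1, .negSucc 0, .negSucc 0, .negSucc 0, .negSucc 1, .ofNat 0, .ofNat 1, .ofNat 2, .negSucc 0, .ofNat 0]), (false, [.ofNat 0, .ofNat 0, .negSucc 0, .negSucc 1, .negSucc 0, .negSucc 0, .ofNat 0, .ofNat 2, .ofNat 2, .negSucc 0, .ofNat 0])),
  ((true, [.ofNat 0, .ofNat 0, .ofNat 0, .ofNat 0, .negSucc 0, .negSucc 0, .ofNat 1, .ofNat 0, .ofNat 1, .ofNat 0, .negSucc 0]), (false, [.ofNat 1, .ofNat 0, .ofNat 0, .negSucc 0, .negSucc 0, .negSucc 0, .ofNat 0, .ofNat 1, .ofNat 1, .ofNat 0, .negSucc 0])),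
  ((true, [.ofNat 0, .ofNat 1, .negSucc 0, .ofNat 0, .negSucc 0, .negSucc 0, .ofNat 0, .ofNat 1, .ofNat 1, .negSucc 0, .negSucc 0]), (false, [.ofNat 0, .ofNat 1, .ofNat 0, .negSucc 0, .negSucc 0, .ofNat 0, .negSucc 0, .ofNat 1, .ofNat 1, .negSucc 0, .negSucc 0])),
  ((true, [.ofNat 0, .ofNat 0, .negSucc 0, .ofNat 0, .ofNat 0, .negSucc 0, .ofNat 1, .ofNat 0, .ofNat 1, .negSucc 1, .ofNat 0]), (false, [.ofNat 1, .negSucc 0, .negSucc 0, .ofNat 0, .ofNat 0, .ofNat 0, .ofNat 1, .ofNat 0, .ofNat 0, .negSucc 1, .ofNat 0])),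
  ((true, [.ofNat 0, .ofNat 1, .negSucc 0, .ofNat 0, .negSucc 0, .negSucc 0, .ofNat 0, .ofNat 0, .ofNat 2, .negSucc 2, .ofNat 0]), (false, [.ofNat 0, .ofNat 0, .negSucc 0, .ofNat 0, .ofNat 0, .ofNat 1, .ofNat 0, .ofNat 0, .ofNat 0, .negSucc 2, .ofNat 0])),
  ((true, [.ofNat 0, .ofNat 1, .ofNat 0, .negSucc 0, .negSucc 0, .negSucc 0, .ofNat 1, .ofNat 0, .ofNat 1, .negSucc 0, .negSucc 0]), (false, [.ofNat 1, .ofNat 0, .ofNat 0, .negSucc 0, .negSucc 0, .ofNat 0, .ofNat 0, .ofNat 0, .ofNat 1, .negSucc 0, .negSucc 0])),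
  ((true, [.ofNat 0, .ofNat 1, .negSucc 0, .ofNat 0, .negSucc 0, .negSucc 0, .ofNat 1, .ofNat 1, .ofNat 0, .ofNat 0, .negSucc 1]), (false, [.ofNat 0, .ofNat 0, .ofNat 0, .ofNat 0, .negSucc 0, .ofNat 1, .ofNat 0, .ofNat 0, .ofNat 0, .ofNat 0, .negSucc 1])),
  ((true, [.ofNat 0, .ofNat 1, .negSucc 0, .negSucc 0, .ofNat 0, .negSucc 0, .ofNat 1, .ofNat 0, .ofNat 1, .negSucc 2, .ofNat 0]), (false, [.ofNat 2, .ofNat 0, .ofNat 0, .ofNat 0, .ofNat 0, .ofNat 0, .ofNat 0, .negSucc 0, .ofNat 0, .negSucc 2, .ofNat 0])),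
  ((true, [.ofNat 0, .ofNat 1, .negSucc 0, .ofNat 0, .negSucc 0, .negSucc 0, .ofNat 1, .ofNat 0, .ofNat 1, .negSucc 1, .negSucc 0]), (false, [.ofNat 1, .ofNat 0, .ofNat 0, .ofNat 1, .ofNat 0, .ofNat 1, .ofNat 0, .negSucc 0, .negSucc 0, .negSucc 1, .negSucc 0])),
  ((false, [.ofNat 4, .ofNat 1, .ofNat 0, .ofNat 0, .ofNat 0, .negSucc 1, .negSucc 0, .ofNat 0, .ofNat 0, .negSucc 1, .ofNat 0]), (true, [.ofNat 0, .ofNat 1, .ofNat 0, .negSucc 1, .ofNat 0, .negSucc 1, .negSucc 0, .ofNat 2, .ofNat 2, .negSucc 1, .ofNat 0])),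
  ((false, [.ofNat 4, .ofNat 0, .ofNat 0, .ofNat 1, .ofNat 0, .negSucc 0, .ofNat 0, .negSucc 0, .negSucc 0, .negSucc 2, .ofNat 0]), (true, [.ofNat 0, .ofNat 0, .negSucc 1, .ofNat 1, .ofNat 0, .negSucc 0, .ofNat 2, .ofNat 1, .negSucc 0, .negSucc 2, .ofNat 0])),
  ((false, [.ofNat 2, .ofNat 2, .ofNat 1, .ofNat 0, .ofNat 0, .ofNat 0, .negSucc 1, .negSucc 0, .ofNat 0, .negSucc 3, .ofNat 0]), (true, [.ofNat 0, .ofNat 2, .negSucc 0, .negSucc 1, .ofNat 0, .negSucc 1, .ofNat 0, .ofNat 1, .ofNat 2, .negSucc 3, .ofNat 0])),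
  ((false, [.ofNat 0, .ofNat 2, .ofNat 2, .ofNat 2, .ofNat 0, .ofNat 2, .negSucc 1, .negSucc 1, .negSucc 1, .ofNat 0, .negSucc 1]), (false, [.ofNat 1, .ofNat 1, .ofNat 1, .ofNat 1, .negSucc 0, .negSucc 0, .ofNat 0, .negSucc 0, .ofNat 0, .ofNat 3, .negSucc 1])),
  ((false, [.negSucc 0, .ofNat 2, .ofNat 1, .ofNat 0, .ofNat 0, .ofNat 2, .negSucc 1, .negSucc 0, .ofNat 0, .negSucc 2, .negSucc 0]), (true, [.negSucc 0, .ofNat 2, .negSucc 0, .negSucc 1, .negSucc 1, .negSucc 1, .ofNat 0, .ofNat 1, .ofNat 4, .negSucc 2, .negSucc 0])),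
  ((false, [.ofNat 1, .ofNat 1, .ofNat 2, .ofNat 1, .ofNat 0, .ofNat 1, .negSucc 0, .negSucc 1, .negSucc 0, .negSucc 0, .negSucc 1]), (true, [.ofNat 0, .ofNat 2, .ofNat 0, .negSucc 0, .negSucc 1, .negSucc 1, .ofNat 0, .ofNat 0, .ofNat 3, .negSucc 0, .negSucc 1])),
  ((true, [.ofNat 2, .negSucc 0, .ofNat 2, .ofNat 1, .ofNat 1, .ofNat 1, .ofNat 0, .negSucc 1, .negSucc 1, .ofNat 0, .negSucc 0]), (false, [.ofNat 0, .ofNat 1, .ofNat 2, .negSucc 0, .ofNat 0, .ofNat 1, .negSucc 1, .ofNat 0, .ofNat 0, .ofNat 0, .negSucc 0])),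
  ((true, [.ofNat 2, .negSucc 0, .ofNat 2, .ofNat 2, .ofNat 1, .ofNat 1, .ofNat 0, .negSucc 1, .negSucc 2, .ofNat 0, .negSucc 0]), (false, [.ofNat 0, .ofNat 1, .ofNat 2, .negSucc 1, .negSucc 0, .negSucc 0, .negSucc 1, .ofNat 2, .ofNat 1, .ofNat 2, .negSucc 0])),
  ((false, [.ofNat 2, .ofNat 0, .ofNat 2, .ofNat 0, .ofNat 0, .ofNat 0, .ofNat 0, .negSucc 1, .ofNat 0, .negSucc 1, .negSucc 1]), (true, [.ofNat 0, .ofNat 2, .ofNat 1, .negSucc 0, .negSucc 0, .ofNat 0, .negSucc 0, .negSucc 0, .ofNat 2, .negSucc 1, .negSucc 1])),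
  ((false, [.ofNat 2, .ofNat 0, .ofNat 2, .ofNat 1, .ofNat 0, .ofNat 0, .ofNat 0, .negSucc 1, .negSucc 0, .ofNat 0, .negSucc 1]), (true, [.ofNat 0, .ofNat 2, .ofNat 1, .negSucc 1, .negSucc 1, .negSucc 1, .negSucc 0, .ofNat 1, .ofNat 3, .ofNat 0, .negSucc 1])),
  ((false, [.ofNat 2, .negSucc 0, .ofNat 1, .ofNat 1, .ofNat 0, .negSucc 0, .ofNat 1, .negSucc 0, .negSucc 0, .ofNat 2, .negSucc 0]), (true, [.ofNat 0, .ofNat 1, .negSucc 0, .negSucc 0, .negSucc 1, .negSucc 2, .ofNat 1, .ofNat 1, .ofNat 3, .ofNat 0, .negSucc 0])),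
  ((false, [.ofNat 2, .negSucc 0, .ofNat 1, .ofNat 2, .ofNat 1, .ofNat 1, .ofNat 1, .negSucc 2, .negSucc 1, .negSucc 1, .negSucc 0]), (true, [.ofNat 0, .ofNat 1, .negSucc 0, .ofNat 0, .negSucc 0, .negSucc 0, .ofNat 1, .negSucc 0, .ofNat 2, .negSucc 1, .negSucc 0])),
  ((true, [.ofNat 2, .negSucc 0, .ofNat 1, .ofNat 2, .ofNat 1, .ofNat 1, .ofNat 1, .negSucc 2, .negSucc 1, .negSucc 1, .ofNat 0]), (false, [.ofNat 0, .ofNat 0, .ofNat 0, .ofNat 1, .ofNat 1, .ofNat 2, .ofNat 0, .negSucc 1, .negSucc 0, .negSucc 1, .ofNat 0])),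
  ((false, [.negSucc 0, .ofNat 0, .ofNat 2, .ofNat 1, .ofNat 0, .ofNat 2, .ofNat 0, .negSucc 1, .negSucc 0, .negSucc 1, .negSucc 0]), (true, [.negSucc 0, .ofNat 0, .ofNat 0, .negSucc 0, .negSucc 1, .ofNat 0, .ofNat 0, .ofNat 0, .ofNat 3, .negSucc 1, .negSucc 0])),
  ((false, [.ofNat 0, .negSucc 1, .ofNat 2, .ofNat 4, .ofNat 2, .ofNat 2, .ofNat 2, .negSucc 3, .negSucc 3, .ofNat 2, .ofNat 0]), (true, [.ofNat 1, .ofNat 0, .ofNat 0, .ofNat 3, .ofNat 2, .ofNat 1, .ofNat 0, .negSucc 1, .negSucc 2, .ofNat 0, .ofNat 1])),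
  ((false, [.ofNat 0, .negSucc 1, .ofNat 2, .ofNat 2, .ofNat 2, .ofNat 2, .ofNat 2, .negSucc 1, .negSucc 3, .ofNat 0, .negSucc 1]), (true, [.ofNat 0, .ofNat 0, .ofNat 0, .ofNat 0, .ofNat 1, .ofNat 1, .ofNat 0, .ofNat 1, .negSucc 1, .ofNat 0, .negSucc 1])),
  ((false, [.negSucc 0, .negSucc 0, .ofNat 1, .ofNat 2, .ofNat 1, .ofNat 2, .ofNat 1, .negSucc 0, .negSucc 2, .ofNat 0, .negSucc 1]), (true, [.negSucc 0, .ofNat 0, .ofNat 0, .negSucc 1, .negSucc 0, .ofNat 0, .ofNat 0, .ofNat 2, .ofNat 1, .ofNat 0, .negSucc 1])),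
  ((false, [.ofNat 2, .ofNat 0, .ofNat 0, .ofNat 2, .ofNat 1, .ofNat 0, .ofNat 0, .ofNat 0, .negSucc 2, .negSucc 1, .negSucc 0]), (true, [.ofNat 0, .ofNat 2, .ofNat 0, .negSucc 1, .negSucc 0, .negSucc 1, .ofNat 0, .ofNat 2, .ofNat 1, .negSucc 1, .negSucc 0])),
  ((false, [.ofNat 2, .ofNat 0, .ofNat 0, .ofNat 2, .ofNat 0, .ofNat 0, .ofNat 0, .ofNat 0, .negSucc 1, .ofNat 0, .negSucc 1]), (true, [.ofNat 0, .ofNat 0, .ofNat 1, .ofNat 1, .negSucc 0, .ofNat 1, .ofNat 0, .negSucc 0, .ofNat 0, .ofNat 0, .negSucc 1])),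
  ((true, [.ofNat 0, .ofNat 1, .negSucc 0, .ofNat 2, .ofNat 1, .ofNat 1, .negSucc 0, .ofNat 0, .negSucc 1, .negSucc 2, .ofNat 0]), (false, [.ofNat 2, .ofNat 1, .negSucc 0, .ofNat 0, .ofNat 1, .negSucc 0, .negSucc 0, .ofNat 0, .ofNat 0, .negSucc 2, .ofNat 2])),
  ((false, [.negSucc 0, .ofNat 0, .ofNat 0, .ofNat 3, .ofNat 1, .ofNat 2, .ofNat 0, .negSucc 0, .negSucc 2, .ofNat 0, .negSucc 0]), (false, [.negSucc 0, .ofNat 0, .ofNat 0, .ofNat 1, .ofNat 0, .ofNat 0, .ofNat 2, .negSucc 0, .negSucc 0, .ofNat 1, .negSucc 0])),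
  ((false, [.ofNat 0, .ofNat 0, .ofNat 0, .ofNat 4, .ofNat 2, .ofNat 2, .ofNat 0, .negSucc 1, .negSucc 3, .negSucc 1, .ofNat 0]), (false, [.ofNat 1, .ofNat 1, .negSucc 0, .ofNat 1, .ofNat 1, .negSucc 0, .ofNat 1, .negSucc 0, .negSucc 0, .negSucc 1, .ofNat 1])),
  ((false, [.ofNat 0, .ofNat 1, .negSucc 0, .ofNat 1, .ofNat 1, .ofNat 1, .negSucc 0, .ofNat 1, .negSucc 1, .negSucc 3, .ofNat 0]), (true, [.ofNat 1, .ofNat 2, .negSucc 1, .negSucc 1, .ofNat 0, .negSucc 1, .ofNat 0, .ofNat 2, .ofNat 1, .negSucc 3, .ofNat 0])),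
  ((false, [.ofNat 0, .ofNat 0, .ofNat 0, .ofNat 3, .ofNat 2, .ofNat 2, .ofNat 0, .negSucc 0, .negSucc 3, .negSucc 2, .negSucc 0]), (true, [.ofNat 0, .ofNat 2, .negSucc 1, .negSucc 0, .ofNat 0, .negSucc 1, .ofNat 2, .ofNat 1, .ofNat 0, .negSucc 2, .negSucc 0])),
  ((false, [.negSucc 0, .ofNat 0, .ofNat 0, .ofNat 2, .ofNat 1, .ofNat 2, .ofNat 0, .ofNat 0, .negSucc 2, .negSucc 0, .negSucc 1]), (true, [.negSucc 0, .ofNat 1, .negSucc 0, .negSucc 1, .negSucc 0, .negSucc 0, .ofNat 1, .ofNat 2, .ofNat 1, .negSucc 0, .negSucc 1])),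
  ((false, [.ofNat 0, .ofNat 1, .negSucc 0, .ofNat 1, .ofNat 1, .ofNat 1, .negSucc 0, .ofNat 1, .negSucc 1, .negSucc 1, .negSucc 0]), (true, [.ofNat 0, .ofNat 1, .negSucc 0, .negSucc 2, .negSucc 0, .negSucc 0, .negSucc 0, .ofNat 3, .ofNat 2, .negSucc 1, .negSucc 0])),
  ((false, [.ofNat 0, .negSucc 1, .ofNat 0, .ofNat 4, .ofNat 2, .ofNat 2, .ofNat 2, .negSucc 1, .negSucc 3, .negSucc 1, .ofNat 0]), (true, [.ofNat 1, .ofNat 0, .ofNat 0, .ofNat 2, .ofNat 1, .ofNat 1, .ofNat 0, .negSucc 1, .negSucc 0, .negSucc 1, .ofNat 0])),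
  ((false, [.ofNat 0, .negSucc 1, .ofNat 0, .ofNat 4, .ofNat 2, .ofNat 2, .ofNat 0, .ofNat 0, .negSucc 3, .ofNat 0, .ofNat 0]), (true, [.ofNat 0, .negSucc 0, .ofNat 2, .ofNat 2, .ofNat 1, .ofNat 2, .negSucc 0, .negSucc 1, .negSucc 0, .ofNat 0, .ofNat 0])),
  ((false, [.ofNat 0, .negSucc 0, .negSucc 0, .ofNat 3, .ofNat 1, .ofNat 1, .ofNat 0, .ofNat 1, .negSucc 2, .negSucc 1, .ofNat 0]), (true, [.ofNat 2, .ofNat 1, .ofNat 1, .negSucc 0, .negSucc 0, .negSucc 0, .negSucc 1, .ofNat 1, .ofNat 1, .negSucc 1, .ofNat 0])),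
  ((true, [.ofNat 3, .ofNat 0, .ofNat 0, .ofNat 0, .ofNat 2, .ofNat 0, .ofNat 0, .ofNat 0, .negSucc 2, .negSucc 1, .ofNat 0]), (false, [.ofNat 0, .ofNat 1, .ofNat 1, .negSucc 0, .ofNat 1, .ofNat 1, .negSucc 0, .ofNat 1, .negSucc 1, .negSucc 1, .ofNat 0])),
  ((true, [.ofNat 1, .negSucc 1, .ofNat 2, .ofNat 2, .ofNat 2, .ofNat 2, .ofNat 0, .negSucc 1, .negSucc 2, .ofNat 0, .ofNat 0]), (false, [.ofNat 0, .negSucc 0, .ofNat 1, .ofNat 1, .ofNat 1, .ofNat 2, .negSucc 0, .ofNat 0, .negSucc 1, .ofNat 0, .ofNat 0])),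
  ((false, [.ofNat 0, .negSucc 1, .ofNat 1, .ofNat 3, .ofNat 2, .ofNat 2, .ofNat 0, .negSucc 0, .negSucc 2, .negSucc 0, .ofNat 0]), (true, [.ofNat 1, .ofNat 0, .ofNat 2, .ofNat 1, .ofNat 0, .ofNat 1, .negSucc 1, .negSucc 0, .ofNat 0, .negSucc 0, .ofNat 0])),
  ((false, [.ofNat 2, .ofNat 0, .ofNat 0, .ofNat 0, .ofNat 1, .negSucc 0, .ofNat 0, .negSucc 0, .ofNat 0, .negSucc 2, .ofNat 2]), (true, [.ofNat 0, .ofNat 2, .negSucc 1, .negSucc 1, .negSucc 0, .negSucc 2, .ofNat 2, .ofNat 1, .ofNat 2, .negSucc 2, .ofNat 0])),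
  ((false, [.ofNat 0, .ofNat 1, .ofNat 0, .ofNat 0, .ofNat 1, .ofNat 1, .negSucc 0, .negSucc 0, .ofNat 0, .negSucc 2, .ofNat 0]), (true, [.ofNat 2, .ofNat 1, .ofNat 0, .ofNat 0, .negSucc 0, .negSucc 0, .negSucc 0, .negSucc 0, .ofNat 2, .negSucc 2, .ofNat 0])),
  ((false, [.negSucc 0, .ofNat 0, .ofNat 0, .ofNat 1, .ofNat 2, .ofNat 2, .ofNat 0, .negSucc 0, .negSucc 1, .negSucc 3, .ofNat 0]), (true, [.negSucc 0, .ofNat 0, .negSucc 1, .negSucc 0, .ofNat 0, .ofNat 0, .ofNat 2, .ofNat 1, .ofNat 0, .negSucc 3, .ofNat 0])),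
  ((true, [.ofNat 0, .negSucc 0, .ofNat 2, .ofNat 0, .ofNat 1, .ofNat 1, .ofNat 0, .negSucc 1, .ofNat 0, .negSucc 1, .ofNat 0]), (false, [.ofNat 0, .ofNat 1, .ofNat 2, .ofNat 0, .negSucc 0, .ofNat 1, .negSucc 1, .negSucc 1, .ofNat 2, .negSucc 1, .ofNat 0])),
  ((true, [.ofNat 0, .negSucc 0, .ofNat 1, .ofNat 1, .ofNat 2, .ofNat 0, .ofNat 1, .negSucc 0, .negSucc 1, .ofNat 0, .ofNat 1]), (false, [.ofNat 1, .ofNat 0, .ofNat 0, .ofNat 1, .ofNat 1, .negSucc 0, .ofNat 0, .ofNat 1, .negSucc 1, .ofNat 2, .ofNat 0])),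
  ((false, [.ofNat 0, .negSucc 1, .ofNat 2, .ofNat 2, .ofNat 2, .ofNat 2, .ofNat 0, .negSucc 1, .negSucc 1, .ofNat 0, .ofNat 0]), (true, [.ofNat 1, .negSucc 0, .ofNat 1, .ofNat 2, .ofNat 1, .ofNat 1, .negSucc 0, .ofNat 0, .negSucc 1, .ofNat 0, .ofNat 0])),
  ((true, [.ofNat 0, .negSucc 0, .ofNat 2, .ofNat 2, .ofNat 2, .ofNat 1, .ofNat 0, .negSucc 1, .negSucc 1, .ofNat 0, .ofNat 0]), (false, [.ofNat 1, .ofNat 1, .ofNat 2, .ofNat 1, .ofNat 0, .ofNat 0, .negSucc 1, .negSucc 0, .ofNat 0, .ofNat 0, .ofNat 0])),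
  ((false, [.ofNat 0, .negSucc 1, .ofNat 1, .ofNat 1, .ofNat 2, .ofNat 1, .ofNat 1, .negSucc 0, .negSucc 1, .ofNat 0, .ofNat 0]), (true, [.ofNat 0, .negSucc 1, .negSucc 0, .ofNat 1, .ofNat 1, .ofNat 1, .ofNat 1, .ofNat 1, .negSucc 1, .ofNat 0, .ofNat 0]))]

/-- classes -/
noncomputable def cls6 : List (Mo × Mo) := [
  ((false, [.ofNat 0, .negSucc 1, .ofNat 2, .ofNat 2, .ofNat 2, .ofNat 2, .ofNat 0, .negSucc 1, .negSucc 1, .negSucc 1, .ofNat 0]), (true, [.ofNat 0, .negSucc 0, .ofNat 1, .ofNat 1, .ofNat 0, .ofNat 2, .negSucc 0, .negSucc 0, .ofNat 0, .negSucc 1, .ofNat 0])),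
  ((false, [.negSucc 0, .negSucc 1, .ofNat 1, .ofNat 2, .ofNat 2, .ofNat 2, .ofNat 1, .negSucc 1, .negSucc 1, .negSucc 1, .ofNat 0]), (true, [.negSucc 0, .negSucc 1, .negSucc 0, .ofNat 0, .ofNat 0, .ofNat 2, .ofNat 1, .ofNat 0, .ofNat 0, .negSucc 1, .ofNat 0])),
  ((false, [.negSucc 1, .negSucc 1, .ofNat 0, .ofNat 2, .ofNat 2, .ofNat 2, .ofNat 0, .ofNat 0, .negSucc 1, .ofNat 0, .ofNat 2]), (true, [.negSucc 1, .negSucc 0, .ofNat 2, .ofNat 1, .ofNat 0, .ofNat 2, .negSucc 0, .negSucc 0, .ofNat 0, .ofNat 3, .ofNat 0])),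
  ((true, [.ofNat 1, .ofNat 0, .ofNat 0, .ofNat 0, .ofNat 2, .ofNat 0, .ofNat 0, .ofNat 0, .negSucc 0, .negSucc 3, .ofNat 0]), (false, [.ofNat 0, .negSucc 0, .negSucc 0, .ofNat 1, .ofNat 1, .ofNat 1, .ofNat 1, .ofNat 1, .negSucc 1, .negSucc 3, .ofNat 0])),
  ((false, [.negSucc 1, .ofNat 0, .ofNat 0, .ofNat 0, .ofNat 2, .ofNat 0, .ofNat 0, .ofNat 0, .ofNat 0, .ofNat 0, .ofNat 2]), (true, [.negSucc 1, .ofNat 0, .ofNat 1, .ofNat 1, .ofNat 0, .ofNat 0, .ofNat 0, .ofNat 0, .ofNat 0, .ofNat 3, .ofNat 0])),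
  ((false, [.negSucc 0, .ofNat 0, .ofNat 0, .negSucc 0, .ofNat 2, .ofNat 0, .ofNat 0, .ofNat 0, .ofNat 0, .negSucc 2, .ofNat 2]), (true, [.negSucc 0, .ofNat 2, .ofNat 0, .negSucc 0, .ofNat 0, .ofNat 0, .ofNat 0, .ofNat 0, .ofNat 0, .negSucc 2, .ofNat 0])),
  ((true, [.ofNat 3, .ofNat 0, .ofNat 1, .ofNat 1, .ofNat 0, .ofNat 0, .negSucc 1, .negSucc 0, .ofNat 0, .negSucc 0, .ofNat 0]), (false, [.ofNat 0, .ofNat 0, .ofNat 1, .ofNat 0, .ofNat 1, .ofNat 1, .negSucc 1, .ofNat 0, .ofNat 0, .negSucc 0, .ofNat 0])),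
  ((true, [.ofNat 3, .ofNat 0, .ofNat 0, .ofNat 2, .ofNat 0, .ofNat 0, .ofNat 0, .negSucc 1, .negSucc 0, .negSucc 1, .ofNat 0]), (false, [.ofNat 0, .negSucc 0, .negSucc 0, .ofNat 3, .ofNat 1, .ofNat 2, .ofNat 1, .negSucc 0, .negSucc 2, .negSucc 1, .ofNat 0])),
  ((true, [.ofNat 0, .ofNat 1, .ofNat 1, .ofNat 1, .ofNat 0, .ofNat 2, .negSucc 2, .negSucc 0, .ofNat 0, .ofNat 0, .negSucc 0]), (false, [.ofNat 1, .ofNat 1, .ofNat 1, .negSucc 1, .negSucc 0, .negSucc 0, .negSucc 2, .ofNat 2, .ofNat 2, .ofNat 2, .negSucc 0])),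
  ((true, [.ofNat 2, .negSucc 0, .ofNat 2, .ofNat 2, .ofNat 0, .ofNat 1, .negSucc 0, .negSucc 1, .negSucc 0, .ofNat 0, .ofNat 0]), (false, [.ofNat 0, .negSucc 1, .ofNat 0, .ofNat 3, .ofNat 1, .ofNat 2, .ofNat 0, .ofNat 0, .negSucc 2, .ofNat 0, .ofNat 0])),
  ((false, [.ofNat 1, .negSucc 0, .ofNat 2, .ofNat 2, .ofNat 0, .ofNat 1, .ofNat 0, .negSucc 1, .negSucc 0, .ofNat 0, .negSucc 1]), (true, [.ofNat 0, .ofNat 1, .ofNat 2, .negSucc 0, .negSucc 0, .ofNat 0, .negSucc 1, .ofNat 1, .ofNat 1, .ofNat 0, .negSucc 1])),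
  ((true, [.ofNat 1, .ofNat 0, .ofNat 0, .ofNat 2, .ofNat 0, .ofNat 0, .ofNat 0, .ofNat 0, .negSucc 0, .negSucc 1, .negSucc 1]), (false, [.ofNat 0, .ofNat 1, .ofNat 1, .negSucc 0, .negSucc 0, .ofNat 0, .negSucc 0, .ofNat 1, .ofNat 1, .negSucc 1, .negSucc 1])),
  ((false, [.ofNat 0, .ofNat 0, .ofNat 0, .ofNat 2, .ofNat 0, .ofNat 1, .negSucc 0, .ofNat 0, .negSucc 0, .negSucc 0, .negSucc 0]), (true, [.ofNat 1, .ofNat 0, .ofNat 0, .negSucc 0, .negSucc 0, .ofNat 0, .negSucc 0, .ofNat 1, .ofNat 1, .negSucc 0, .negSucc 0])),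
  ((false, [.negSucc 1, .ofNat 0, .ofNat 0, .ofNat 1, .ofNat 1, .ofNat 0, .ofNat 0, .ofNat 0, .ofNat 0, .ofNat 0, .ofNat 1]), (true, [.negSucc 1, .ofNat 1, .ofNat 1, .ofNat 0, .ofNat 0, .ofNat 0, .ofNat 0, .ofNat 0, .ofNat 0, .ofNat 1, .ofNat 0])),
  ((false, [.ofNat 2, .ofNat 0, .ofNat 1, .ofNat 0, .negSucc 0, .negSucc 0, .negSucc 0, .negSucc 0, .ofNat 2, .ofNat 0, .ofNat 0]), (true, [.ofNat 0, .ofNat 0, .ofNat 1, .negSucc 1, .ofNat 0, .negSucc 0, .negSucc 0, .ofNat 1, .ofNat 2, .ofNat 0, .ofNat 0])),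
  ((false, [.ofNat 2, .negSucc 0, .ofNat 0, .ofNat 0, .negSucc 0, .negSucc 1, .ofNat 0, .ofNat 0, .ofNat 2, .ofNat 0, .ofNat 2]), (true, [.ofNat 0, .negSucc 0, .ofNat 1, .negSucc 1, .negSucc 0, .negSucc 1, .ofNat 0, .ofNat 2, .ofNat 2, .ofNat 3, .ofNat 0])),
  ((true, [.ofNat 2, .ofNat 1, .ofNat 1, .ofNat 0, .negSucc 0, .negSucc 0, .negSucc 0, .negSucc 0, .ofNat 2, .negSucc 3, .ofNat 0]), (false, [.ofNat 0, .ofNat 0, .ofNat 0, .negSucc 0, .ofNat 1, .ofNat 0, .ofNat 0, .ofNat 0, .ofNat 1, .negSucc 3, .ofNat 0])),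
  ((true, [.ofNat 2, .ofNat 0, .ofNat 0, .ofNat 0, .negSucc 0, .negSucc 1, .ofNat 0, .ofNat 0, .ofNat 2, .negSucc 0, .ofNat 0]), (false, [.ofNat 0, .negSucc 0, .ofNat 0, .negSucc 0, .ofNat 0, .negSucc 0, .ofNat 1, .ofNat 1, .ofNat 1, .negSucc 0, .ofNat 0])),
  ((false, [.ofNat 2, .ofNat 0, .ofNat 0, .ofNat 1, .negSucc 0, .negSucc 0, .ofNat 0, .negSucc 0, .ofNat 1, .negSucc 0, .ofNat 0]), (true, [.ofNat 0, .negSucc 0, .negSucc 0, .ofNat 1, .ofNat 0, .ofNat 0, .ofNat 2, .ofNat 0, .negSucc 0, .negSucc 0, .ofNat 0])),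
  ((false, [.ofNat 2, .ofNat 0, .ofNat 0, .ofNat 2, .ofNat 0, .ofNat 0, .ofNat 0, .negSucc 1, .ofNat 0, .negSucc 3, .ofNat 0]), (true, [.ofNat 0, .ofNat 0, .negSucc 0, .ofNat 1, .ofNat 1, .ofNat 1, .ofNat 1, .negSucc 0, .negSucc 0, .negSucc 3, .ofNat 0])),
  ((false, [.ofNat 0, .ofNat 1, .ofNat 1, .ofNat 1, .negSucc 0, .ofNat 1, .negSucc 1, .negSucc 0, .ofNat 1, .negSucc 2, .ofNat 0]), (true, [.ofNat 0, .negSucc 0, .negSucc 0, .negSucc 0, .negSucc 0, .ofNat 1, .ofNat 0, .ofNat 1, .ofNat 1, .negSucc 2, .ofNat 0])),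
  ((false, [.negSucc 0, .negSucc 0, .ofNat 2, .ofNat 1, .negSucc 0, .ofNat 1, .ofNat 0, .negSucc 1, .ofNat 1, .ofNat 2, .negSucc 0]), (true, [.negSucc 0, .ofNat 1, .ofNat 2, .negSucc 0, .negSucc 0, .ofNat 1, .negSucc 1, .ofNat 0, .ofNat 1, .ofNat 0, .negSucc 0])),
  ((false, [.ofNat 0, .ofNat 0, .ofNat 2, .ofNat 2, .ofNat 0, .ofNat 0, .ofNat 0, .negSucc 1, .ofNat 0, .ofNat 0, .negSucc 1]), (true, [.ofNat 1, .ofNat 2, .ofNat 1, .ofNat 0, .ofNat 0, .negSucc 0, .negSucc 0, .ofNat 0, .ofNat 0, .ofNat 0, .negSucc 1])),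
  ((false, [.ofNat 1, .ofNat 0, .ofNat 0, .ofNat 2, .ofNat 0, .negSucc 0, .ofNat 0, .negSucc 0, .ofNat 0, .ofNat 0, .ofNat 1]), (true, [.ofNat 0, .negSucc 0, .ofNat 1, .ofNat 2, .ofNat 1, .ofNat 0, .ofNat 2, .negSucc 1, .negSucc 1, .ofNat 1, .ofNat 0])),
  ((true, [.negSucc 0, .ofNat 0, .ofNat 0, .ofNat 2, .negSucc 0, .ofNat 0, .ofNat 0, .ofNat 0, .ofNat 0, .ofNat 0, .negSucc 0]), (false, [.negSucc 0, .ofNat 0, .ofNat 2, .ofNat 0, .negSucc 0, .ofNat 0, .ofNat 0, .ofNat 0, .ofNat 0, .ofNat 2, .negSucc 0])),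
  ((false, [.negSucc 1, .ofNat 0, .ofNat 0, .ofNat 2, .ofNat 0, .ofNat 0, .ofNat 0, .ofNat 0, .ofNat 0, .ofNat 2, .ofNat 0]), (true, [.negSucc 1, .ofNat 1, .ofNat 0, .ofNat 0, .ofNat 1, .ofNat 0, .ofNat 0, .ofNat 0, .ofNat 0, .ofNat 0, .ofNat 1])),
  ((false, [.ofNat 0, .ofNat 0, .negSucc 0, .ofNat 2, .ofNat 0, .ofNat 0, .ofNat 0, .ofNat 0, .ofNat 0, .negSucc 2, .ofNat 0]), (true, [.ofNat 0, .ofNat 1, .negSucc 0, .ofNat 0, .ofNat 1, .ofNat 0, .ofNat 0, .ofNat 0, .ofNat 0, .negSucc 2, .ofNat 0])),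
  ((false, [.negSucc 0, .ofNat 0, .ofNat 0, .ofNat 2, .ofNat 0, .ofNat 0, .ofNat 0, .ofNat 0, .ofNat 0, .negSucc 0, .negSucc 0]), (true, [.negSucc 0, .ofNat 1, .ofNat 1, .ofNat 0, .ofNat 0, .ofNat 0, .ofNat 0, .ofNat 0, .ofNat 0, .negSucc 0, .negSucc 0])),
  ((true, [.ofNat 0, .ofNat 0, .ofNat 0, .ofNat 2, .negSucc 0, .ofNat 0, .ofNat 0, .ofNat 0, .ofNat 0, .negSucc 0, .negSucc 1]), (false, [.ofNat 1, .ofNat 0, .ofNat 1, .ofNat 0, .negSucc 0, .ofNat 0, .ofNat 0, .ofNat 0, .ofNat 0, .negSucc 0, .negSucc 1])),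
  ((false, [.ofNat 0, .ofNat 0, .ofNat 0, .ofNat 2, .ofNat 0, .ofNat 0, .ofNat 0, .ofNat 0, .ofNat 0, .negSucc 3, .negSucc 1]), (true, [.ofNat 1, .ofNat 1, .ofNat 0, .ofNat 0, .ofNat 0, .ofNat 0, .ofNat 0, .ofNat 0, .ofNat 0, .negSucc 3, .negSucc 1])),
  ((true, [.ofNat 0, .ofNat 0, .negSucc 0, .ofNat 2, .ofNat 0, .ofNat 0, .ofNat 0, .ofNat 0, .ofNat 0, .negSucc 2, .negSucc 0]), (false, [.ofNat 2, .ofNat 0, .negSucc 0, .ofNat 0, .ofNat 0, .ofNat 0, .ofNat 0, .ofNat 0, .ofNat 0, .negSucc 2, .negSucc 0])),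
  ((false, [.ofNat 0, .ofNat 0, .ofNat 0, .ofNat 0, .ofNat 0, .negSucc 1, .ofNat 0, .ofNat 0, .ofNat 2, .ofNat 0, .ofNat 2]), (true, [.ofNat 0, .ofNat 0, .ofNat 0, .ofNat 0, .ofNat 0, .negSucc 1, .ofNat 1, .ofNat 1, .ofNat 0, .ofNat 3, .ofNat 0])),
  ((false, [.ofNat 1, .ofNat 0, .ofNat 0, .ofNat 1, .negSucc 0, .negSucc 0, .ofNat 0, .negSucc 0, .ofNat 2, .negSucc 1, .ofNat 0]), (true, [.ofNat 0, .negSucc 0, .ofNat 0, .ofNat 1, .ofNat 1, .ofNat 0, .ofNat 2, .negSucc 0, .negSucc 0, .negSucc 1, .ofNat 0])),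
  ((true, [.ofNat 1, .ofNat 0, .ofNat 0, .ofNat 0, .negSucc 1, .negSucc 1, .ofNat 0, .ofNat 0, .ofNat 3, .ofNat 0, .ofNat 0]), (false, [.ofNat 0, .negSucc 0, .negSucc 0, .negSucc 0, .negSucc 0, .negSucc 0, .ofNat 1, .ofNat 2, .ofNat 1, .ofNat 0, .ofNat 0])),
  ((true, [.ofNat 0, .ofNat 1, .ofNat 1, .ofNat 1, .negSucc 1, .ofNat 0, .negSucc 0, .negSucc 0, .ofNat 2, .ofNat 0, .negSucc 2]), (false, [.ofNat 3, .ofNat 1, .ofNat 1, .ofNat 0, .negSucc 0, .negSucc 0, .negSucc 0, .ofNat 0, .ofNat 0, .ofNat 0, .negSucc 2])),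
  ((false, [.ofNat 0, .ofNat 0, .ofNat 0, .ofNat 0, .negSucc 1, .negSucc 1, .ofNat 0, .ofNat 0, .ofNat 4, .ofNat 0, .ofNat 0]), (true, [.ofNat 0, .ofNat 0, .negSucc 0, .negSucc 0, .ofNat 0, .negSucc 1, .ofNat 1, .ofNat 2, .ofNat 1, .ofNat 0, .ofNat 0])),
  ((true, [.ofNat 0, .ofNat 0, .ofNat 0, .ofNat 1, .negSucc 1, .negSucc 0, .ofNat 0, .negSucc 0, .ofNat 3, .negSucc 1, .ofNat 0]), (false, [.ofNat 0, .negSucc 1, .ofNat 0, .ofNat 1, .ofNat 0, .ofNat 1, .ofNat 2, .negSucc 0, .negSucc 0, .negSucc 1, .ofNat 0])),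
  ((false, [.negSucc 0, .ofNat 2, .ofNat 2, .ofNat 0, .ofNat 0, .ofNat 1, .negSucc 1, .negSucc 0, .ofNat 0, .ofNat 0, .negSucc 0]), (false, [.negSucc 0, .ofNat 1, .ofNat 1, .ofNat 0, .negSucc 0, .negSucc 0, .ofNat 0, .negSucc 0, .ofNat 2, .ofNat 1, .negSucc 0])),
  ((false, [.ofNat 0, .ofNat 2, .ofNat 1, .ofNat 0, .negSucc 0, .ofNat 1, .negSucc 1, .ofNat 0, .ofNat 0, .negSucc 0, .negSucc 1]), (true, [.ofNat 1, .ofNat 2, .negSucc 0, .negSucc 0, .negSucc 1, .negSucc 1, .ofNat 0, .ofNat 1, .ofNat 2, .negSucc 0, .negSucc 1])),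
  ((false, [.ofNat 0, .ofNat 0, .ofNat 3, .ofNat 0, .ofNat 0, .ofNat 0, .ofNat 0, .negSucc 1, .ofNat 0, .ofNat 3, .negSucc 1]), (false, [.ofNat 0, .ofNat 3, .ofNat 0, .negSucc 1, .negSucc 0, .negSucc 1, .ofNat 0, .ofNat 0, .ofNat 2, .ofNat 0, .negSucc 1])),
  ((false, [.ofNat 0, .ofNat 1, .ofNat 1, .ofNat 1, .negSucc 0, .ofNat 1, .negSucc 0, .ofNat 0, .negSucc 0, .ofNat 0, .negSucc 1]), (true, [.ofNat 1, .ofNat 0, .ofNat 0, .ofNat 0, .negSucc 1, .ofNat 0, .ofNat 0, .ofNat 0, .ofNat 1, .ofNat 0, .negSucc 1])),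
  ((false, [.ofNat 1, .negSucc 0, .ofNat 1, .ofNat 2, .ofNat 1, .ofNat 1, .negSucc 0, .ofNat 0, .negSucc 1, .ofNat 0, .negSucc 0]), (true, [.ofNat 0, .negSucc 0, .ofNat 1, .ofNat 1, .ofNat 0, .ofNat 2, .negSucc 0, .negSucc 0, .ofNat 0, .ofNat 0, .negSucc 0])),
  ((false, [.negSucc 1, .ofNat 0, .ofNat 0, .ofNat 1, .ofNat 1, .ofNat 1, .ofNat 0, .ofNat 1, .negSucc 1, .ofNat 1, .negSucc 0]), (false, [.negSucc 1, .ofNat 1, .negSucc 0, .negSucc 0, .ofNat 0, .negSucc 0, .ofNat 2, .ofNat 1, .ofNat 0, .ofNat 0, .negSucc 0])),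
  ((true, [.ofNat 2, .ofNat 0, .ofNat 0, .negSucc 0, .ofNat 0, .negSucc 1, .ofNat 0, .ofNat 1, .ofNat 1, .ofNat 0, .ofNat 0]), (false, [.ofNat 0, .negSucc 1, .ofNat 0, .ofNat 0, .ofNat 0, .ofNat 0, .ofNat 2, .ofNat 0, .ofNat 0, .ofNat 0, .ofNat 0])),
  ((false, [.ofNat 1, .negSucc 0, .ofNat 2, .ofNat 1, .ofNat 1, .ofNat 1, .negSucc 0, .negSucc 0, .negSucc 0, .negSucc 0, .ofNat 0]), (true, [.ofNat 0, .negSucc 1, .ofNat 0, .ofNat 2, .ofNat 1, .ofNat 2, .ofNat 0, .ofNat 0, .negSucc 1, .negSucc 0, .ofNat 0])),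
  ((true, [.ofNat 0, .negSucc 0, .ofNat 1, .ofNat 0, .ofNat 1, .ofNat 0, .ofNat 0, .ofNat 0, .ofNat 0, .negSucc 0, .ofNat 0]), (false, [.ofNat 1, .negSucc 0, .ofNat 0, .ofNat 1, .ofNat 0, .ofNat 0, .ofNat 0, .ofNat 0, .ofNat 0, .negSucc 0, .ofNat 0])),
  ((false, [.ofNat 1, .ofNat 1, .ofNat 1, .ofNat 0, .negSucc 0, .ofNat 0, .negSucc 1, .ofNat 0, .ofNat 1, .negSucc 0, .ofNat 0]), (true, [.ofNat 0, .negSucc 0, .negSucc 0, .ofNat 1, .ofNat 0, .ofNat 1, .ofNat 0, .ofNat 1, .negSucc 0, .negSucc 0, .ofNat 0])),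
  ((false, [.ofNat 0, .ofNat 0, .ofNat 0, .negSucc 0, .negSucc 0, .negSucc 1, .ofNat 0, .ofNat 1, .ofNat 3, .negSucc 0, .ofNat 0]), (true, [.ofNat 0, .negSucc 0, .negSucc 0, .ofNat 0, .ofNat 0, .negSucc 0, .ofNat 2, .ofNat 1, .ofNat 0, .negSucc 0, .ofNat 0])),
  ((false, [.ofNat 2, .ofNat 0, .ofNat 2, .ofNat 0, .ofNat 0, .ofNat 0, .negSucc 1, .ofNat 0, .ofNat 0, .ofNat 0, .ofNat 0]), (true, [.ofNat 0, .negSucc 1, .ofNat 1, .ofNat 1, .ofNat 1, .ofNat 2, .ofNat 0, .negSucc 0, .negSucc 0, .ofNat 0, .ofNat 0])),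
  ((false, [.ofNat 0, .ofNat 2, .ofNat 2, .negSucc 0, .negSucc 0, .ofNat 0, .negSucc 1, .ofNat 0, .ofNat 1, .ofNat 0, .negSucc 1]), (true, [.ofNat 1, .ofNat 1, .ofNat 1, .ofNat 0, .negSucc 0, .negSucc 0, .ofNat 0, .negSucc 0, .ofNat 1, .ofNat 0, .negSucc 1]))]

/-- classes -/
noncomputable def cls7 : List (Mo × Mo) := [
  ((false, [.ofNat 0, .ofNat 2, .ofNat 1, .negSucc 0, .ofNat 0, .ofNat 0, .negSucc 1, .ofNat 1, .ofNat 0, .negSucc 1, .negSucc 0]), (true, [.ofNat 2, .ofNat 2, .negSucc 0, .negSucc 0, .ofNat 0, .negSucc 1, .ofNat 0, .ofNat 1, .ofNat 0, .negSucc 1, .negSucc 0])),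
  ((false, [.negSucc 0, .ofNat 2, .ofNat 1, .negSucc 0, .negSucc 0, .ofNat 0, .negSucc 1, .ofNat 1, .ofNat 1, .ofNat 1, .negSucc 0]), (false, [.negSucc 0, .ofNat 2, .negSucc 0, .negSucc 0, .negSucc 1, .negSucc 1, .ofNat 0, .ofNat 1, .ofNat 3, .ofNat 0, .negSucc 0])),
  ((false, [.ofNat 0, .ofNat 3, .ofNat 0, .negSucc 1, .negSucc 0, .negSucc 0, .negSucc 2, .ofNat 2, .ofNat 2, .negSucc 1, .ofNat 1]), (false, [.ofNat 0, .ofNat 3, .negSucc 2, .negSucc 1, .negSucc 0, .negSucc 2, .ofNat 0, .ofNat 3, .ofNat 2, .negSucc 1, .ofNat 0])),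
  ((false, [.ofNat 1, .ofNat 1, .ofNat 2, .ofNat 0, .negSucc 0, .negSucc 0, .negSucc 0, .ofNat 0, .ofNat 0, .ofNat 3, .negSucc 1]), (false, [.ofNat 0, .ofNat 2, .ofNat 0, .ofNat 0, .negSucc 1, .negSucc 1, .ofNat 0, .ofNat 0, .ofNat 2, .ofNat 0, .negSucc 1])),
  ((false, [.ofNat 0, .ofNat 0, .ofNat 2, .ofNat 0, .ofNat 0, .ofNat 0, .ofNat 0, .ofNat 0, .ofNat 0, .negSucc 1, .negSucc 1]), (true, [.ofNat 1, .ofNat 0, .ofNat 0, .ofNat 1, .ofNat 0, .ofNat 0, .ofNat 0, .ofNat 0, .ofNat 0, .negSucc 1, .negSucc 1])),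
  ((false, [.ofNat 0, .ofNat 0, .ofNat 0, .ofNat 0, .ofNat 0, .negSucc 0, .ofNat 0, .ofNat 2, .negSucc 0, .ofNat 2, .negSucc 0]), (true, [.ofNat 0, .ofNat 0, .ofNat 0, .ofNat 0, .ofNat 0, .negSucc 0, .ofNat 2, .ofNat 0, .negSucc 0, .ofNat 0, .negSucc 0])),
  ((false, [.negSucc 1, .ofNat 0, .ofNat 0, .ofNat 0, .ofNat 0, .ofNat 0, .ofNat 0, .ofNat 2, .ofNat 0, .ofNat 0, .negSucc 1]), (true, [.negSucc 1, .ofNat 0, .ofNat 0, .ofNat 0, .ofNat 0, .ofNat 1, .ofNat 1, .ofNat 0, .ofNat 0, .ofNat 0, .negSucc 1])),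
  ((true, [.ofNat 0, .ofNat 1, .ofNat 1, .negSucc 0, .ofNat 0, .ofNat 0, .negSucc 1, .ofNat 1, .ofNat 1, .negSucc 1, .ofNat 0]), (false, [.ofNat 0, .negSucc 0, .negSucc 0, .ofNat 2, .ofNat 1, .ofNat 1, .ofNat 0, .ofNat 1, .negSucc 1, .negSucc 1, .ofNat 0])),
  ((false, [.ofNat 0, .ofNat 1, .ofNat 0, .negSucc 1, .ofNat 1, .negSucc 0, .negSucc 0, .ofNat 2, .ofNat 0, .negSucc 1, .ofNat 1]), (false, [.ofNat 2, .ofNat 1, .negSucc 0, .ofNat 0, .ofNat 1, .negSucc 0, .ofNat 0, .ofNat 1, .negSucc 1, .negSucc 1, .ofNat 0])),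
  ((false, [.ofNat 0, .ofNat 0, .ofNat 0, .negSucc 1, .ofNat 0, .negSucc 1, .ofNat 0, .ofNat 2, .ofNat 2, .negSucc 1, .ofNat 0]), (true, [.ofNat 2, .ofNat 0, .negSucc 0, .ofNat 0, .ofNat 0, .negSucc 1, .ofNat 1, .ofNat 1, .ofNat 0, .negSucc 1, .ofNat 0])),
  ((false, [.ofNat 0, .ofNat 0, .ofNat 0, .negSucc 1, .ofNat 1, .negSucc 0, .ofNat 0, .ofNat 2, .ofNat 0, .negSucc 1, .ofNat 0]), (true, [.ofNat 0, .ofNat 0, .negSucc 1, .ofNat 0, .ofNat 1, .negSucc 0, .ofNat 2, .ofNat 2, .negSucc 1, .negSucc 1, .ofNat 0])),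
  ((false, [.ofNat 0, .ofNat 0, .ofNat 0, .negSucc 1, .ofNat 0, .negSucc 1, .ofNat 0, .ofNat 2, .ofNat 2, .ofNat 0, .ofNat 0]), (true, [.ofNat 0, .negSucc 0, .ofNat 0, .ofNat 0, .negSucc 0, .negSucc 0, .ofNat 1, .ofNat 0, .ofNat 2, .ofNat 0, .ofNat 0])),
  ((false, [.negSucc 1, .ofNat 0, .ofNat 0, .negSucc 1, .ofNat 0, .negSucc 0, .ofNat 0, .ofNat 2, .ofNat 2, .ofNat 0, .ofNat 0]), (true, [.negSucc 1, .negSucc 0, .negSucc 0, .ofNat 0, .ofNat 0, .ofNat 0, .ofNat 2, .ofNat 1, .ofNat 0, .ofNat 0, .ofNat 0])),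
  ((false, [.ofNat 0, .ofNat 2, .ofNat 0, .negSucc 1, .negSucc 1, .negSucc 1, .negSucc 1, .ofNat 2, .ofNat 4, .negSucc 1, .ofNat 0]), (true, [.ofNat 0, .ofNat 1, .negSucc 1, .negSucc 0, .ofNat 0, .negSucc 0, .ofNat 0, .ofNat 2, .ofNat 1, .negSucc 1, .ofNat 0])),
  ((false, [.ofNat 0, .ofNat 2, .ofNat 2, .negSucc 2, .negSucc 0, .negSucc 0, .negSucc 1, .ofNat 1, .ofNat 2, .ofNat 1, .negSucc 0]), (false, [.ofNat 2, .ofNat 1, .ofNat 1, .negSucc 0, .ofNat 0, .negSucc 0, .ofNat 0, .negSucc 0, .ofNat 0, .ofNat 0, .negSucc 0])),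
  ((false, [.ofNat 0, .ofNat 2, .ofNat 2, .negSucc 3, .negSucc 1, .negSucc 1, .negSucc 1, .ofNat 2, .ofNat 4, .ofNat 0, .negSucc 1]), (true, [.ofNat 1, .ofNat 1, .ofNat 1, .negSucc 0, .negSucc 0, .negSucc 0, .ofNat 0, .negSucc 0, .ofNat 2, .ofNat 0, .negSucc 1])),
  ((true, [.ofNat 1, .ofNat 0, .ofNat 1, .ofNat 1, .ofNat 0, .ofNat 0, .ofNat 1, .negSucc 0, .negSucc 0, .negSucc 1, .negSucc 1]), (false, [.ofNat 0, .ofNat 0, .ofNat 0, .ofNat 1, .negSucc 0, .ofNat 0, .ofNat 0, .ofNat 0, .ofNat 1, .negSucc 1, .negSucc 1])),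
  ((true, [.ofNat 0, .negSucc 0, .ofNat 1, .ofNat 1, .ofNat 0, .ofNat 0, .ofNat 2, .negSucc 0, .negSucc 0, .ofNat 0, .negSucc 1]), (false, [.ofNat 0, .ofNat 0, .ofNat 0, .negSucc 0, .negSucc 0, .negSucc 0, .ofNat 0, .ofNat 2, .ofNat 1, .ofNat 0, .negSucc 1])),
  ((true, [.ofNat 2, .ofNat 0, .negSucc 0, .ofNat 0, .ofNat 0, .negSucc 1, .ofNat 1, .ofNat 1, .ofNat 0, .ofNat 0, .negSucc 0]), (false, [.ofNat 0, .negSucc 0, .ofNat 0, .ofNat 0, .negSucc 0, .negSucc 0, .ofNat 1, .ofNat 0, .ofNat 2, .ofNat 0, .negSucc 0])),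
  ((true, [.ofNat 0, .ofNat 0, .negSucc 0, .ofNat 2, .ofNat 0, .ofNat 0, .ofNat 1, .ofNat 1, .negSucc 1, .ofNat 0, .negSucc 2]), (false, [.ofNat 0, .negSucc 0, .ofNat 0, .ofNat 0, .negSucc 0, .ofNat 1, .ofNat 1, .ofNat 0, .ofNat 0, .ofNat 0, .negSucc 2])),
  ((true, [.ofNat 1, .ofNat 2, .negSucc 0, .negSucc 0, .ofNat 0, .negSucc 0, .negSucc 0, .ofNat 1, .ofNat 1, .negSucc 3, .ofNat 0]), (false, [.ofNat 0, .ofNat 0, .negSucc 1, .ofNat 0, .ofNat 0, .ofNat 0, .ofNat 0, .ofNat 2, .ofNat 0, .negSucc 3, .ofNat 0])),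
  ((true, [.ofNat 0, .ofNat 1, .negSucc 0, .ofNat 0, .ofNat 1, .ofNat 0, .ofNat 0, .ofNat 0, .ofNat 0, .negSucc 4, .ofNat 0]), (false, [.ofNat 2, .ofNat 0, .negSucc 0, .ofNat 0, .ofNat 0, .ofNat 0, .ofNat 0, .ofNat 0, .ofNat 0, .negSucc 4, .ofNat 0])),
  ((true, [.ofNat 0, .negSucc 0, .negSucc 0, .ofNat 0, .ofNat 1, .negSucc 0, .ofNat 2, .ofNat 0, .ofNat 0, .negSucc 0, .ofNat 0]), (false, [.ofNat 0, .negSucc 1, .negSucc 1, .ofNat 0, .ofNat 0, .ofNat 0, .ofNat 2, .ofNat 1, .ofNat 0, .negSucc 0, .ofNat 0])),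
  ((true, [.ofNat 1, .ofNat 0, .ofNat 0, .negSucc 0, .negSucc 0, .negSucc 1, .ofNat 1, .ofNat 0, .ofNat 2, .ofNat 0, .ofNat 0]), (false, [.ofNat 0, .ofNat 0, .ofNat 0, .negSucc 2, .negSucc 0, .negSucc 1, .ofNat 0, .ofNat 2, .ofNat 3, .ofNat 0, .ofNat 0])),
  ((true, [.ofNat 0, .ofNat 1, .ofNat 0, .ofNat 1, .negSucc 0, .ofNat 0, .ofNat 0, .ofNat 0, .ofNat 0, .negSucc 1, .negSucc 1]), (false, [.ofNat 2, .ofNat 0, .ofNat 0, .ofNat 0, .negSucc 0, .ofNat 0, .ofNat 0, .ofNat 0, .ofNat 0, .negSucc 1, .negSucc 1])),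
  ((true, [.ofNat 1, .ofNat 2, .negSucc 0, .negSucc 0, .negSucc 1, .negSucc 1, .negSucc 0, .ofNat 1, .ofNat 3, .negSucc 1, .ofNat 0]), (false, [.ofNat 0, .ofNat 0, .negSucc 1, .negSucc 0, .negSucc 0, .ofNat 0, .ofNat 0, .ofNat 2, .ofNat 1, .negSucc 1, .ofNat 0])),
  ((true, [.ofNat 0, .ofNat 0, .negSucc 0, .ofNat 1, .negSucc 0, .negSucc 0, .ofNat 1, .ofNat 0, .ofNat 1, .negSucc 0, .negSucc 0]), (false, [.ofNat 2, .negSucc 0, .ofNat 0, .ofNat 1, .ofNat 0, .ofNat 0, .ofNat 1, .negSucc 0, .negSucc 0, .negSucc 0, .negSucc 0])),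
  ((true, [.ofNat 0, .ofNat 1, .ofNat 1, .ofNat 0, .negSucc 0, .ofNat 0, .ofNat 0, .ofNat 0, .ofNat 0, .negSucc 0, .negSucc 1]), (false, [.ofNat 1, .ofNat 0, .ofNat 0, .ofNat 1, .negSucc 0, .ofNat 0, .ofNat 0, .ofNat 0, .ofNat 0, .negSucc 0, .negSucc 1])),
  ((true, [.ofNat 1, .ofNat 1, .ofNat 0, .ofNat 0, .negSucc 0, .negSucc 0, .ofNat 0, .ofNat 1, .ofNat 0, .ofNat 0, .negSucc 1]), (false, [.ofNat 0, .ofNat 0, .ofNat 0, .ofNat 0, .negSucc 1, .ofNat 0, .ofNat 0, .ofNat 0, .ofNat 2, .ofNat 0, .negSucc 1])),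
  ((true, [.ofNat 0, .ofNat 2, .ofNat 0, .negSucc 0, .ofNat 0, .ofNat 0, .ofNat 0, .ofNat 0, .ofNat 0, .negSucc 3, .negSucc 0]), (false, [.ofNat 2, .ofNat 0, .ofNat 0, .negSucc 0, .ofNat 0, .ofNat 0, .ofNat 0, .ofNat 0, .ofNat 0, .negSucc 3, .negSucc 0])),
  ((true, [.negSucc 0, .ofNat 0, .ofNat 0, .ofNat 0, .ofNat 0, .ofNat 0, .ofNat 2, .ofNat 0, .negSucc 0, .ofNat 0, .negSucc 1]), (false, [.negSucc 0, .ofNat 0, .ofNat 0, .ofNat 0, .ofNat 0, .ofNat 1, .ofNat 0, .ofNat 1, .negSucc 0, .ofNat 0, .negSucc 1])),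
  ((true, [.negSucc 0, .ofNat 0, .ofNat 0, .ofNat 0, .ofNat 0, .ofNat 0, .ofNat 2, .negSucc 0, .ofNat 0, .negSucc 1, .negSucc 0]), (false, [.negSucc 0, .ofNat 0, .ofNat 0, .ofNat 0, .ofNat 0, .ofNat 2, .ofNat 0, .negSucc 0, .ofNat 0, .negSucc 1, .negSucc 0])),
  ((true, [.ofNat 0, .ofNat 0, .ofNat 0, .negSucc 0, .ofNat 0, .negSucc 0, .ofNat 2, .ofNat 0, .ofNat 0, .ofNat 0, .negSucc 0]), (false, [.ofNat 0, .ofNat 0, .ofNat 0, .negSucc 2, .negSucc 0, .negSucc 0, .ofNat 0, .ofNat 2, .ofNat 2, .ofNat 0, .negSucc 0])),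
  ((true, [.ofNat 0, .ofNat 1, .ofNat 1, .negSucc 1, .negSucc 0, .negSucc 0, .ofNat 1, .negSucc 0, .ofNat 2, .negSucc 1, .ofNat 0]), (false, [.ofNat 0, .ofNat 0, .ofNat 0, .negSucc 2, .negSucc 0, .ofNat 0, .ofNat 0, .ofNat 0, .ofNat 3, .negSucc 1, .ofNat 0])),
  ((true, [.ofNat 0, .ofNat 1, .negSucc 0, .ofNat 0, .ofNat 1, .ofNat 0, .ofNat 1, .ofNat 1, .negSucc 1, .negSucc 1, .negSucc 1]), (false, [.ofNat 0, .ofNat 0, .ofNat 0, .negSucc 1, .ofNat 0, .ofNat 0, .ofNat 0, .ofNat 2, .ofNat 0, .negSucc 1, .negSucc 1])),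
  ((true, [.ofNat 1, .ofNat 2, .negSucc 1, .negSucc 1, .ofNat 0, .negSucc 1, .ofNat 0, .ofNat 2, .ofNat 1, .negSucc 1, .ofNat 0]), (false, [.ofNat 0, .ofNat 1, .negSucc 0, .negSucc 2, .negSucc 0, .negSucc 0, .negSucc 0, .ofNat 3, .ofNat 2, .negSucc 1, .ofNat 0])),
  ((true, [.ofNat 0, .ofNat 1, .negSucc 1, .negSucc 0, .ofNat 1, .negSucc 0, .ofNat 1, .ofNat 1, .ofNat 0, .negSucc 2, .ofNat 0]), (false, [.ofNat 0, .negSucc 0, .negSucc 1, .ofNat 1, .ofNat 1, .ofNat 1, .ofNat 1, .ofNat 1, .negSucc 1, .negSucc 2, .ofNat 0])),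
  ((true, [.ofNat 0, .ofNat 1, .ofNat 0, .ofNat 0, .negSucc 1, .negSucc 0, .ofNat 1, .ofNat 0, .ofNat 1, .ofNat 0, .negSucc 1]), (false, [.ofNat 2, .ofNat 0, .ofNat 0, .ofNat 1, .negSucc 0, .ofNat 0, .ofNat 0, .ofNat 0, .negSucc 0, .ofNat 0, .negSucc 1])),
  ((true, [.ofNat 0, .ofNat 1, .negSucc 0, .ofNat 0, .negSucc 0, .negSucc 0, .ofNat 1, .negSucc 0, .ofNat 2, .negSucc 3, .ofNat 0]), (false, [.ofNat 0, .ofNat 0, .ofNat 0, .ofNat 1, .ofNat 1, .ofNat 2, .ofNat 0, .negSucc 1, .negSucc 0, .negSucc 3, .ofNat 0])),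
  ((true, [.ofNat 0, .ofNat 1, .negSucc 0, .ofNat 0, .negSucc 0, .negSucc 0, .ofNat 2, .ofNat 0, .ofNat 0, .negSucc 0, .negSucc 1]), (false, [.ofNat 0, .ofNat 0, .ofNat 0, .ofNat 2, .ofNat 0, .ofNat 2, .ofNat 0, .negSucc 0, .negSucc 1, .negSucc 0, .negSucc 1])),
  ((false, [.ofNat 3, .ofNat 0, .ofNat 3, .ofNat 1, .ofNat 0, .ofNat 0, .ofNat 0, .negSucc 2, .negSucc 0, .ofNat 0, .negSucc 2]), (true, [.ofNat 0, .ofNat 3, .ofNat 3, .negSucc 2, .negSucc 1, .negSucc 0, .negSucc 2, .ofNat 1, .ofNat 3, .ofNat 0, .negSucc 2])),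
  ((false, [.negSucc 1, .ofNat 0, .ofNat 0, .ofNat 3, .ofNat 1, .ofNat 3, .ofNat 0, .ofNat 0, .negSucc 3, .ofNat 0, .negSucc 2]), (true, [.negSucc 1, .ofNat 1, .negSucc 0, .negSucc 0, .negSucc 0, .negSucc 0, .ofNat 3, .ofNat 1, .ofNat 0, .ofNat 0, .negSucc 2])),
  ((false, [.ofNat 0, .ofNat 0, .ofNat 3, .ofNat 1, .ofNat 2, .ofNat 0, .ofNat 0, .negSucc 2, .negSucc 0, .ofNat 1, .ofNat 0]), (true, [.ofNat 1, .ofNat 3, .ofNat 3, .ofNat 0, .negSucc 0, .negSucc 0, .negSucc 2, .negSucc 1, .ofNat 2, .ofNat 0, .ofNat 0])),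
  ((true, [.ofNat 4, .ofNat 1, .ofNat 2, .ofNat 0, .negSucc 0, .negSucc 0, .negSucc 2, .negSucc 1, .ofNat 2, .ofNat 0, .ofNat 0]), (false, [.ofNat 0, .ofNat 1, .ofNat 2, .negSucc 2, .ofNat 0, .negSucc 0, .negSucc 2, .ofNat 1, .ofNat 3, .ofNat 1, .ofNat 0])),
  ((false, [.ofNat 0, .ofNat 0, .ofNat 0, .ofNat 3, .negSucc 0, .ofNat 0, .ofNat 0, .ofNat 0, .ofNat 0, .negSucc 1, .negSucc 2]), (true, [.ofNat 0, .ofNat 1, .ofNat 2, .ofNat 0, .negSucc 0, .ofNat 0, .ofNat 0, .ofNat 0, .ofNat 0, .negSucc 1, .negSucc 2])),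
  ((false, [.ofNat 2, .ofNat 0, .ofNat 0, .ofNat 0, .negSucc 1, .negSucc 2, .ofNat 0, .ofNat 0, .ofNat 4, .negSucc 1, .ofNat 0]), (true, [.ofNat 0, .negSucc 1, .negSucc 0, .ofNat 0, .ofNat 0, .negSucc 0, .ofNat 3, .ofNat 1, .ofNat 0, .negSucc 1, .ofNat 0])),
  ((false, [.ofNat 0, .ofNat 3, .ofNat 3, .ofNat 0, .negSucc 0, .ofNat 1, .negSucc 2, .negSucc 0, .ofNat 0, .ofNat 0, .negSucc 2]), (true, [.ofNat 0, .ofNat 3, .ofNat 0, .negSucc 0, .negSucc 2, .negSucc 2, .ofNat 0, .ofNat 0, .ofNat 4, .ofNat 0, .negSucc 2])),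
  ((false, [.ofNat 2, .ofNat 0, .ofNat 3, .ofNat 1, .ofNat 0, .ofNat 1, .negSucc 2, .negSucc 0, .ofNat 0, .negSucc 1, .ofNat 0]), (true, [.ofNat 0, .negSucc 2, .ofNat 0, .ofNat 4, .ofNat 2, .ofNat 3, .ofNat 0, .ofNat 0, .negSucc 3, .negSucc 1, .ofNat 0])),
  ((true, [.negSucc 0, .negSucc 0, .ofNat 1, .ofNat 1, .ofNat 1, .ofNat 1, .ofNat 3, .negSucc 0, .negSucc 2, .ofNat 0, .negSucc 2]), (false, [.negSucc 0, .ofNat 0, .ofNat 0, .negSucc 2, .negSucc 0, .ofNat 0, .ofNat 0, .ofNat 3, .ofNat 1, .ofNat 0, .negSucc 2])),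
  ((true, [.ofNat 0, .ofNat 2, .ofNat 1, .ofNat 0, .negSucc 1, .ofNat 0, .ofNat 0, .ofNat 0, .ofNat 0, .negSucc 0, .negSucc 2]), (false, [.ofNat 3, .ofNat 0, .ofNat 0, .ofNat 0, .negSucc 1, .ofNat 0, .ofNat 0, .ofNat 0, .ofNat 0, .negSucc 0, .negSucc 2]))]

/-- the 400 classes -/
noncomputable def cls : List (Mo × Mo) := cls0 ++ (cls1 ++ (cls2 ++ (cls3 ++ (cls4 ++ (cls5 ++ (cls6 ++ (cls7)))))))

/-- three monomials with `A + B = C` -/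
noncomputable def bp_0 : List (Mo × Mo × Mo) := [
  ((false, [.ofNat 0, .ofNat 0, .ofNat 0, .ofNat 0, .ofNat 1, .ofNat 0, .ofNat 0, .ofNat 0, .ofNat 0, .ofNat 0, .ofNat 0]), (false, [.ofNat 0, .ofNat 0, .ofNat 0, .ofNat 0, .ofNat 0, .ofNat 0, .ofNat 0, .ofNat 0, .ofNat 0, .ofNat 3, .ofNat 0]), (false, [.ofNat 1, .ofNat 0, .ofNat 0, .ofNat 0, .ofNat 0, .ofNat 0, .ofNat 0, .ofNat 0, .ofNat 0, .ofNat 0, .ofNat 0])),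
  ((false, [.ofNat 0, .ofNat 0, .ofNat 0, .ofNat 0, .ofNat 1, .ofNat 0, .ofNat 0, .ofNat 0, .ofNat 0, .ofNat 0, .ofNat 0]), (true, [.ofNat 0, .ofNat 0, .ofNat 0, .ofNat 0, .ofNat 0, .ofNat 0, .ofNat 0, .ofNat 0, .ofNat 0, .ofNat 4, .ofNat 0]), (false, [.ofNat 0, .ofNat 1, .ofNat 0, .ofNat 0, .ofNat 0, .ofNat 0, .ofNat 0, .ofNat 0, .ofNat 0, .ofNat 0, .ofNat 0])),
  ((false, [.ofNat 0, .ofNat 0, .ofNat 0, .ofNat 0, .ofNat 0, .ofNat 0, .ofNat 0, .ofNat 0, .ofNat 0, .ofNat 1, .ofNat 1]), (false, [.ofNat 0, .ofNat 0, .ofNat 0, .ofNat 1, .ofNat 0, .ofNat 0, .ofNat 0, .ofNat 0, .ofNat 0, .ofNat 0, .ofNat 0]), (false, [.ofNat 0, .ofNat 0, .ofNat 1, .ofNat 0, .ofNat 0, .ofNat 0, .ofNat 0, .ofNat 0, .ofNat 0, .ofNat 0, .ofNat 0])),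
  ((true, [.ofNat 0, .ofNat 0, .ofNat 0, .ofNat 0, .ofNat 0, .ofNat 0, .ofNat 0, .ofNat 0, .ofNat 0, .ofNat 2, .ofNat 1]), (false, [.ofNat 0, .ofNat 0, .ofNat 0, .ofNat 1, .ofNat 0, .ofNat 0, .ofNat 0, .ofNat 0, .ofNat 0, .ofNat 0, .ofNat 0]), (false, [.ofNat 0, .ofNat 1, .ofNat 0, .ofNat 0, .ofNat 0, .ofNat 0, .ofNat 0, .ofNat 0, .ofNat 0, .ofNat 0, .ofNat 0])),
  ((false, [.ofNat 0, .ofNat 0, .ofNat 0, .ofNat 0, .ofNat 0, .ofNat 0, .ofNat 0, .ofNat 0, .ofNat 0, .ofNat 2, .ofNat 1]), (false, [.ofNat 0, .ofNat 0, .ofNat 0, .ofNat 1, .ofNat 0, .ofNat 0, .ofNat 0, .ofNat 0, .ofNat 0, .ofNat 0, .ofNat 0]), (false, [.ofNat 1, .ofNat 0, .ofNat 0, .ofNat 0, .ofNat 0, .ofNat 0, .ofNat 0, .ofNat 0, .ofNat 0, .ofNat 0, .ofNat 0])),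
  ((true, [.ofNat 0, .ofNat 0, .ofNat 0, .ofNat 0, .ofNat 0, .ofNat 0, .ofNat 0, .ofNat 0, .ofNat 0, .ofNat 1, .ofNat 2]), (false, [.ofNat 0, .ofNat 0, .ofNat 1, .ofNat 0, .ofNat 0, .ofNat 0, .ofNat 0, .ofNat 0, .ofNat 0, .ofNat 0, .ofNat 0]), (false, [.ofNat 0, .ofNat 1, .ofNat 0, .ofNat 0, .ofNat 0, .ofNat 0, .ofNat 0, .ofNat 0, .ofNat 0, .ofNat 0, .ofNat 0])),
  ((false, [.ofNat 0, .ofNat 0, .ofNat 0, .ofNat 0, .ofNat 0, .ofNat 0, .ofNat 0, .ofNat 0, .ofNat 0, .ofNat 1, .ofNat 1]), (false, [.ofNat 0, .ofNat 0, .ofNat 1, .ofNat 0, .ofNat 0, .ofNat 0, .ofNat 0, .ofNat 0, .ofNat 0, .ofNat 0, .ofNat 0]), (false, [.ofNat 1, .ofNat 0, .ofNat 0, .ofNat 0, .ofNat 0, .ofNat 0, .ofNat 0, .ofNat 0, .ofNat 0, .ofNat 0, .ofNat 0])),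
  ((false, [.ofNat 0, .ofNat 0, .ofNat 0, .ofNat 0, .ofNat 0, .ofNat 0, .ofNat 0, .ofNat 0, .ofNat 0, .ofNat 3, .ofNat 1]), (false, [.ofNat 0, .ofNat 1, .ofNat 0, .ofNat 0, .ofNat 0, .ofNat 0, .ofNat 0, .ofNat 0, .ofNat 0, .ofNat 0, .ofNat 0]), (false, [.ofNat 1, .ofNat 0, .ofNat 0, .ofNat 0, .ofNat 0, .ofNat 0, .ofNat 0, .ofNat 0, .ofNat 0, .ofNat 0, .ofNat 0])),
  ((false, [.ofNat 0, .ofNat 0, .ofNat 0, .ofNat 0, .ofNat 0, .ofNat 0, .ofNat 0, .ofNat 0, .ofNat 1, .ofNat 0, .ofNat 0]), (false, [.ofNat 1, .ofNat 0, .ofNat 0, .ofNat 0, .ofNat 0, .ofNat 0, .ofNat 0, .ofNat 0, .ofNat 0, .ofNat 2, .ofNat 0]), (false, [.ofNat 0, .ofNat 0, .ofNat 0, .ofNat 0, .ofNat 0, .ofNat 1, .ofNat 0, .ofNat 0, .ofNat 0, .ofNat 0, .ofNat 0])),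
  ((false, [.ofNat 0, .ofNat 0, .ofNat 0, .ofNat 0, .ofNat 0, .ofNat 0, .ofNat 0, .ofNat 0, .ofNat 1, .ofNat 0, .ofNat 0]), (true, [.ofNat 1, .ofNat 0, .ofNat 0, .ofNat 0, .ofNat 0, .ofNat 0, .ofNat 0, .ofNat 0, .ofNat 0, .ofNat 1, .ofNat 0]), (false, [.ofNat 0, .ofNat 0, .ofNat 0, .ofNat 0, .ofNat 0, .ofNat 0, .ofNat 1, .ofNat 0, .ofNat 0, .ofNat 0, .ofNat 0])),
  ((true, [.ofNat 1, .ofNat 0, .ofNat 0, .ofNat 0, .ofNat 0, .ofNat 0, .ofNat 0, .ofNat 0, .ofNat 0, .ofNat 0, .ofNat 1]), (false, [.ofNat 0, .ofNat 0, .ofNat 0, .ofNat 0, .ofNat 0, .ofNat 0, .ofNat 0, .ofNat 1, .ofNat 0, .ofNat 0, .ofNat 0]), (false, [.ofNat 0, .ofNat 0, .ofNat 0, .ofNat 0, .ofNat 0, .ofNat 0, .ofNat 1, .ofNat 0, .ofNat 0, .ofNat 0, .ofNat 0])),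
  ((false, [.ofNat 1, .ofNat 0, .ofNat 0, .ofNat 0, .ofNat 0, .ofNat 0, .ofNat 0, .ofNat 0, .ofNat 0, .ofNat 0, .ofNat 1]), (false, [.ofNat 0, .ofNat 0, .ofNat 0, .ofNat 0, .ofNat 0, .ofNat 0, .ofNat 0, .ofNat 1, .ofNat 0, .ofNat 0, .ofNat 0]), (false, [.ofNat 0, .ofNat 0, .ofNat 0, .ofNat 0, .ofNat 0, .ofNat 1, .ofNat 0, .ofNat 0, .ofNat 0, .ofNat 0, .ofNat 0]))]

/-- three monomials with `A + B = C` -/
noncomputable def bp_1 : List (Mo × Mo × Mo) := [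
  ((false, [.ofNat 1, .ofNat 0, .ofNat 0, .ofNat 0, .ofNat 0, .ofNat 0, .ofNat 0, .ofNat 0, .ofNat 0, .ofNat 1, .ofNat 1]), (false, [.ofNat 0, .ofNat 0, .ofNat 0, .ofNat 0, .ofNat 0, .ofNat 0, .ofNat 1, .ofNat 0, .ofNat 0, .ofNat 0, .ofNat 0]), (false, [.ofNat 0, .ofNat 0, .ofNat 0, .ofNat 0, .ofNat 0, .ofNat 1, .ofNat 0, .ofNat 0, .ofNat 0, .ofNat 0, .ofNat 0])),
  ((false, [.ofNat 0, .ofNat 0, .ofNat 0, .ofNat 1, .ofNat 0, .ofNat 0, .ofNat 0, .ofNat 0, .ofNat 0, .ofNat 1, .ofNat 0]), (true, [.ofNat 1, .ofNat 0, .ofNat 0, .ofNat 0, .ofNat 0, .ofNat 0, .ofNat 0, .ofNat 0, .ofNat 0, .ofNat 0, .ofNat 0]), (false, [.ofNat 0, .ofNat 1, .ofNat 0, .ofNat 0, .ofNat 0, .ofNat 0, .ofNat 0, .ofNat 0, .ofNat 0, .ofNat 0, .ofNat 0])),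
  ((false, [.ofNat 0, .ofNat 0, .ofNat 0, .ofNat 1, .ofNat 0, .ofNat 0, .ofNat 0, .ofNat 0, .ofNat 0, .ofNat 0, .ofNat 1]), (true, [.ofNat 0, .ofNat 1, .ofNat 0, .ofNat 0, .ofNat 0, .ofNat 0, .ofNat 0, .ofNat 0, .ofNat 0, .ofNat 0, .ofNat 0]), (false, [.ofNat 0, .ofNat 0, .ofNat 1, .ofNat 0, .ofNat 0, .ofNat 0, .ofNat 0, .ofNat 0, .ofNat 0, .ofNat 1, .ofNat 0])),
  ((false, [.ofNat 0, .ofNat 0, .ofNat 0, .ofNat 0, .ofNat 0, .ofNat 0, .ofNat 0, .ofNat 1, .ofNat 0, .ofNat 1, .ofNat 0]), (true, [.ofNat 0, .ofNat 0, .ofNat 0, .ofNat 0, .ofNat 0, .ofNat 1, .ofNat 0, .ofNat 0, .ofNat 0, .ofNat 0, .ofNat 0]), (false, [.ofNat 0, .ofNat 0, .ofNat 0, .ofNat 0, .ofNat 0, .ofNat 0, .ofNat 1, .ofNat 0, .ofNat 0, .ofNat 0, .ofNat 0])),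
  ((false, [.ofNat 0, .ofNat 1, .ofNat 1, .ofNat 1, .ofNat 0, .ofNat 0, .ofNat 0, .ofNat 0, .ofNat 2, .ofNat 0, .ofNat 0]), (true, [.ofNat 0, .ofNat 0, .ofNat 0, .ofNat 0, .ofNat 1, .ofNat 1, .ofNat 1, .ofNat 1, .ofNat 0, .ofNat 0, .ofNat 0]), (false, [.ofNat 0, .ofNat 1, .ofNat 0, .ofNat 0, .ofNat 2, .ofNat 0, .ofNat 1, .ofNat 1, .ofNat 0, .ofNat 0, .ofNat 0])),
  ((false, [.ofNat 0, .ofNat 0, .ofNat 0, .ofNat 0, .ofNat 0, .ofNat 1, .ofNat 1, .ofNat 1, .ofNat 0, .ofNat 0, .ofNat 0]), (true, [.ofNat 0, .ofNat 1, .ofNat 1, .ofNat 1, .ofNat 0, .ofNat 0, .ofNat 0, .ofNat 0, .ofNat 1, .ofNat 0, .ofNat 0]), (false, [.ofNat 0, .ofNat 1, .ofNat 1, .ofNat 0, .ofNat 0, .ofNat 0, .ofNat 0, .ofNat 1, .ofNat 0, .ofNat 4, .ofNat 0])),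
  ((true, [.ofNat 2, .ofNat 0, .ofNat 1, .ofNat 1, .ofNat 0, .ofNat 0, .ofNat 0, .ofNat 0, .ofNat 0, .ofNat 0, .ofNat 0]), (false, [.ofNat 0, .ofNat 0, .ofNat 0, .ofNat 1, .ofNat 0, .ofNat 0, .ofNat 0, .ofNat 2, .ofNat 0, .ofNat 1, .ofNat 0]), (false, [.ofNat 0, .ofNat 1, .ofNat 0, .ofNat 0, .ofNat 0, .ofNat 0, .ofNat 0, .ofNat 1, .ofNat 1, .ofNat 0, .ofNat 0])),
  ((false, [.ofNat 0, .ofNat 0, .ofNat 0, .ofNat 2, .ofNat 0, .ofNat 0, .ofNat 0, .ofNat 1, .ofNat 0, .ofNat 0, .ofNat 0]), (true, [.ofNat 0, .ofNat 0, .ofNat 0, .ofNat 0, .ofNat 0, .ofNat 0, .ofNat 0, .ofNat 1, .ofNat 1, .ofNat 0, .ofNat 1]), (false, [.ofNat 0, .ofNat 0, .ofNat 1, .ofNat 1, .ofNat 0, .ofNat 0, .ofNat 1, .ofNat 0, .ofNat 0, .ofNat 0, .ofNat 0])),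
  ((false, [.ofNat 1, .ofNat 0, .ofNat 0, .ofNat 0, .ofNat 0, .ofNat 1, .ofNat 1, .ofNat 0, .ofNat 0, .ofNat 0, .ofNat 0]), (true, [.ofNat 0, .ofNat 1, .ofNat 1, .ofNat 0, .ofNat 0, .ofNat 1, .ofNat 0, .ofNat 0, .ofNat 0, .ofNat 2, .ofNat 0]), (false, [.ofNat 0, .ofNat 1, .ofNat 0, .ofNat 0, .ofNat 0, .ofNat 0, .ofNat 1, .ofNat 0, .ofNat 1, .ofNat 0, .ofNat 0])),
  ((false, [.ofNat 0, .ofNat 0, .ofNat 0, .ofNat 2, .ofNat 0, .ofNat 0, .ofNat 0, .ofNat 0, .ofNat 1, .ofNat 0, .ofNat 0]), (true, [.ofNat 0, .ofNat 0, .ofNat 0, .ofNat 0, .ofNat 0, .ofNat 0, .ofNat 0, .ofNat 1, .ofNat 1, .ofNat 1, .ofNat 0]), (false, [.ofNat 0, .ofNat 0, .ofNat 0, .ofNat 1, .ofNat 1, .ofNat 0, .ofNat 1, .ofNat 0, .ofNat 0, .ofNat 0, .ofNat 0])),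
  ((false, [.ofNat 2, .ofNat 0, .ofNat 0, .ofNat 0, .ofNat 0, .ofNat 0, .ofNat 1, .ofNat 0, .ofNat 0, .ofNat 0, .ofNat 0]), (false, [.ofNat 0, .ofNat 0, .ofNat 0, .ofNat 0, .ofNat 0, .ofNat 0, .ofNat 1, .ofNat 0, .ofNat 1, .ofNat 1, .ofNat 1]), (false, [.ofNat 0, .ofNat 1, .ofNat 1, .ofNat 0, .ofNat 0, .ofNat 1, .ofNat 0, .ofNat 0, .ofNat 0, .ofNat 0, .ofNat 0])),
  ((false, [.ofNat 0, .ofNat 0, .ofNat 0, .ofNat 0, .ofNat 0, .ofNat 0, .ofNat 0, .ofNat 2, .ofNat 1, .ofNat 0, .ofNat 0]), (false, [.ofNat 0, .ofNat 1, .ofNat 0, .ofNat 1, .ofNat 1, .ofNat 0, .ofNat 0, .ofNat 1, .ofNat 0, .ofNat 0, .ofNat 0]), (false, [.ofNat 0, .ofNat 0, .ofNat 1, .ofNat 2, .ofNat 0, .ofNat 0, .ofNat 0, .ofNat 0, .ofNat 1, .ofNat 1, .ofNat 0]))]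

/-- three monomials with `A + B = C` -/
noncomputable def bp_2 : List (Mo × Mo × Mo) := [
  ((false, [.ofNat 0, .ofNat 0, .ofNat 1, .ofNat 0, .ofNat 0, .ofNat 2, .ofNat 0, .ofNat 0, .ofNat 0, .ofNat 0, .ofNat 0]), (true, [.ofNat 0, .ofNat 0, .ofNat 1, .ofNat 0, .ofNat 1, .ofNat 1, .ofNat 0, .ofNat 0, .ofNat 0, .ofNat 0, .ofNat 2]), (false, [.ofNat 0, .ofNat 1, .ofNat 0, .ofNat 0, .ofNat 0, .ofNat 0, .ofNat 1, .ofNat 1, .ofNat 0, .ofNat 0, .ofNat 0])),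
  ((false, [.ofNat 0, .ofNat 0, .ofNat 1, .ofNat 0, .ofNat 0, .ofNat 0, .ofNat 0, .ofNat 2, .ofNat 0, .ofNat 2, .ofNat 0]), (true, [.ofNat 2, .ofNat 0, .ofNat 1, .ofNat 1, .ofNat 0, .ofNat 0, .ofNat 0, .ofNat 0, .ofNat 0, .ofNat 0, .ofNat 1]), (false, [.ofNat 0, .ofNat 1, .ofNat 0, .ofNat 0, .ofNat 0, .ofNat 0, .ofNat 1, .ofNat 1, .ofNat 0, .ofNat 0, .ofNat 0])),
  ((false, [.ofNat 0, .ofNat 0, .ofNat 0, .ofNat 0, .ofNat 0, .ofNat 0, .ofNat 0, .ofNat 1, .ofNat 1, .ofNat 0, .ofNat 0]), (false, [.ofNat 0, .ofNat 0, .ofNat 0, .ofNat 1, .ofNat 0, .ofNat 0, .ofNat 1, .ofNat 0, .ofNat 0, .ofNat 1, .ofNat 0]), (false, [.ofNat 1, .ofNat 0, .ofNat 0, .ofNat 2, .ofNat 0, .ofNat 0, .ofNat 0, .ofNat 0, .ofNat 0, .ofNat 0, .ofNat 0])),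
  ((true, [.ofNat 0, .ofNat 0, .ofNat 0, .ofNat 0, .ofNat 0, .ofNat 0, .ofNat 0, .ofNat 0, .ofNat 0, .ofNat 4, .ofNat 2]), (false, [.ofNat 0, .ofNat 0, .ofNat 0, .ofNat 2, .ofNat 0, .ofNat 0, .ofNat 0, .ofNat 0, .ofNat 0, .ofNat 0, .ofNat 0]), (false, [.ofNat 1, .ofNat 1, .ofNat 0, .ofNat 0, .ofNat 0, .ofNat 0, .ofNat 0, .ofNat 0, .ofNat 0, .ofNat 0, .ofNat 0])),
  ((true, [.ofNat 0, .ofNat 0, .ofNat 0, .ofNat 0, .ofNat 0, .ofNat 0, .ofNat 0, .ofNat 0, .ofNat 0, .ofNat 2, .ofNat 2]), (false, [.ofNat 0, .ofNat 0, .ofNat 2, .ofNat 0, .ofNat 0, .ofNat 0, .ofNat 0, .ofNat 0, .ofNat 0, .ofNat 0, .ofNat 0]), (false, [.ofNat 1, .ofNat 0, .ofNat 0, .ofNat 1, .ofNat 0, .ofNat 0, .ofNat 0, .ofNat 0, .ofNat 0, .ofNat 0, .ofNat 0])),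
  ((true, [.ofNat 2, .ofNat 0, .ofNat 0, .ofNat 0, .ofNat 0, .ofNat 0, .ofNat 0, .ofNat 0, .ofNat 0, .ofNat 0, .ofNat 2]), (false, [.ofNat 0, .ofNat 0, .ofNat 0, .ofNat 0, .ofNat 0, .ofNat 0, .ofNat 0, .ofNat 2, .ofNat 0, .ofNat 0, .ofNat 0]), (false, [.ofNat 0, .ofNat 0, .ofNat 0, .ofNat 0, .ofNat 0, .ofNat 1, .ofNat 1, .ofNat 0, .ofNat 0, .ofNat 0, .ofNat 0])),
  ((true, [.ofNat 1, .ofNat 0, .ofNat 0, .ofNat 0, .ofNat 0, .ofNat 0, .ofNat 0, .ofNat 0, .ofNat 0, .ofNat 1, .ofNat 1]), (false, [.ofNat 0, .ofNat 0, .ofNat 0, .ofNat 2, .ofNat 0, .ofNat 0, .ofNat 0, .ofNat 0, .ofNat 0, .ofNat 0, .ofNat 0]), (false, [.ofNat 0, .ofNat 1, .ofNat 1, .ofNat 0, .ofNat 0, .ofNat 0, .ofNat 0, .ofNat 0, .ofNat 0, .ofNat 0, .ofNat 0])),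
  ((false, [.ofNat 0, .ofNat 0, .ofNat 0, .ofNat 2, .ofNat 0, .ofNat 0, .ofNat 0, .ofNat 0, .ofNat 0, .ofNat 0, .ofNat 0]), (false, [.ofNat 0, .ofNat 0, .ofNat 0, .ofNat 0, .ofNat 1, .ofNat 0, .ofNat 0, .ofNat 0, .ofNat 0, .ofNat 1, .ofNat 2]), (false, [.ofNat 1, .ofNat 0, .ofNat 1, .ofNat 0, .ofNat 0, .ofNat 0, .ofNat 0, .ofNat 0, .ofNat 0, .ofNat 0, .ofNat 0])),
  ((false, [.ofNat 2, .ofNat 0, .ofNat 0, .ofNat 0, .ofNat 0, .ofNat 0, .ofNat 0, .ofNat 0, .ofNat 0, .ofNat 0, .ofNat 0]), (true, [.ofNat 0, .ofNat 0, .ofNat 0, .ofNat 1, .ofNat 0, .ofNat 0, .ofNat 0, .ofNat 0, .ofNat 0, .ofNat 4, .ofNat 1]), (false, [.ofNat 0, .ofNat 2, .ofNat 0, .ofNat 0, .ofNat 0, .ofNat 0, .ofNat 0, .ofNat 0, .ofNat 0, .ofNat 0, .ofNat 0])),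
  ((false, [.ofNat 2, .ofNat 0, .ofNat 0, .ofNat 0, .ofNat 0, .ofNat 0, .ofNat 0, .ofNat 0, .ofNat 0, .ofNat 0, .ofNat 0]), (true, [.ofNat 0, .ofNat 0, .ofNat 0, .ofNat 2, .ofNat 0, .ofNat 0, .ofNat 0, .ofNat 0, .ofNat 0, .ofNat 0, .ofNat 0]), (false, [.ofNat 0, .ofNat 0, .ofNat 1, .ofNat 0, .ofNat 0, .ofNat 0, .ofNat 0, .ofNat 0, .ofNat 0, .ofNat 3, .ofNat 1])),
  ((false, [.ofNat 0, .ofNat 0, .ofNat 0, .ofNat 2, .ofNat 0, .ofNat 0, .ofNat 0, .ofNat 0, .ofNat 0, .ofNat 0, .ofNat 0]), (true, [.ofNat 0, .ofNat 1, .ofNat 0, .ofNat 0, .ofNat 1, .ofNat 0, .ofNat 0, .ofNat 0, .ofNat 0, .ofNat 0, .ofNat 0]), (false, [.ofNat 0, .ofNat 0, .ofNat 1, .ofNat 0, .ofNat 0, .ofNat 0, .ofNat 0, .ofNat 0, .ofNat 0, .ofNat 3, .ofNat 0])),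
  ((false, [.ofNat 0, .ofNat 0, .ofNat 0, .ofNat 0, .ofNat 0, .ofNat 2, .ofNat 0, .ofNat 0, .ofNat 0, .ofNat 0, .ofNat 0]), (true, [.ofNat 1, .ofNat 0, .ofNat 0, .ofNat 0, .ofNat 0, .ofNat 0, .ofNat 0, .ofNat 1, .ofNat 0, .ofNat 2, .ofNat 1]), (false, [.ofNat 0, .ofNat 0, .ofNat 0, .ofNat 0, .ofNat 0, .ofNat 0, .ofNat 2, .ofNat 0, .ofNat 0, .ofNat 0, .ofNat 0]))]

/-- three monomials with `A + B = C` -/
noncomputable def bp_3 : List (Mo × Mo × Mo) := [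
  ((false, [.ofNat 0, .ofNat 1, .ofNat 0, .ofNat 2, .ofNat 1, .ofNat 0, .ofNat 1, .ofNat 1, .ofNat 0, .ofNat 0, .ofNat 0]), (false, [.ofNat 0, .ofNat 1, .ofNat 1, .ofNat 0, .ofNat 1, .ofNat 0, .ofNat 0, .ofNat 0, .ofNat 2, .ofNat 0, .ofNat 3]), (false, [.ofNat 0, .ofNat 0, .ofNat 1, .ofNat 0, .ofNat 0, .ofNat 1, .ofNat 1, .ofNat 0, .ofNat 2, .ofNat 0, .ofNat 0])),
  ((true, [.ofNat 0, .ofNat 0, .ofNat 1, .ofNat 0, .ofNat 1, .ofNat 0, .ofNat 0, .ofNat 0, .ofNat 0, .ofNat 0, .ofNat 0]), (false, [.ofNat 1, .ofNat 0, .ofNat 0, .ofNat 1, .ofNat 0, .ofNat 0, .ofNat 0, .ofNat 0, .ofNat 0, .ofNat 0, .ofNat 0]), (false, [.ofNat 0, .ofNat 1, .ofNat 0, .ofNat 0, .ofNat 0, .ofNat 0, .ofNat 0, .ofNat 0, .ofNat 0, .ofNat 1, .ofNat 0])),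
  ((true, [.ofNat 1, .ofNat 1, .ofNat 1, .ofNat 0, .ofNat 2, .ofNat 0, .ofNat 0, .ofNat 0, .ofNat 1, .ofNat 0, .ofNat 0]), (false, [.ofNat 0, .ofNat 0, .ofNat 0, .ofNat 1, .ofNat 1, .ofNat 1, .ofNat 1, .ofNat 1, .ofNat 0, .ofNat 0, .ofNat 0]), (false, [.ofNat 0, .ofNat 1, .ofNat 1, .ofNat 0, .ofNat 0, .ofNat 0, .ofNat 0, .ofNat 0, .ofNat 2, .ofNat 4, .ofNat 0])),
  ((true, [.ofNat 3, .ofNat 0, .ofNat 1, .ofNat 1, .ofNat 0, .ofNat 0, .ofNat 0, .ofNat 0, .ofNat 0, .ofNat 0, .ofNat 0]), (false, [.ofNat 0, .ofNat 0, .ofNat 1, .ofNat 0, .ofNat 1, .ofNat 1, .ofNat 0, .ofNat 1, .ofNat 0, .ofNat 0, .ofNat 0]), (false, [.ofNat 0, .ofNat 0, .ofNat 0, .ofNat 0, .ofNat 0, .ofNat 0, .ofNat 2, .ofNat 1, .ofNat 0, .ofNat 1, .ofNat 0])),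
  ((false, [.ofNat 0, .ofNat 0, .ofNat 0, .ofNat 0, .ofNat 1, .ofNat 0, .ofNat 0, .ofNat 1, .ofNat 1, .ofNat 2, .ofNat 2]), (false, [.ofNat 1, .ofNat 0, .ofNat 1, .ofNat 1, .ofNat 1, .ofNat 0, .ofNat 1, .ofNat 0, .ofNat 0, .ofNat 0, .ofNat 0]), (false, [.ofNat 0, .ofNat 0, .ofNat 0, .ofNat 1, .ofNat 0, .ofNat 0, .ofNat 0, .ofNat 1, .ofNat 2, .ofNat 0, .ofNat 0])),
  ((false, [.ofNat 0, .ofNat 0, .ofNat 0, .ofNat 0, .ofNat 1, .ofNat 0, .ofNat 0, .ofNat 0, .ofNat 0, .ofNat 1, .ofNat 2]), (false, [.ofNat 0, .ofNat 1, .ofNat 1, .ofNat 0, .ofNat 0, .ofNat 0, .ofNat 0, .ofNat 0, .ofNat 0, .ofNat 0, .ofNat 0]), (false, [.ofNat 1, .ofNat 0, .ofNat 0, .ofNat 1, .ofNat 0, .ofNat 0, .ofNat 0, .ofNat 0, .ofNat 0, .ofNat 0, .ofNat 0])),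
  ((false, [.ofNat 0, .ofNat 0, .ofNat 0, .ofNat 3, .ofNat 0, .ofNat 0, .ofNat 0, .ofNat 0, .ofNat 0, .ofNat 0, .ofNat 0]), (true, [.ofNat 0, .ofNat 0, .ofNat 0, .ofNat 0, .ofNat 1, .ofNat 0, .ofNat 0, .ofNat 0, .ofNat 0, .ofNat 2, .ofNat 3]), (false, [.ofNat 0, .ofNat 1, .ofNat 2, .ofNat 0, .ofNat 0, .ofNat 0, .ofNat 0, .ofNat 0, .ofNat 0, .ofNat 0, .ofNat 0]))]

/-- three monomials with `A + B = C` -/
noncomputable def bp : List (Mo × Mo × Mo) := bp_0 ++ (bp_1 ++ (bp_2 ++ (bp_3)))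

/-- the next classes -/
noncomputable def nxt : List (ℕ × ℕ) := [
  (20, 0), (21, 0), (22, 0), (16, 5), (23, 0), (24, 0), (17, 5), (25, 0),
  (18, 5), (19, 5), (35, 0), (36, 0), (32, 5), (37, 0), (33, 5), (34, 5),
  (39, 0), (40, 0), (41, 0), (38, 0), (45, 0), (46, 0), (42, 5), (47, 0),
  (43, 5), (44, 5), (54, 0), (55, 0), (51, 5), (56, 0), (52, 5), (53, 5),
  (58, 0), (59, 0), (57, 0), (62, 0), (60, 5), (61, 5), (63, 0), (65, 0),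
  (66, 0), (64, 0), (68, 0), (69, 0), (67, 0), (72, 0), (70, 5), (71, 5),
  (78, 0), (76, 5), (77, 5), (80, 0), (81, 0), (79, 0), (84, 0), (82, 5),
  (83, 5), (85, 0), (87, 0), (86, 0), (89, 0), (88, 0), (90, 5), (91, 0),
  (92, 0), (94, 0), (93, 0), (95, 0), (97, 0), (96, 0), (99, 0), (98, 0),
  (100, 5), (104, 0), (102, 5), (103, 5), (106, 0), (105, 0), (107, 5), (108, 0),
  (110, 0), (109, 0), (112, 0), (111, 0), (113, 5), (114, 0), (115, 0), (116, 0),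
  (117, 0), (118, 0), (119, 0), (120, 0), (121, 0), (122, 0), (0, 4), (123, 0),
  (124, 0), (1, 4), (125, 0), (2, 4), (3, 4), (127, 5), (129, 0), (128, 0),
  (130, 5), (131, 0), (132, 0), (133, 0), (134, 0), (135, 0), (4, 4), (136, 0),
  (5, 4), (6, 4), (137, 0), (138, 0), (10, 4), (139, 0), (11, 4), (12, 4),
  (140, 0), (141, 0), (26, 4), (142, 0), (27, 4), (28, 4), (143, 5), (144, 0),
  (145, 0), (7, 4), (8, 4), (146, 0), (13, 4), (14, 4), (147, 0), (29, 4),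
  (30, 4), (148, 0), (48, 4), (49, 4), (149, 0), (73, 4), (74, 4), (9, 4),
  (15, 4), (31, 4), (50, 4), (75, 4), (101, 4), (126, 4), (154, 5), (155, 0),
  (159, 5), (163, 0), (165, 0), (164, 5), (170, 0), (169, 5), (171, 5), (173, 0),
  (176, 5), (178, 0), (177, 5), (179, 0), (180, 0), (181, 0), (183, 5), (184, 5),
  (186, 0), (188, 0), (189, 0), (187, 5), (190, 5), (150, 4), (192, 5), (193, 0),
  (195, 0), (196, 5), (194, 5), (197, 0), (153, 4), (198, 0), (203, 5), (206, 0),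
  (205, 5), (208, 5), (209, 0), (210, 0), (211, 0), (212, 5), (214, 5), (218, 0),
  (220, 0), (219, 5), (221, 0), (222, 0), (223, 0), (224, 0), (225, 0), (227, 0),
  (191, 4), (228, 5), (229, 0), (215, 4), (230, 5), (156, 4), (231, 0), (232, 5),
  (233, 5), (234, 5), (168, 4), (236, 0), (235, 5), (157, 4), (160, 4), (238, 0),
  (239, 0), (166, 4), (240, 5), (199, 4), (241, 0), (202, 4), (242, 0), (174, 4),
  (243, 5), (244, 0), (216, 4), (246, 0), (237, 4), (248, 0), (250, 5), (200, 4),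
  (252, 5), (253, 0), (254, 5), (255, 0), (226, 4), (161, 4), (175, 4), (256, 5),
  (257, 0), (258, 5), (259, 5), (151, 4), (152, 4), (158, 4), (182, 4), (167, 4),
  (201, 4), (162, 4), (185, 4), (172, 4), (204, 4), (207, 4), (245, 4), (247, 4),
  (213, 4), (217, 4), (249, 4), (251, 4), (264, 0), (263, 5), (273, 0), (275, 0),
  (274, 5), (276, 0), (280, 0), (283, 0), (279, 5), (284, 0), (285, 0), (281, 5),
  (282, 5), (286, 5), (287, 0), (288, 5), (291, 5), (294, 0), (293, 5), (295, 0),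
  (299, 0), (300, 0), (296, 5), (301, 0), (298, 5), (297, 5), (302, 0), (304, 0),
  (305, 0), (308, 5), (312, 5), (313, 0), (320, 0), (321, 0), (322, 5), (324, 0),
  (326, 0), (325, 0), (327, 0), (328, 5), (330, 5), (329, 5), (331, 0), (334, 5),
  (335, 0), (336, 0), (337, 0), (338, 5), (339, 0), (340, 5), (342, 0), (306, 4),
  (345, 5), (347, 0), (351, 0), (352, 0), (289, 4), (266, 4), (349, 5), (350, 5),
  (354, 5), (355, 0), (356, 0), (357, 0), (360, 0), (361, 0), (358, 5), (362, 0),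
  (314, 4), (260, 4), (359, 5), (363, 0), (364, 5), (310, 4), (315, 4), (267, 4),
  (365, 5), (367, 0), (323, 4), (369, 0), (332, 4), (371, 5), (372, 0), (268, 4),
  (374, 5), (376, 5), (377, 5), (269, 4), (379, 5), (380, 0), (381, 0), (382, 0),
  (383, 0), (384, 0), (261, 4), (386, 0), (262, 4), (387, 5), (388, 0), (270, 4),
  (353, 4), (271, 4), (265, 4), (277, 4), (389, 0), (292, 4), (307, 4), (309, 4),
  (272, 4), (316, 4), (278, 4), (368, 4), (366, 4), (290, 4), (317, 4), (311, 4),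
  (373, 4), (318, 4), (319, 4), (343, 4), (346, 4), (370, 4), (344, 4), (303, 4),
  (348, 4), (341, 4), (378, 4), (333, 4), (385, 4), (375, 4), (391, 0), (392, 5),
  (394, 0), (396, 0), (393, 4), (390, 4), (398, 0), (399, 5), (397, 4), (395, 4)]

/-- the origin of the classes -/
noncomputable def rk : List (ℕ × ℕ × ℕ) := [
  (6, 94, 0), (6, 97, 0), (1, 99, 0), (1, 100, 0), (1, 110, 0), (1, 112, 0), (1, 113, 0), (1, 129, 0),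
  (1, 130, 0), (1, 143, 0), (6, 116, 0), (1, 118, 0), (1, 119, 0), (1, 132, 0), (1, 133, 0), (1, 144, 0),
  (2, 3, 0), (2, 6, 0), (2, 8, 0), (2, 9, 0), (7, 0, 0), (7, 1, 0), (2, 2, 0), (2, 4, 0),
  (2, 5, 0), (2, 7, 0), (7, 122, 0), (7, 124, 0), (7, 125, 0), (7, 135, 0), (2, 136, 0), (7, 145, 0),
  (2, 12, 0), (2, 14, 0), (2, 15, 0), (7, 10, 0), (2, 11, 0), (2, 13, 0), (3, 19, 0), (3, 16, 0),
  (3, 17, 0), (3, 18, 0), (3, 22, 0), (3, 24, 0), (3, 25, 0), (8, 20, 0), (8, 21, 0), (3, 23, 0),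
  (7, 138, 0), (7, 139, 0), (2, 146, 0), (8, 28, 0), (3, 30, 0), (8, 31, 0), (8, 26, 0), (8, 27, 0),
  (8, 29, 0), (3, 34, 0), (3, 32, 0), (3, 33, 0), (3, 36, 0), (3, 37, 0), (8, 35, 0), (4, 38, 0),
  (4, 41, 0), (4, 39, 0), (4, 40, 0), (4, 44, 0), (4, 42, 0), (4, 43, 0), (9, 46, 0), (4, 47, 0),
  (9, 45, 0), (8, 141, 0), (8, 142, 0), (3, 147, 0), (8, 49, 0), (3, 50, 0), (8, 48, 0), (9, 53, 0),
  (9, 51, 0), (4, 52, 0), (9, 55, 0), (9, 56, 0), (9, 54, 0), (4, 57, 0), (4, 59, 0), (4, 58, 0),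
  (4, 61, 0), (4, 60, 0), (9, 62, 0), (5, 63, 0), (5, 64, 0), (5, 66, 0), (5, 65, 0), (5, 67, 0),
  (5, 69, 0), (5, 68, 0), (5, 71, 0), (0, 1, 5), (0, 0, 5), (8, 148, 0), (9, 74, 0), (4, 75, 0),
  (9, 73, 0), (4, 77, 0), (9, 76, 0), (9, 78, 0), (0, 14, 5), (5, 81, 0), (0, 2, 3), (0, 13, 5),
  (0, 3, 3), (0, 4, 3), (5, 85, 0), (5, 86, 0), (5, 87, 0), (5, 88, 0), (0, 9, 5), (0, 8, 5),
  (6, 91, 0), (6, 92, 0), (6, 93, 0), (6, 95, 0), (6, 96, 0), (6, 98, 0), (9, 149, 0), (9, 101, 0),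
  (5, 103, 0), (0, 5, 3), (0, 6, 3), (0, 15, 5), (0, 10, 3), (0, 11, 3), (1, 108, 0), (6, 109, 0),
  (1, 111, 0), (6, 114, 0), (6, 115, 0), (6, 117, 0), (7, 120, 0), (7, 121, 0), (7, 123, 0), (0, 7, 3),
  (0, 12, 3), (6, 128, 0), (1, 131, 0), (2, 134, 0), (7, 137, 0), (8, 140, 0), (5, 173, 0), (2, 243, 0),
  (2, 244, 0), (6, 180, 0), (6, 150, 0), (3, 151, 0), (0, 18, 0), (7, 213, 0), (2, 245, 0), (3, 152, 0),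
  (7, 214, 0), (2, 237, 0), (4, 249, 0), (7, 153, 0), (4, 155, 0), (7, 154, 0), (2, 217, 0), (7, 247, 0),
  (6, 210, 0), (8, 157, 0), (1, 156, 0), (3, 158, 0), (4, 251, 0), (4, 159, 0), (8, 223, 0), (7, 238, 0),
  (8, 160, 0), (5, 162, 0), (3, 161, 0), (8, 163, 0), (5, 164, 0), (8, 165, 0), (3, 246, 0), (3, 166, 0),
  (8, 167, 0), (6, 250, 0), (7, 168, 0), (4, 171, 0), (9, 169, 0), (2, 170, 0), (5, 172, 0), (7, 200, 0),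
  (9, 174, 0), (8, 175, 0), (4, 178, 0), (9, 176, 0), (6, 177, 0), (9, 179, 0), (9, 181, 0), (0, 25, 1),
  (6, 231, 0), (9, 248, 0), (6, 221, 0), (4, 182, 0), (3, 252, 0), (9, 184, 0), (4, 183, 0), (0, 26, 4),
  (7, 185, 0), (8, 186, 0), (5, 187, 0), (0, 19, 5), (3, 189, 0), (6, 256, 0), (6, 190, 0), (5, 203, 0),
  (3, 226, 0), (1, 257, 0), (8, 191, 0), (9, 193, 0), (0, 23, 2), (5, 194, 0), (0, 21, 5), (7, 196, 0),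
  (0, 17, 1), (0, 16, 5), (2, 236, 0), (1, 199, 0), (0, 22, 4), (7, 202, 0), (4, 204, 0), (5, 206, 0),
  (1, 207, 0), (8, 208, 0), (9, 209, 0), (4, 212, 0), (1, 211, 0), (1, 228, 0), (6, 215, 0), (4, 216, 0),
  (9, 218, 0), (1, 220, 0), (1, 222, 0), (1, 224, 0), (1, 225, 0), (1, 254, 0), (2, 227, 0), (6, 255, 0),
  (8, 229, 0), (3, 258, 0), (5, 230, 0), (3, 259, 0), (2, 232, 0), (9, 233, 0), (0, 20, 4), (5, 235, 0),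
  (5, 239, 0), (0, 24, 4), (2, 241, 0), (2, 242, 0), (1, 329, 0), (1, 354, 0), (1, 356, 0), (2, 261, 0),
  (2, 260, 0), (2, 362, 0), (7, 317, 0), (7, 335, 0), (2, 343, 0), (7, 347, 0), (2, 359, 0), (7, 361, 0),
  (7, 368, 0), (2, 262, 0), (3, 264, 0), (3, 263, 0), (3, 265, 0), (7, 363, 0), (2, 370, 0), (3, 268, 0),
  (8, 266, 0), (8, 271, 0), (8, 272, 0), (8, 267, 0), (8, 269, 0), (3, 270, 0), (3, 273, 0), (4, 274, 0),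
  (4, 275, 0), (2, 316, 0), (3, 373, 0), (4, 276, 0), (8, 365, 0), (3, 278, 0), (8, 277, 0), (4, 279, 0),
  (9, 282, 0), (4, 285, 0), (9, 284, 0), (9, 280, 0), (9, 281, 0), (9, 283, 0), (4, 286, 0), (0, 38, 0),
  (5, 287, 0), (5, 288, 0), (0, 39, 0), (1, 366, 0), (3, 289, 0), (3, 367, 0), (7, 333, 0), (9, 375, 0),
  (4, 290, 0), (5, 291, 0), (1, 328, 0), (2, 334, 0), (1, 369, 0), (6, 374, 0), (1, 377, 0), (8, 378, 0),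
  (9, 292, 0), (4, 293, 0), (9, 294, 0), (3, 338, 0), (5, 295, 0), (5, 297, 0), (0, 34, 0), (0, 30, 3),
  (0, 31, 5), (0, 27, 3), (0, 33, 1), (5, 302, 0), (5, 340, 0), (6, 387, 0), (1, 303, 0), (6, 304, 0),
  (6, 305, 0), (1, 306, 0), (2, 307, 0), (4, 308, 0), (4, 309, 0), (4, 385, 0), (8, 310, 0), (1, 379, 0),
  (4, 382, 0), (0, 37, 0), (4, 380, 0), (6, 313, 0), (9, 384, 0), (2, 318, 0), (9, 319, 0), (2, 314, 0),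
  (3, 315, 0), (7, 360, 0), (0, 28, 3), (5, 321, 0), (0, 29, 3), (4, 323, 0), (1, 326, 0), (1, 330, 0),
  (6, 324, 0), (6, 325, 0), (1, 327, 0), (6, 331, 0), (6, 332, 0), (7, 336, 0), (0, 40, 3), (2, 337, 0),
  (6, 371, 0), (0, 36, 5), (1, 381, 0), (5, 341, 0), (9, 342, 0), (2, 376, 0), (5, 344, 0), (8, 389, 0),
  (1, 345, 0), (0, 41, 3), (7, 386, 0), (0, 32, 4), (3, 349, 0), (0, 35, 4), (3, 351, 0), (4, 352, 0),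
  (8, 353, 0), (3, 388, 0), (6, 355, 0), (5, 357, 0), (2, 358, 0), (7, 364, 0), (7, 395, 0), (8, 390, 0),
  (9, 391, 0), (1, 394, 0), (0, 42, 5), (6, 399, 0), (2, 393, 0), (4, 398, 0), (3, 396, 0), (5, 397, 0)]

lemma cls_len : cls.length = 400 := by decide +kernel

lemma bp_len : bp.length = 43 := by decide +kernel

/-- the coefficients of the logarithmic derivatives -/
def kap : Fin 11 → Fin 10 → ℤ :=
  ![![.ofNat 0, .ofNat 0, .ofNat 0, .ofNat 0, .ofNat 0, .ofNat 0, .ofNat 0, .ofNat 0, .ofNat 0, .negSucc 3317759],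
    ![.ofNat 0, .negSucc 428543, .negSucc 27647, .negSucc 41471, .ofNat 82944, .ofNat 207360, .ofNat 193536, .ofNat 594432, .ofNat 165888, .ofNat 1119744],
    ![.ofNat 0, .ofNat 138240, .ofNat 0, .ofNat 0, .ofNat 0, .ofNat 0, .ofNat 0, .ofNat 0, .ofNat 0, .ofNat 138240],
    ![.ofNat 0, .ofNat 178560, .ofNat 46080, .ofNat 86400, .ofNat 11520, .negSucc 17279, .negSucc 46079, .negSucc 109439, .negSucc 69119, .negSucc 92159],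
    ![.ofNat 0, .negSucc 57599, .negSucc 5759, .negSucc 23039, .negSucc 11519, .negSucc 17279, .negSucc 11519, .negSucc 23039, .negSucc 5759, .negSucc 57599],
    ![.ofNat 0, .negSucc 26039, .negSucc 14639, .negSucc 19799, .negSucc 10319, .negSucc 7559, .ofNat 240, .ofNat 1560, .ofNat 10080, .negSucc 3959],
    ![.ofNat 0, .ofNat 8400, .ofNat 2160, .ofNat 5760, .ofNat 3840, .ofNat 5040, .ofNat 3840, .ofNat 5760, .ofNat 2160, .ofNat 8400],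
    ![.ofNat 0, .ofNat 1550, .ofNat 1660, .ofNat 1470, .ofNat 1220, .ofNat 930, .ofNat 440, .ofNat 490, .negSucc 599, .ofNat 710],
    ![.ofNat 0, .negSucc 499, .negSucc 259, .negSucc 439, .negSucc 379, .negSucc 419, .negSucc 379, .negSucc 439, .negSucc 259, .negSucc 499],
    ![.ofNat 0, .negSucc 30, .negSucc 61, .negSucc 32, .negSucc 33, .negSucc 24, .negSucc 15, .negSucc 16, .ofNat 12, .negSucc 18],
    ![.ofNat 0, .ofNat 10, .ofNat 10, .ofNat 10, .ofNat 10, .ofNat 10, .ofNat 10, .ofNat 10, .ofNat 10, .ofNat 10]]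

/-- the exponents of `2` -/
def nu2 : Fin 10 → ℤ := ![.ofNat 0, .negSucc 20, .negSucc 23, .negSucc 8, .negSucc 15, .negSucc 24, .negSucc 15, .negSucc 8, .negSucc 23, .negSucc 20]

/-- the exponents of `3` -/
def nu3 : Fin 10 → ℤ := ![.ofNat 0, .negSucc 7, .negSucc 11, .negSucc 11, .negSucc 7, .ofNat 0, .negSucc 7, .negSucc 11, .negSucc 11, .negSucc 7]

end Pool.Agent.KXa
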