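import Pool.Agent.Lib_helper72.KX.Nf
import Pool.Agent.Lib_helper72.KXa.ClD
import Pool.Agent.Lib_helper72.KXa.C

/-!
# The curve with `b = 24`, `c = 6`: the classes under translation
-/

set_option autoImplicit false

namespace Pool.Agent.KXa

open KX KC72

/-- the packed generators at the next point -/
noncomputable def ptd : PT := ⟨512, 633825300114114700748351602688, 6, 11, [
  1,
  512,
  262144,
  134217728,
  68719476736,
  35184372088832,
  18014398509481984,
  9223372036854775808,
  4722366482869645213696,
  2417851639229258349412352,
  1237940039285380274899124224], [
  1245193594203103234319450110,
  1245193594221117632828931582,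
  1240357900165995968612532222,
  1242780474153693697963720702,
  7262999650653445619187710,
  2490387188424185682776292861,
  2485551494369099202931981821,
  2483138365096317629721477117,
  1250038751437864273937694717,
  2417851639229258349412352,
  1237940039285380274899124224],
  [false, true, true, true, true, false, true, true, true, false, false]⟩

lemma ptO : ptd.Ok T8 where
  PB := by decide +kernel
  R := by decide +kernel
  S := by decide +kernel
  bT := by decide +kernel
  lT := by decide +kernel
  bN := by decide +kernel
  b0 := by decide +kernel

lemma nx_ok : ∀ c < cls.length, nxC T8 cls nxt c = true := nx_of ptO (by decide +kernel)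

lemma rk_ok : ∀ c < cls.length, rkC bp cls nxt rk c = true := rk_of cls_len (by decide +kernel)

end Pool.Agent.KXa
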