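import Pool.Agent.Lib_helper72.KXa.C

/-!
# The curve with `b = 24`, `c = 6`: identities
-/

set_option autoImplicit false
set_option linter.unusedSectionVars false
set_option linter.unusedSimpArgs false
set_option linter.unusedVariables false

namespace Pool.Agent.KXa

open Polynomial WeierstrassCurve.Affine WithZero TN KX KC72

section

variable {k : Type*} [Field k] [CharZero k] {F : Type*} [Field F] [Algebra k F] {x y : F}


lemma bp0 (h : Gen (24 : k) 6 x y) :
    KC72.ev (List.ofFn (G8 x y)) (false, [0, 0, 0, 0, 1, 0, 0, 0, 0, 0, 0]) + KC72.ev (List.ofFn (G8 x y)) (false, [0, 0, 0, 0, 0, 0, 0, 0, 0, 3, 0]) =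
      KC72.ev (List.ofFn (G8 x y)) (false, [1, 0, 0, 0, 0, 0, 0, 0, 0, 0, 0]) := by
  have := cz (k := k) (F := F)
  have he := Gen.eq' h
  have v1 : KC72.ev (List.ofFn (G8 x y)) (false, [0, 0, 0, 0, 1, 0, 0, 0, 0, 0, 0]) = (1) * (x - 8) ^ 1 := by
    rw [ev_G8 (k := k)]
    simp [M8, Fin.prod_univ_succ, uF, zpow_ofNat, map_ofNat]
    all_goals first
      | done
      | ring1
      | (left; norm_num; done)
      | (norm_num; done)
      | (norm_num; ring1)
  have v2 : KC72.ev (List.ofFn (G8 x y)) (false, [0, 0, 0, 0, 0, 0, 0, 0, 0, 3, 0]) = (8) := by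
    rw [ev_G8 (k := k)]
    simp [M8, Fin.prod_univ_succ, uF, zpow_ofNat, map_ofNat]
    all_goals first
      | done
      | ring1
      | (left; norm_num; done)
      | (norm_num; done)
      | (norm_num; ring1)
  have v3 : KC72.ev (List.ofFn (G8 x y)) (false, [1, 0, 0, 0, 0, 0, 0, 0, 0, 0, 0]) = (1) * (x) ^ 1 := by
    rw [ev_G8 (k := k)]
    simp [M8, Fin.prod_univ_succ, uF, zpow_ofNat, map_ofNat]
    all_goals first
      | done
      | ring1
      | (left; norm_num; done)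
      | (norm_num; done)
      | (norm_num; ring1)
  rw [v1, v2, v3]
  linear_combination (0) * he


lemma bp1 (h : Gen (24 : k) 6 x y) :
    KC72.ev (List.ofFn (G8 x y)) (false, [0, 0, 0, 0, 1, 0, 0, 0, 0, 0, 0]) + KC72.ev (List.ofFn (G8 x y)) (true, [0, 0, 0, 0, 0, 0, 0, 0, 0, 4, 0]) =
      KC72.ev (List.ofFn (G8 x y)) (false, [0, 1, 0, 0, 0, 0, 0, 0, 0, 0, 0]) := by
  have := cz (k := k) (F := F)
  have he := Gen.eq' h
  have v1 : KC72.ev (List.ofFn (G8 x y)) (false, [0, 0, 0, 0, 1, 0, 0, 0, 0, 0, 0]) = (1) * (x - 8) ^ 1 := by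
    rw [ev_G8 (k := k)]
    simp [M8, Fin.prod_univ_succ, uF, zpow_ofNat, map_ofNat]
    all_goals first
      | done
      | ring1
      | (left; norm_num; done)
      | (norm_num; done)
      | (norm_num; ring1)
  have v2 : KC72.ev (List.ofFn (G8 x y)) (true, [0, 0, 0, 0, 0, 0, 0, 0, 0, 4, 0]) = (-16) := by
    rw [ev_G8 (k := k)]
    simp [M8, Fin.prod_univ_succ, uF, zpow_ofNat, map_ofNat]
    all_goals first
      | done
      | ring1
      | (left; norm_num; done)
      | (norm_num; done)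
      | (norm_num; ring1)
  have v3 : KC72.ev (List.ofFn (G8 x y)) (false, [0, 1, 0, 0, 0, 0, 0, 0, 0, 0, 0]) = (1) * (x - 24) ^ 1 := by
    rw [ev_G8 (k := k)]
    simp [M8, Fin.prod_univ_succ, uF, zpow_ofNat, map_ofNat]
    all_goals first
      | done
      | ring1
      | (left; norm_num; done)
      | (norm_num; done)
      | (norm_num; ring1)
  rw [v1, v2, v3]
  linear_combination (0) * he


lemma bp2 (h : Gen (24 : k) 6 x y) :
    KC72.ev (List.ofFn (G8 x y)) (false, [0, 0, 0, 0, 0, 0, 0, 0, 0, 1, 1]) + KC72.ev (List.ofFn (G8 x y)) (false, [0, 0, 0, 1, 0, 0, 0, 0, 0, 0, 0]) =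
      KC72.ev (List.ofFn (G8 x y)) (false, [0, 0, 1, 0, 0, 0, 0, 0, 0, 0, 0]) := by
  have := cz (k := k) (F := F)
  have he := Gen.eq' h
  have v1 : KC72.ev (List.ofFn (G8 x y)) (false, [0, 0, 0, 0, 0, 0, 0, 0, 0, 1, 1]) = (6) := by
    rw [ev_G8 (k := k)]
    simp [M8, Fin.prod_univ_succ, uF, zpow_ofNat, map_ofNat]
    all_goals first
      | done
      | ring1
      | (left; norm_num; done)
      | (norm_num; done)
      | (norm_num; ring1)
  have v2 : KC72.ev (List.ofFn (G8 x y)) (false, [0, 0, 0, 1, 0, 0, 0, 0, 0, 0, 0]) = (1) * (x - 12) ^ 1 := by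
    rw [ev_G8 (k := k)]
    simp [M8, Fin.prod_univ_succ, uF, zpow_ofNat, map_ofNat]
    all_goals first
      | done
      | ring1
      | (left; norm_num; done)
      | (norm_num; done)
      | (norm_num; ring1)
  have v3 : KC72.ev (List.ofFn (G8 x y)) (false, [0, 0, 1, 0, 0, 0, 0, 0, 0, 0, 0]) = (1) * (x - 6) ^ 1 := by
    rw [ev_G8 (k := k)]
    simp [M8, Fin.prod_univ_succ, uF, zpow_ofNat, map_ofNat]
    all_goals first
      | done
      | ring1
      | (left; norm_num; done)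
      | (norm_num; done)
      | (norm_num; ring1)
  rw [v1, v2, v3]
  linear_combination (0) * he


lemma bp3 (h : Gen (24 : k) 6 x y) :
    KC72.ev (List.ofFn (G8 x y)) (true, [0, 0, 0, 0, 0, 0, 0, 0, 0, 2, 1]) + KC72.ev (List.ofFn (G8 x y)) (false, [0, 0, 0, 1, 0, 0, 0, 0, 0, 0, 0]) =
      KC72.ev (List.ofFn (G8 x y)) (false, [0, 1, 0, 0, 0, 0, 0, 0, 0, 0, 0]) := by
  have := cz (k := k) (F := F)
  have he := Gen.eq' h
  have v1 : KC72.ev (List.ofFn (G8 x y)) (true, [0, 0, 0, 0, 0, 0, 0, 0, 0, 2, 1]) = (-12) := by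
    rw [ev_G8 (k := k)]
    simp [M8, Fin.prod_univ_succ, uF, zpow_ofNat, map_ofNat]
    all_goals first
      | done
      | ring1
      | (left; norm_num; done)
      | (norm_num; done)
      | (norm_num; ring1)
  have v2 : KC72.ev (List.ofFn (G8 x y)) (false, [0, 0, 0, 1, 0, 0, 0, 0, 0, 0, 0]) = (1) * (x - 12) ^ 1 := by
    rw [ev_G8 (k := k)]
    simp [M8, Fin.prod_univ_succ, uF, zpow_ofNat, map_ofNat]
    all_goals first
      | done
      | ring1
      | (left; norm_num; done)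
      | (norm_num; done)
      | (norm_num; ring1)
  have v3 : KC72.ev (List.ofFn (G8 x y)) (false, [0, 1, 0, 0, 0, 0, 0, 0, 0, 0, 0]) = (1) * (x - 24) ^ 1 := by
    rw [ev_G8 (k := k)]
    simp [M8, Fin.prod_univ_succ, uF, zpow_ofNat, map_ofNat]
    all_goals first
      | done
      | ring1
      | (left; norm_num; done)
      | (norm_num; done)
      | (norm_num; ring1)
  rw [v1, v2, v3]
  linear_combination (0) * he


lemma bp4 (h : Gen (24 : k) 6 x y) :
    KC72.ev (List.ofFn (G8 x y)) (false, [0, 0, 0, 0, 0, 0, 0, 0, 0, 2, 1]) + KC72.ev (List.ofFn (G8 x y)) (false, [0, 0, 0, 1, 0, 0, 0, 0, 0, 0, 0]) =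
      KC72.ev (List.ofFn (G8 x y)) (false, [1, 0, 0, 0, 0, 0, 0, 0, 0, 0, 0]) := by
  have := cz (k := k) (F := F)
  have he := Gen.eq' h
  have v1 : KC72.ev (List.ofFn (G8 x y)) (false, [0, 0, 0, 0, 0, 0, 0, 0, 0, 2, 1]) = (12) := by
    rw [ev_G8 (k := k)]
    simp [M8, Fin.prod_univ_succ, uF, zpow_ofNat, map_ofNat]
    all_goals first
      | done
      | ring1
      | (left; norm_num; done)
      | (norm_num; done)
      | (norm_num; ring1)
  have v2 : KC72.ev (List.ofFn (G8 x y)) (false, [0, 0, 0, 1, 0, 0, 0, 0, 0, 0, 0]) = (1) * (x - 12) ^ 1 := by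
    rw [ev_G8 (k := k)]
    simp [M8, Fin.prod_univ_succ, uF, zpow_ofNat, map_ofNat]
    all_goals first
      | done
      | ring1
      | (left; norm_num; done)
      | (norm_num; done)
      | (norm_num; ring1)
  have v3 : KC72.ev (List.ofFn (G8 x y)) (false, [1, 0, 0, 0, 0, 0, 0, 0, 0, 0, 0]) = (1) * (x) ^ 1 := by
    rw [ev_G8 (k := k)]
    simp [M8, Fin.prod_univ_succ, uF, zpow_ofNat, map_ofNat]
    all_goals first
      | done
      | ring1
      | (left; norm_num; done)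
      | (norm_num; done)
      | (norm_num; ring1)
  rw [v1, v2, v3]
  linear_combination (0) * he


lemma bp5 (h : Gen (24 : k) 6 x y) :
    KC72.ev (List.ofFn (G8 x y)) (true, [0, 0, 0, 0, 0, 0, 0, 0, 0, 1, 2]) + KC72.ev (List.ofFn (G8 x y)) (false, [0, 0, 1, 0, 0, 0, 0, 0, 0, 0, 0]) =
      KC72.ev (List.ofFn (G8 x y)) (false, [0, 1, 0, 0, 0, 0, 0, 0, 0, 0, 0]) := by
  have := cz (k := k) (F := F)
  have he := Gen.eq' h
  have v1 : KC72.ev (List.ofFn (G8 x y)) (true, [0, 0, 0, 0, 0, 0, 0, 0, 0, 1, 2]) = (-18) := by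
    rw [ev_G8 (k := k)]
    simp [M8, Fin.prod_univ_succ, uF, zpow_ofNat, map_ofNat]
    all_goals first
      | done
      | ring1
      | (left; norm_num; done)
      | (norm_num; done)
      | (norm_num; ring1)
  have v2 : KC72.ev (List.ofFn (G8 x y)) (false, [0, 0, 1, 0, 0, 0, 0, 0, 0, 0, 0]) = (1) * (x - 6) ^ 1 := by
    rw [ev_G8 (k := k)]
    simp [M8, Fin.prod_univ_succ, uF, zpow_ofNat, map_ofNat]
    all_goals first
      | done
      | ring1
      | (left; norm_num; done)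
      | (norm_num; done)
      | (norm_num; ring1)
  have v3 : KC72.ev (List.ofFn (G8 x y)) (false, [0, 1, 0, 0, 0, 0, 0, 0, 0, 0, 0]) = (1) * (x - 24) ^ 1 := by
    rw [ev_G8 (k := k)]
    simp [M8, Fin.prod_univ_succ, uF, zpow_ofNat, map_ofNat]
    all_goals first
      | done
      | ring1
      | (left; norm_num; done)
      | (norm_num; done)
      | (norm_num; ring1)
  rw [v1, v2, v3]
  linear_combination (0) * he


lemma bp6 (h : Gen (24 : k) 6 x y) :
    KC72.ev (List.ofFn (G8 x y)) (false, [0, 0, 0, 0, 0, 0, 0, 0, 0, 1, 1]) + KC72.ev (List.ofFn (G8 x y)) (false, [0, 0, 1, 0, 0, 0, 0, 0, 0, 0, 0]) =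
      KC72.ev (List.ofFn (G8 x y)) (false, [1, 0, 0, 0, 0, 0, 0, 0, 0, 0, 0]) := by
  have := cz (k := k) (F := F)
  have he := Gen.eq' h
  have v1 : KC72.ev (List.ofFn (G8 x y)) (false, [0, 0, 0, 0, 0, 0, 0, 0, 0, 1, 1]) = (6) := by
    rw [ev_G8 (k := k)]
    simp [M8, Fin.prod_univ_succ, uF, zpow_ofNat, map_ofNat]
    all_goals first
      | done
      | ring1
      | (left; norm_num; done)
      | (norm_num; done)
      | (norm_num; ring1)
  have v2 : KC72.ev (List.ofFn (G8 x y)) (false, [0, 0, 1, 0, 0, 0, 0, 0, 0, 0, 0]) = (1) * (x - 6) ^ 1 := by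
    rw [ev_G8 (k := k)]
    simp [M8, Fin.prod_univ_succ, uF, zpow_ofNat, map_ofNat]
    all_goals first
      | done
      | ring1
      | (left; norm_num; done)
      | (norm_num; done)
      | (norm_num; ring1)
  have v3 : KC72.ev (List.ofFn (G8 x y)) (false, [1, 0, 0, 0, 0, 0, 0, 0, 0, 0, 0]) = (1) * (x) ^ 1 := by
    rw [ev_G8 (k := k)]
    simp [M8, Fin.prod_univ_succ, uF, zpow_ofNat, map_ofNat]
    all_goals first
      | done
      | ring1
      | (left; norm_num; done)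
      | (norm_num; done)
      | (norm_num; ring1)
  rw [v1, v2, v3]
  linear_combination (0) * he


lemma bp7 (h : Gen (24 : k) 6 x y) :
    KC72.ev (List.ofFn (G8 x y)) (false, [0, 0, 0, 0, 0, 0, 0, 0, 0, 3, 1]) + KC72.ev (List.ofFn (G8 x y)) (false, [0, 1, 0, 0, 0, 0, 0, 0, 0, 0, 0]) =
      KC72.ev (List.ofFn (G8 x y)) (false, [1, 0, 0, 0, 0, 0, 0, 0, 0, 0, 0]) := by
  have := cz (k := k) (F := F)
  have he := Gen.eq' h
  have v1 : KC72.ev (List.ofFn (G8 x y)) (false, [0, 0, 0, 0, 0, 0, 0, 0, 0, 3, 1]) = (24) := by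
    rw [ev_G8 (k := k)]
    simp [M8, Fin.prod_univ_succ, uF, zpow_ofNat, map_ofNat]
    all_goals first
      | done
      | ring1
      | (left; norm_num; done)
      | (norm_num; done)
      | (norm_num; ring1)
  have v2 : KC72.ev (List.ofFn (G8 x y)) (false, [0, 1, 0, 0, 0, 0, 0, 0, 0, 0, 0]) = (1) * (x - 24) ^ 1 := by
    rw [ev_G8 (k := k)]
    simp [M8, Fin.prod_univ_succ, uF, zpow_ofNat, map_ofNat]
    all_goals first
      | done
      | ring1
      | (left; norm_num; done)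
      | (norm_num; done)
      | (norm_num; ring1)
  have v3 : KC72.ev (List.ofFn (G8 x y)) (false, [1, 0, 0, 0, 0, 0, 0, 0, 0, 0, 0]) = (1) * (x) ^ 1 := by
    rw [ev_G8 (k := k)]
    simp [M8, Fin.prod_univ_succ, uF, zpow_ofNat, map_ofNat]
    all_goals first
      | done
      | ring1
      | (left; norm_num; done)
      | (norm_num; done)
      | (norm_num; ring1)
  rw [v1, v2, v3]
  linear_combination (0) * he


lemma bp8 (h : Gen (24 : k) 6 x y) :
    KC72.ev (List.ofFn (G8 x y)) (false, [0, 0, 0, 0, 0, 0, 0, 0, 1, 0, 0]) + KC72.ev (List.ofFn (G8 x y)) (false, [1, 0, 0, 0, 0, 0, 0, 0, 0, 2, 0]) =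
      KC72.ev (List.ofFn (G8 x y)) (false, [0, 0, 0, 0, 0, 1, 0, 0, 0, 0, 0]) := by
  have := cz (k := k) (F := F)
  have he := Gen.eq' h
  have v1 : KC72.ev (List.ofFn (G8 x y)) (false, [0, 0, 0, 0, 0, 0, 0, 0, 1, 0, 0]) = (1) * (y - 4 * x) ^ 1 := by
    rw [ev_G8 (k := k)]
    simp [M8, Fin.prod_univ_succ, uF, zpow_ofNat, map_ofNat]
    all_goals first
      | done
      | ring1
      | (left; norm_num; done)
      | (norm_num; done)
      | (norm_num; ring1)
  have v2 : KC72.ev (List.ofFn (G8 x y)) (false, [1, 0, 0, 0, 0, 0, 0, 0, 0, 2, 0]) = (4) * (x) ^ 1 := by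
    rw [ev_G8 (k := k)]
    simp [M8, Fin.prod_univ_succ, uF, zpow_ofNat, map_ofNat]
    all_goals first
      | done
      | ring1
      | (left; norm_num; done)
      | (norm_num; done)
      | (norm_num; ring1)
  have v3 : KC72.ev (List.ofFn (G8 x y)) (false, [0, 0, 0, 0, 0, 1, 0, 0, 0, 0, 0]) = (1) * (y) ^ 1 := by
    rw [ev_G8 (k := k)]
    simp [M8, Fin.prod_univ_succ, uF, zpow_ofNat, map_ofNat]
    all_goals first
      | done
      | ring1
      | (left; norm_num; done)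
      | (norm_num; done)
      | (norm_num; ring1)
  rw [v1, v2, v3]
  linear_combination (0) * he


lemma bp9 (h : Gen (24 : k) 6 x y) :
    KC72.ev (List.ofFn (G8 x y)) (false, [0, 0, 0, 0, 0, 0, 0, 0, 1, 0, 0]) + KC72.ev (List.ofFn (G8 x y)) (true, [1, 0, 0, 0, 0, 0, 0, 0, 0, 1, 0]) =
      KC72.ev (List.ofFn (G8 x y)) (false, [0, 0, 0, 0, 0, 0, 1, 0, 0, 0, 0]) := by
  have := cz (k := k) (F := F)
  have he := Gen.eq' h
  have v1 : KC72.ev (List.ofFn (G8 x y)) (false, [0, 0, 0, 0, 0, 0, 0, 0, 1, 0, 0]) = (1) * (y - 4 * x) ^ 1 := by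
    rw [ev_G8 (k := k)]
    simp [M8, Fin.prod_univ_succ, uF, zpow_ofNat, map_ofNat]
    all_goals first
      | done
      | ring1
      | (left; norm_num; done)
      | (norm_num; done)
      | (norm_num; ring1)
  have v2 : KC72.ev (List.ofFn (G8 x y)) (true, [1, 0, 0, 0, 0, 0, 0, 0, 0, 1, 0]) = (-2) * (x) ^ 1 := by
    rw [ev_G8 (k := k)]
    simp [M8, Fin.prod_univ_succ, uF, zpow_ofNat, map_ofNat]
    all_goals first
      | done
      | ring1
      | (left; norm_num; done)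
      | (norm_num; done)
      | (norm_num; ring1)
  have v3 : KC72.ev (List.ofFn (G8 x y)) (false, [0, 0, 0, 0, 0, 0, 1, 0, 0, 0, 0]) = (1) * (y - 6 * x) ^ 1 := by
    rw [ev_G8 (k := k)]
    simp [M8, Fin.prod_univ_succ, uF, zpow_ofNat, map_ofNat]
    all_goals first
      | done
      | ring1
      | (left; norm_num; done)
      | (norm_num; done)
      | (norm_num; ring1)
  rw [v1, v2, v3]
  linear_combination (0) * he


lemma bp10 (h : Gen (24 : k) 6 x y) :
    KC72.ev (List.ofFn (G8 x y)) (true, [1, 0, 0, 0, 0, 0, 0, 0, 0, 0, 1]) + KC72.ev (List.ofFn (G8 x y)) (false, [0, 0, 0, 0, 0, 0, 0, 1, 0, 0, 0]) =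
      KC72.ev (List.ofFn (G8 x y)) (false, [0, 0, 0, 0, 0, 0, 1, 0, 0, 0, 0]) := by
  have := cz (k := k) (F := F)
  have he := Gen.eq' h
  have v1 : KC72.ev (List.ofFn (G8 x y)) (true, [1, 0, 0, 0, 0, 0, 0, 0, 0, 0, 1]) = (-3) * (x) ^ 1 := by
    rw [ev_G8 (k := k)]
    simp [M8, Fin.prod_univ_succ, uF, zpow_ofNat, map_ofNat]
    all_goals first
      | done
      | ring1
      | (left; norm_num; done)
      | (norm_num; done)
      | (norm_num; ring1)
  have v2 : KC72.ev (List.ofFn (G8 x y)) (false, [0, 0, 0, 0, 0, 0, 0, 1, 0, 0, 0]) = (1) * (y - 3 * x) ^ 1 := by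
    rw [ev_G8 (k := k)]
    simp [M8, Fin.prod_univ_succ, uF, zpow_ofNat, map_ofNat]
    all_goals first
      | done
      | ring1
      | (left; norm_num; done)
      | (norm_num; done)
      | (norm_num; ring1)
  have v3 : KC72.ev (List.ofFn (G8 x y)) (false, [0, 0, 0, 0, 0, 0, 1, 0, 0, 0, 0]) = (1) * (y - 6 * x) ^ 1 := by
    rw [ev_G8 (k := k)]
    simp [M8, Fin.prod_univ_succ, uF, zpow_ofNat, map_ofNat]
    all_goals first
      | done
      | ring1
      | (left; norm_num; done)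
      | (norm_num; done)
      | (norm_num; ring1)
  rw [v1, v2, v3]
  linear_combination (0) * he


lemma bp11 (h : Gen (24 : k) 6 x y) :
    KC72.ev (List.ofFn (G8 x y)) (false, [1, 0, 0, 0, 0, 0, 0, 0, 0, 0, 1]) + KC72.ev (List.ofFn (G8 x y)) (false, [0, 0, 0, 0, 0, 0, 0, 1, 0, 0, 0]) =
      KC72.ev (List.ofFn (G8 x y)) (false, [0, 0, 0, 0, 0, 1, 0, 0, 0, 0, 0]) := by
  have := cz (k := k) (F := F)
  have he := Gen.eq' h
  have v1 : KC72.ev (List.ofFn (G8 x y)) (false, [1, 0, 0, 0, 0, 0, 0, 0, 0, 0, 1]) = (3) * (x) ^ 1 := by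
    rw [ev_G8 (k := k)]
    simp [M8, Fin.prod_univ_succ, uF, zpow_ofNat, map_ofNat]
    all_goals first
      | done
      | ring1
      | (left; norm_num; done)
      | (norm_num; done)
      | (norm_num; ring1)
  have v2 : KC72.ev (List.ofFn (G8 x y)) (false, [0, 0, 0, 0, 0, 0, 0, 1, 0, 0, 0]) = (1) * (y - 3 * x) ^ 1 := by
    rw [ev_G8 (k := k)]
    simp [M8, Fin.prod_univ_succ, uF, zpow_ofNat, map_ofNat]
    all_goals first
      | done
      | ring1
      | (left; norm_num; done)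
      | (norm_num; done)
      | (norm_num; ring1)
  have v3 : KC72.ev (List.ofFn (G8 x y)) (false, [0, 0, 0, 0, 0, 1, 0, 0, 0, 0, 0]) = (1) * (y) ^ 1 := by
    rw [ev_G8 (k := k)]
    simp [M8, Fin.prod_univ_succ, uF, zpow_ofNat, map_ofNat]
    all_goals first
      | done
      | ring1
      | (left; norm_num; done)
      | (norm_num; done)
      | (norm_num; ring1)
  rw [v1, v2, v3]
  linear_combination (0) * he


end

end Pool.Agent.KXa
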